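import Mathlib

/-!
# Exponents of Fermat type: few solutions of `A ^ t + B ^ t = C ^ t` when `t` is large
-/

set_option autoImplicit false

namespace Pool.Agent.Y902.FB

open Finset

/-- splitting of a product which is a power -/
theorem split_pow {d Φ B t : ℕ} (hd : d ≠ 0) (hΦ : Φ ≠ 0) (h : d * Φ = B ^ t) :
    ∃ x y β : ℕ, x ∣ Nat.gcd d Φ ∧ y ∣ Nat.gcd d Φ ∧ d * x = β ^ t * y := by
  set L := Nat.factorizationLCMLeft d Φ with hL
  set R := Nat.factorizationLCMRight d Φ with hR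
  have hLR : L * R = Nat.lcm d Φ := Nat.factorizationLCMLeft_mul_factorizationLCMRight hd hΦ
  have hco : Nat.Coprime L R := Nat.coprime_factorizationLCMLeft_factorizationLCMRight d Φ
  obtain ⟨y, hy⟩ : L ∣ d := Nat.factorizationLCMLeft_dvd_left d Φ
  obtain ⟨x, hx⟩ : R ∣ Φ := Nat.factorizationLCMRight_dvd_right d Φ
  have hL0 : L ≠ 0 := by rintro h0; rw [h0, zero_mul] at hy; exact hd hy
  have hR0 : R ≠ 0 := by rintro h0; rw [h0, zero_mul] at hx; exact hΦ hx
  have hxy : x * y = Nat.gcd d Φ := by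
    have h1 : Nat.gcd d Φ * Nat.lcm d Φ = d * Φ := Nat.gcd_mul_lcm d Φ
    rw [← hLR] at h1
    have h2 : (L * R) * (x * y) = (L * R) * Nat.gcd d Φ := by
      calc (L * R) * (x * y) = (L * y) * (R * x) := by ring
        _ = d * Φ := by rw [← hy, ← hx]
        _ = _ := by rw [← h1]; ring
    exact Nat.eq_of_mul_eq_mul_left (Nat.pos_of_ne_zero (mul_ne_zero hL0 hR0)) h2
  have hxL : x ∣ L := by
    have h1 : R * x ∣ R * L := by
      rw [← hx, mul_comm R L, hLR]; exact Nat.dvd_lcm_right d Φ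
    exact Nat.dvd_of_mul_dvd_mul_left (Nat.pos_of_ne_zero hR0) h1
  have hyR : y ∣ R := by
    have h1 : L * y ∣ L * R := by
      rw [← hy, hLR]; exact Nat.dvd_lcm_left d Φ
    exact Nat.dvd_of_mul_dvd_mul_left (Nat.pos_of_ne_zero hL0) h1
  have hco2 : Nat.Coprime (L * x) (R * y) := by
    have h1 : Nat.Coprime (L * x) R := Nat.Coprime.mul_left hco (hco.coprime_dvd_left hxL)
    exact Nat.Coprime.mul_right h1 (h1.coprime_dvd_right hyR)
  have hprod : (L * x) * (R * y) = B ^ t := by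
    rw [← h, hy, hx]; ring
  obtain ⟨β, hβ⟩ := exists_eq_pow_of_mul_eq_pow (a := L * x) (b := R * y) (c := B) (k := t)
    (by rw [Nat.isUnit_iff]; exact hco2) hprod
  refine ⟨x, y, β, ⟨y, hxy.symm⟩, ⟨x, by rw [mul_comm]; exact hxy.symm⟩, ?_⟩
  calc d * x = (L * x) * y := by rw [hy]; ring
    _ = _ := by rw [hβ]

/-- the differences are powers up to divisors of `t` -/
theorem fer_diff {t A B C : ℕ} (hAC : A.Coprime C) (hB : 0 < B)
    (h : A ^ t + B ^ t = C ^ t) : ∃ x y β : ℕ, x ∣ t ∧ y ∣ t ∧ A < C ∧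
      (C - A) * x = β ^ t * y := by
  have ht : t ≠ 0 := by rintro rfl; simp at h
  have hlt : A < C := by
    by_contra hcon
    push Not at hcon
    have h1 : C ^ t ≤ A ^ t := Nat.pow_le_pow_left hcon t
    have h2 : 0 < B ^ t := Nat.pow_pos hB
    omega
  set Φ : ℕ := ∑ i ∈ range t, C ^ i * A ^ (t - 1 - i) with hΦ
  have hgeom : (C - A) * Φ = B ^ t := by
    have h1 : ((∑ i ∈ range t, (C : ℤ) ^ i * (A : ℤ) ^ (t - 1 - i))) * ((C : ℤ) - A) =
        (C : ℤ) ^ t - (A : ℤ) ^ t := (Commute.all _ _).geom_sum₂_mul t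
    have h2 : (((C - A) * Φ : ℕ) : ℤ) = ((B ^ t : ℕ) : ℤ) := by
      rw [hΦ]
      push_cast [hlt.le]
      have h3 : (A : ℤ) ^ t + (B : ℤ) ^ t = (C : ℤ) ^ t := by exact_mod_cast h
      linarith
    exact_mod_cast h2
  have hd0 : C - A ≠ 0 := by omega
  have hΦ0 : Φ ≠ 0 := by
    intro h0
    rw [h0, mul_zero] at hgeom
    exact (Nat.pow_pos hB).ne hgeom
  have hg : Nat.gcd (C - A) Φ ∣ t := by
    set g := Nat.gcd (C - A) Φ with hg
    have h1 : g ∣ C - A := Nat.gcd_dvd_left _ _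
    have h2 : g ∣ Φ := Nat.gcd_dvd_right _ _
    have h3 : (g : ℤ) ∣ (C : ℤ) - A := by
      have : (g : ℤ) ∣ ((C - A : ℕ) : ℤ) := by exact_mod_cast h1
      rwa [Nat.cast_sub hlt.le] at this
    have h4 : (g : ℤ) ∣ ∑ i ∈ range t, (C : ℤ) ^ i * (A : ℤ) ^ (t - 1 - i) := by
      have : (g : ℤ) ∣ (Φ : ℤ) := by exact_mod_cast h2
      rw [hΦ] at this
      push_cast at this
      exact this
    rw [dvd_geom_sum₂_iff_of_dvd_sub h3] at h4
    have h5 : g ∣ t * A ^ (t - 1) := by exact_mod_cast h4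
    have h6 : Nat.Coprime g A := by
      have h7 : Nat.Coprime (C - A) A := by
        rw [Nat.coprime_sub_self_left hlt.le]
        exact hAC.symm
      exact h7.coprime_dvd_left h1
    exact (h6.pow_right _).dvd_of_dvd_mul_right h5
  obtain ⟨x, y, β, hx, hy, hxy⟩ := split_pow hd0 hΦ0 hgeom
  exact ⟨x, y, β, hx.trans hg, hy.trans hg, hlt, hxy⟩

/-- the differences determine the solution -/
theorem fer_inj {t A B C A' B' C' : ℕ} (hB : 0 < B) (hA : 0 < A)
    (h : A ^ t + B ^ t = C ^ t) (h' : A' ^ t + B' ^ t = C' ^ t) (hA' : 0 < A') (hB' : 0 < B')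
    (h1 : C - A = C' - A') (h2 : C - B = C' - B') : C = C' := by
  have key : ∀ {A B C A' B' C' : ℕ}, 0 < A → 0 < B → A ^ t + B ^ t = C ^ t →
      A' ^ t + B' ^ t = C' ^ t → 0 < A' → 0 < B' → C - A = C' - A' → C - B = C' - B' → ¬ C < C' := by
    intro A B C A' B' C' hA hB h h' hA' hB' h1 h2 hlt
    have ht : t ≠ 0 := by rintro rfl; simp at h
    have hlt1 : ∀ {A B C : ℕ}, 0 < B → A ^ t + B ^ t = C ^ t → A < C := by
      intro A B C hB h
      by_contra hcon
      push Not at hcon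
      have h1 : C ^ t ≤ A ^ t := Nat.pow_le_pow_left hcon t
      have h2 : 0 < B ^ t := Nat.pow_pos hB
      omega
    have a1 : A < C := hlt1 hB h
    have a2 : B < C := hlt1 hA (by rw [add_comm]; exact h)
    have a3 : A' < C' := hlt1 hB' h'
    have a4 : B' < C' := hlt1 hA' (by rw [add_comm]; exact h')
    have b1 : A * C' < A' * C := by
      obtain ⟨d, hd⟩ := Nat.exists_eq_add_of_lt a1
      have e1 : C' = A' + d + 1 := by omega
      rw [e1, hd]
      have e2 : A < A' := by omega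
      nlinarith
    have b2 : B * C' < B' * C := by
      obtain ⟨d, hd⟩ := Nat.exists_eq_add_of_lt a2
      have e1 : C' = B' + d + 1 := by omega
      rw [e1, hd]
      have e2 : B < B' := by omega
      nlinarith
    have c1 := Nat.pow_lt_pow_left b1 ht
    have c2 := Nat.pow_lt_pow_left b2 ht
    rw [mul_pow, mul_pow] at c1 c2
    have c3 : C ^ t * C' ^ t < C' ^ t * C ^ t := by
      calc C ^ t * C' ^ t = A ^ t * C' ^ t + B ^ t * C' ^ t := by rw [← h]; ring
        _ < A' ^ t * C ^ t + B' ^ t * C ^ t := by omega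
        _ = C' ^ t * C ^ t := by rw [← h']; ring
    rw [mul_comm] at c3
    exact lt_irrefl _ c3
  rcases lt_trichotomy C C' with h3 | h3 | h3
  · exact absurd h3 (key hA hB h h' hA' hB' h1 h2)
  · exact h3
  · exact absurd h3 (key hA' hB' h' h hA hB h1.symm h2.symm)

/-- **Few solutions.** -/
theorem fer_count {t W w : ℕ} (hw : W * t < (w + 1) ^ t) (T : Finset (ℕ × ℕ × ℕ))
    (hT : ∀ x ∈ T, 0 < x.1 ∧ 0 < x.2.1 ∧ x.2.2 ≤ W ∧ x.1.Coprime x.2.2 ∧
      x.2.1.Coprime x.2.2 ∧ x.1 ^ t + x.2.1 ^ t = x.2.2 ^ t) :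
    T.card ≤ (t * t * (w + 1)) ^ 2 := by
  classical
  rcases Nat.eq_zero_or_pos t with ht | ht
  · subst ht
    have : T = ∅ := by
      apply Finset.eq_empty_of_forall_notMem
      intro x hx
      have := (hT x hx).2.2.2.2.2
      simp at this
    simp [this]
  set S : Finset ℕ := ((Finset.Icc 1 t ×ˢ Finset.Icc 1 t) ×ˢ Finset.range (w + 1)).image
    (fun z => z.2 ^ t * z.1.2 / z.1.1) with hS
  have hScard : S.card ≤ t * t * (w + 1) := by
    refine Finset.card_image_le.trans ?_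
    rw [Finset.card_product, Finset.card_product, Nat.card_Icc, Finset.card_range]
    simp
  have hmem : ∀ A B C : ℕ, 0 < A → 0 < B → C ≤ W → A.Coprime C → A ^ t + B ^ t = C ^ t →
      C - A ∈ S := by
    intro A B C hA hB hC hco h
    obtain ⟨x, y, β, hx, hy, hlt, hxy⟩ := fer_diff hco hB h
    have hx0 : 0 < x := Nat.pos_of_dvd_of_pos hx ht
    have hy0 : 0 < y := Nat.pos_of_dvd_of_pos hy ht
    rw [hS, Finset.mem_image]
    refine ⟨((x, y), β), ?_, ?_⟩
    · simp only [Finset.mem_product, Finset.mem_Icc, Finset.mem_range]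
      refine ⟨⟨⟨hx0, Nat.le_of_dvd ht hx⟩, ⟨hy0, Nat.le_of_dvd ht hy⟩⟩, ?_⟩
      by_contra hcon
      push Not at hcon
      have h1 : (w + 1) ^ t ≤ β ^ t := Nat.pow_le_pow_left hcon t
      have h2 : β ^ t ≤ β ^ t * y := Nat.le_mul_of_pos_right _ hy0
      have h3 : (C - A) * x ≤ W * t := Nat.mul_le_mul (by omega) (Nat.le_of_dvd ht hx)
      omega
    · simp only
      rw [← hxy]
      exact Nat.mul_div_cancel _ hx0
  have hinj : Set.InjOn (fun x : ℕ × ℕ × ℕ => (x.2.2 - x.1, x.2.2 - x.2.1)) (T : Set (ℕ × ℕ × ℕ)) := by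
    rintro ⟨A, B, C⟩ hx ⟨A', B', C'⟩ hx' heq
    simp only [Prod.mk.injEq] at heq
    obtain ⟨hA, hB, -, -, -, h⟩ := hT _ hx
    obtain ⟨hA', hB', -, -, -, h'⟩ := hT _ hx'
    simp only at hA hB h hA' hB' h'
    have hCC := fer_inj hB hA h h' hA' hB' heq.1 heq.2
    have hlt1 : ∀ {A B C : ℕ}, 0 < B → A ^ t + B ^ t = C ^ t → A < C := by
      intro A B C hB h
      by_contra hcon
      push Not at hcon
      have h1 : C ^ t ≤ A ^ t := Nat.pow_le_pow_left hcon t
      have h2 : 0 < B ^ t := Nat.pow_pos hB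
      omega
    have a1 : A < C := hlt1 hB h
    have a2 : B < C := hlt1 hA (by rw [add_comm]; exact h)
    have a3 : A' < C' := hlt1 hB' h'
    have a4 : B' < C' := hlt1 hA' (by rw [add_comm]; exact h')
    have b1 : A = A' := by omega
    have b2 : B = B' := by omega
    rw [b1, b2, hCC]
  have hsub : T.image (fun x : ℕ × ℕ × ℕ => (x.2.2 - x.1, x.2.2 - x.2.1)) ⊆ S ×ˢ S := by
    intro z hz
    obtain ⟨⟨A, B, C⟩, hx, rfl⟩ := Finset.mem_image.1 hz
    obtain ⟨hA, hB, hC, hco1, hco2, h⟩ := hT _ hx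
    simp only at hA hB hC hco1 hco2 h
    rw [Finset.mem_product]
    exact ⟨hmem A B C hA hB hC hco1 h, hmem B A C hB hA hC hco2 (by rw [add_comm]; exact h)⟩
  rw [← Finset.card_image_of_injOn hinj]
  refine (Finset.card_le_card hsub).trans ?_
  rw [Finset.card_product, sq]
  exact Nat.mul_le_mul hScard hScard

end Pool.Agent.Y902.FB
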