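import Mathlib

/-!
# Pigeonhole: integer combinations of functions which vanish modulo `q ^ r`
-/

set_option autoImplicit false

namespace Pool.Agent.Y902.FB

open Finset

/-- pigeonhole principle for functions with expansions -/
theorem pigeon {Ω M T : Type*} [Fintype M] [Fintype T] (q r B : ℕ) (hq : 2 ≤ q) (τ : T → ℕ)
    (b : T → Ω → ℤ) (hb : ∀ t ω, (q : ℤ) ^ (τ t) ∣ b t ω)
    (f : M → Ω → ℤ) (φ : M → T → ℤ)
    (hf : ∀ e ω, (q : ℤ) ^ r ∣ f e ω - ∑ t, φ e t * b t ω)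
    (hcard : q ^ (∑ t, (r - τ t)) < (B + 1) ^ (Fintype.card M)) :
    ∃ c : M → ℤ, c ≠ 0 ∧ (∀ e, |c e| ≤ B) ∧ ∀ ω, (q : ℤ) ^ r ∣ ∑ e, c e * f e ω := by
  classical
  have hne : ∀ t : T, NeZero (q ^ (r - τ t)) := fun t => ⟨(Nat.pow_pos (by omega)).ne'⟩
  let F : (M → Fin (B + 1)) → (∀ t : T, ZMod (q ^ (r - τ t))) := fun c t =>
    (((∑ e, ((c e : ℕ) : ℤ) * φ e t : ℤ)) : ZMod (q ^ (r - τ t)))
  have hc : Fintype.card (∀ t : T, ZMod (q ^ (r - τ t))) < Fintype.card (M → Fin (B + 1)) := by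
    rw [Fintype.card_pi, Fintype.card_pi]
    simp only [ZMod.card, Fintype.card_fin, Finset.prod_const, Finset.card_univ]
    rw [Finset.prod_pow_eq_pow_sum]
    exact hcard
  obtain ⟨c, c', hcc, hF⟩ := Fintype.exists_ne_map_eq_of_card_lt F hc
  refine ⟨fun e => ((c e : ℕ) : ℤ) - ((c' e : ℕ) : ℤ), ?_, ?_, ?_⟩
  · intro h0
    apply hcc
    funext e
    have := congrFun h0 e
    simp only [Pi.zero_apply] at this
    apply Fin.ext
    omega
  · intro e
    have h1 := (c e).2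
    have h2 := (c' e).2
    rw [abs_le]
    constructor <;> push_cast <;> omega
  · intro ω
    have h1 : ∀ t : T, (q : ℤ) ^ (r - τ t) ∣
        (∑ e, (((c e : ℕ) : ℤ) - ((c' e : ℕ) : ℤ)) * φ e t) := by
      intro t
      have h2 := congrFun hF t
      simp only [F] at h2
      have h3 := (ZMod.intCast_eq_intCast_iff_dvd_sub _ _ _).1 h2.symm
      have h4 : ∑ e, (((c e : ℕ) : ℤ) - ((c' e : ℕ) : ℤ)) * φ e t =
          (∑ e, ((c e : ℕ) : ℤ) * φ e t) - ∑ e, ((c' e : ℕ) : ℤ) * φ e t := by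
        rw [← Finset.sum_sub_distrib]
        exact Finset.sum_congr rfl fun e _ => by ring
      rw [h4]
      exact_mod_cast h3
    have h5 : ∑ e, (((c e : ℕ) : ℤ) - ((c' e : ℕ) : ℤ)) * f e ω =
        ∑ e, (((c e : ℕ) : ℤ) - ((c' e : ℕ) : ℤ)) * (f e ω - ∑ t, φ e t * b t ω) +
        ∑ t, (∑ e, (((c e : ℕ) : ℤ) - ((c' e : ℕ) : ℤ)) * φ e t) * b t ω := by
      have h6 : ∑ t, (∑ e, (((c e : ℕ) : ℤ) - ((c' e : ℕ) : ℤ)) * φ e t) * b t ω =
          ∑ e, (((c e : ℕ) : ℤ) - ((c' e : ℕ) : ℤ)) * ∑ t, φ e t * b t ω := by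
        simp_rw [Finset.sum_mul, Finset.mul_sum]
        rw [Finset.sum_comm]
        exact Finset.sum_congr rfl fun e _ => Finset.sum_congr rfl fun t _ => by ring
      rw [h6, ← Finset.sum_add_distrib]
      exact Finset.sum_congr rfl fun e _ => by ring
    rw [h5]
    refine dvd_add (Finset.dvd_sum fun e _ => Dvd.dvd.mul_left (hf e ω) _)
      (Finset.dvd_sum fun t _ => ?_)
    rcases Nat.lt_or_ge (τ t) r with h | h
    · have h7 : (q : ℤ) ^ r = (q : ℤ) ^ (r - τ t) * (q : ℤ) ^ (τ t) := by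
        rw [← pow_add]; congr 1; omega
      rw [h7]
      exact mul_dvd_mul (h1 t) (hb t ω)
    · exact Dvd.dvd.mul_left ((pow_dvd_pow _ h).trans (hb t ω)) _

end Pool.Agent.Y902.FB
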