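import Mathlib
import Pool.Agent.Y902.FB.Pig

/-!
# Newton's method over the integers for several unknowns, and expansions modulo `q ^ r`
-/

set_option autoImplicit false

namespace Pool.Agent.Y902.FB

open Finset MvPolynomial

theorem diff_eval {σ : Type*} [Fintype σ] [DecidableEq σ] (q : ℤ) (G : MvPolynomial σ ℤ)
    (w t P : σ → ℤ) (hw : ∀ i, q ∣ w i - P i) (ht : ∀ i, q ∣ t i - P i) :
    (∃ c : σ → ℤ, eval w G - eval t G = ∑ j, (w j - t j) * c j ∧
      ∀ j, q ∣ c j - eval P (pderiv j G)) ∧ q ∣ eval t G - eval P G := by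
  induction G using MvPolynomial.induction_on with
  | C a =>
    refine ⟨⟨0, by simp, fun j => by simp⟩, by simp⟩
  | add f g hf hg =>
    obtain ⟨⟨c, hc1, hc2⟩, hc3⟩ := hf
    obtain ⟨⟨d, hd1, hd2⟩, hd3⟩ := hg
    refine ⟨⟨c + d, ?_, fun j => ?_⟩, ?_⟩
    · simp only [map_add, Pi.add_apply, mul_add, Finset.sum_add_distrib]
      rw [← hc1, ← hd1]; ring
    · have h := dvd_add (hc2 j) (hd2 j)
      simp only [map_add, Pi.add_apply]
      have e : c j + d j - ((eval P) ((pderiv j) f) + (eval P) ((pderiv j) g)) =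
        c j - (eval P) ((pderiv j) f) + (d j - (eval P) ((pderiv j) g)) := by ring
      rw [e]; exact h
    · have h := dvd_add hc3 hd3
      simp only [map_add]
      have e : eval t f + eval t g - (eval P f + eval P g) =
        eval t f - eval P f + (eval t g - eval P g) := by ring
      rw [e]; exact h
  | mul_X f i hf =>
    obtain ⟨⟨c, hc1, hc2⟩, hc3⟩ := hf
    refine ⟨⟨fun j => c j * w i + if j = i then eval t f else 0, ?_, fun j => ?_⟩, ?_⟩
    · simp only [map_mul, eval_X, mul_add, Finset.sum_add_distrib]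
      have h1 : ∑ j, (w j - t j) * (c j * w i) = (eval w f - eval t f) * w i := by
        rw [hc1, Finset.sum_mul]
        exact Finset.sum_congr rfl fun j _ => by ring
      rw [h1]
      simp only [mul_ite, mul_zero, Finset.sum_ite_eq', Finset.mem_univ, if_true]
      ring
    · simp only [Derivation.leibniz, smul_eq_mul, map_add, map_mul, eval_X, pderiv_X]
      by_cases hji : j = i
      · subst hji
        simp only [if_true, Pi.single_eq_same, map_one, mul_one]
        have e : c j * w j + eval t f - (eval P f + P j * eval P (pderiv j f)) =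
          (c j - eval P (pderiv j f)) * w j + (w j - P j) * eval P (pderiv j f) +
            (eval t f - eval P f) := by ring
        rw [e]
        exact dvd_add (dvd_add (Dvd.dvd.mul_right (hc2 j) _) (Dvd.dvd.mul_right (hw j) _)) hc3
      · have h2 : (Pi.single i (1 : MvPolynomial σ ℤ) : σ → MvPolynomial σ ℤ) j = 0 :=
          Pi.single_eq_of_ne hji _
        have h3 : (Pi.single j (1 : MvPolynomial σ ℤ) : σ → MvPolynomial σ ℤ) i = 0 :=
          Pi.single_eq_of_ne (Ne.symm hji) _
        simp only [if_neg hji, h2, h3, map_zero, mul_zero, add_zero, zero_add]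
        have e : c j * w i - P i * eval P (pderiv j f) =
          (c j - eval P (pderiv j f)) * w i + (w i - P i) * eval P (pderiv j f) := by ring
        rw [e]
        exact dvd_add (Dvd.dvd.mul_right (hc2 j) _) (Dvd.dvd.mul_right (hw i) _)
    · simp only [map_mul, eval_X]
      have e : eval t f * t i - eval P f * P i = (eval t f - eval P f) * t i +
        eval P f * (t i - P i) := by ring
      rw [e]
      exact dvd_add (Dvd.dvd.mul_right hc3 _) (Dvd.dvd.mul_left (ht i) _)

/-- congruent points have congruent values -/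
theorem eval_congr_dvd {σ : Type*} [Fintype σ] [DecidableEq σ] (N : ℤ) (G : MvPolynomial σ ℤ)
    (w t : σ → ℤ) (h : ∀ i, N ∣ w i - t i) : N ∣ eval w G - eval t G := by
  obtain ⟨⟨c, hc, -⟩, -⟩ := diff_eval 1 G w t 0 (fun i => one_dvd _) (fun i => one_dvd _)
  rw [hc]
  exact Finset.dvd_sum fun j _ => Dvd.dvd.mul_right (h j) _

/-- the Newton map -/
noncomputable def NM {σ S : Type*} [Fintype S] (G : S → MvPolynomial σ ℤ) (m : σ → S → ℤ)
    (w : σ → ℤ) : σ → ℤ := fun i => w i - ∑ s, m i s * eval w (G s)

theorem newton_step {S σ : Type*} [Fintype S] [Fintype σ] [DecidableEq σ] (q : ℤ)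
    (G : S → MvPolynomial σ ℤ) (m : σ → S → ℤ) (K : Set σ) (P w t : σ → ℤ) (r j : ℕ)
    (hm : ∀ a, a ∉ K → ∀ b, b ∉ K →
      q ∣ (∑ s, m a s * eval P (pderiv b (G s))) - if a = b then 1 else 0)
    (hmK : ∀ a ∈ K, ∀ s, m a s = 0)
    (hwP : ∀ i, q ∣ w i - P i) (htP : ∀ i, q ∣ t i - P i) (hK : ∀ k ∈ K, w k = t k)
    (hG : ∀ s, q ^ r ∣ eval t (G s)) (hj : j + 1 ≤ r) (hwt : ∀ i, q ^ j ∣ w i - t i) :
    (∀ i, q ^ (j + 1) ∣ NM G m w i - t i) ∧ ∀ k ∈ K, NM G m w k = t k := by
  classical
  have hKK : ∀ k ∈ K, NM G m w k = t k := by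
    intro k hk
    unfold NM
    rw [hK k hk]
    simp [hmK k hk]
  refine ⟨fun a => ?_, hKK⟩
  by_cases ha : a ∈ K
  · rw [hKK a ha]; simp
  have hc := fun s => (diff_eval q (G s) w t P hwP htP).1
  choose c hc1 hc2 using hc
  have e1 : NM G m w a - t a = (w a - t a) - ∑ b, (w b - t b) * (∑ s, m a s * c s b) -
      ∑ s, m a s * eval t (G s) := by
    unfold NM
    have h1 : ∑ b, (w b - t b) * (∑ s, m a s * c s b) =
        ∑ s, m a s * (eval w (G s) - eval t (G s)) := by
      simp_rw [hc1, Finset.mul_sum]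
      rw [Finset.sum_comm]
      exact Finset.sum_congr rfl fun s _ => Finset.sum_congr rfl fun b _ => by ring
    rw [h1]
    simp_rw [mul_sub, Finset.sum_sub_distrib]
    ring
  have e2 : (w a - t a) - ∑ b, (w b - t b) * (∑ s, m a s * c s b) =
      - ∑ b, (w b - t b) * ((∑ s, m a s * c s b) - if a = b then 1 else 0) := by
    simp_rw [mul_sub, Finset.sum_sub_distrib, mul_ite, mul_one, mul_zero,
      Finset.sum_ite_eq, Finset.mem_univ, if_true]
    ring
  rw [e1, e2]
  refine dvd_sub ((dvd_neg).2 (Finset.dvd_sum fun b _ => ?_)) (Finset.dvd_sum fun s _ => ?_)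
  · by_cases hb : b ∈ K
    · rw [hK b hb]; simp
    · rw [pow_succ]
      refine mul_dvd_mul (hwt b) ?_
      have h3 : (∑ s, m a s * c s b) - (if a = b then 1 else 0) =
          (∑ s, m a s * (c s b - eval P (pderiv b (G s)))) +
          ((∑ s, m a s * eval P (pderiv b (G s))) - if a = b then 1 else 0) := by
        simp_rw [mul_sub, Finset.sum_sub_distrib]
        ring
      rw [h3]
      exact dvd_add (Finset.dvd_sum fun s _ => Dvd.dvd.mul_left (hc2 s b) _) (hm a ha b hb)
  · exact Dvd.dvd.mul_left ((pow_dvd_pow _ hj).trans (hG s)) _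

/-- **Newton's method**: the solutions modulo `q ^ r` near `P` are given by polynomials in the
coordinates of index `k i`. -/
theorem newton {S σ ι : Type*} [Fintype S] [Fintype σ] [DecidableEq σ] (q : ℤ)
    (G : S → MvPolynomial σ ℤ) (m : σ → S → ℤ) (k : ι → σ) (P : σ → ℤ) (r : ℕ)
    (hm : ∀ a, a ∉ Set.range k → ∀ b, b ∉ Set.range k →
      q ∣ (∑ s, m a s * eval P (pderiv b (G s))) - if a = b then 1 else 0)
    (hmK : ∀ a ∈ Set.range k, ∀ s, m a s = 0) :
    ∃ p : σ → MvPolynomial ι ℤ, (∀ a ∈ Set.range k, ∃ x, k x = a ∧ p a = C (P a) + X x) ∧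
      ∀ t : σ → ℤ, (∀ i, q ∣ t i - P i) →
      (∀ s, q ^ r ∣ eval t (G s)) →
      ∀ i, q ^ r ∣ t i - eval (fun x => t (k x) - P (k x)) (p i) := by
  classical
  -- iterates
  have main : ∀ j : ℕ, ∃ p : σ → MvPolynomial ι ℤ,
      (∀ a ∈ Set.range k, ∃ x, k x = a ∧ p a = C (P a) + X x) ∧
      ∀ t : σ → ℤ, (∀ i, q ∣ t i - P i) →
      (∀ s, q ^ r ∣ eval t (G s)) →
      (∀ i, q ^ (min (j + 1) r) ∣ eval (fun x => t (k x) - P (k x)) (p i) - t i) ∧
      ∀ a ∈ Set.range k, eval (fun x => t (k x) - P (k x)) (p a) = t a := by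
    intro j
    induction j with
    | zero =>
      refine ⟨fun a => if h : a ∈ Set.range k then C (P a) + X h.choose else C (P a),
        fun a ha => ⟨ha.choose, ha.choose_spec, by simp only [dif_pos ha]⟩, ?_⟩
      intro t ht _
      have h1 : ∀ a ∈ Set.range k, eval (fun x => t (k x) - P (k x))
          ((fun a => if h : a ∈ Set.range k then C (P a) + X h.choose else C (P a)) a) = t a := by
        intro a ha
        simp only [dif_pos ha, map_add, eval_C, eval_X]
        rw [ha.choose_spec]; ring
      refine ⟨fun i => ?_, h1⟩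
      by_cases hi : i ∈ Set.range k
      · rw [h1 i hi]; simp
      · simp only [dif_neg hi, eval_C]
        have h2 : q ^ (min (0 + 1) r) ∣ q := by
          rcases Nat.eq_zero_or_pos r with h0 | h0
          · simp [h0]
          · rw [min_eq_left (by omega)]; simp
        exact h2.trans ((dvd_sub_comm).1 (ht i))
    | succ j ih =>
      obtain ⟨p, hpk, hp⟩ := ih
      refine ⟨fun a => p a - ∑ s, C (m a s) * bind₁ p (G s), fun a ha => ?_, ?_⟩
      · obtain ⟨x, hx1, hx2⟩ := hpk a ha
        refine ⟨x, hx1, ?_⟩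
        simp only [hmK a ha, map_zero, zero_mul, Finset.sum_const_zero, sub_zero]
        exact hx2
      intro t ht hG
      obtain ⟨hp1, hp2⟩ := hp t ht hG
      set w : σ → ℤ := fun a => eval (fun x => t (k x) - P (k x)) (p a) with hw
      have hNM : ∀ a, eval (fun x => t (k x) - P (k x)) (p a - ∑ s, C (m a s) * bind₁ p (G s)) =
          NM G m w a := by
        intro a
        simp only [NM, map_sub, map_sum, map_mul, eval_C]
        congr 1
        refine Finset.sum_congr rfl fun s _ => ?_
        congr 1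
        rw [eval, eval₂Hom_bind₁]
        rfl
      rcases Nat.lt_or_ge (j + 1) r with hj | hj
      · rw [min_eq_left (by omega)] at hp1
        have hwP : ∀ i, q ∣ w i - P i := by
          intro i
          have h3 : q ∣ w i - t i := (dvd_pow_self q (by omega)).trans (hp1 i)
          have h4 := dvd_add h3 (ht i)
          have e : w i - t i + (t i - P i) = w i - P i := by ring
          rwa [e] at h4
        obtain ⟨h5, h6⟩ := newton_step q G m (Set.range k) P w t r (j + 1) hm hmK hwP ht hp2 hG
          (by omega) hp1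
        refine ⟨fun i => ?_, fun a ha => ?_⟩
        · rw [min_eq_left (by omega), hNM]
          exact h5 i
        · rw [hNM]; exact h6 a ha
      · -- r ≤ j + 1
        rw [min_eq_right hj] at hp1
        have h7 : ∀ s, q ^ r ∣ eval w (G s) := by
          intro s
          have h8 := eval_congr_dvd (q ^ r) (G s) w t hp1
          have h9 := dvd_add h8 (hG s)
          rwa [sub_add_cancel] at h9
        refine ⟨fun i => ?_, fun a ha => ?_⟩
        · rw [min_eq_right (by omega), hNM]
          unfold NM
          have e : w i - ∑ s, m i s * eval w (G s) - t i =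
            (w i - t i) - ∑ s, m i s * eval w (G s) := by ring
          rw [e]
          exact dvd_sub (hp1 i) (Finset.dvd_sum fun s _ => Dvd.dvd.mul_left (h7 s) _)
        · rw [hNM]
          unfold NM
          simp only [hmK a ha, zero_mul, Finset.sum_const_zero, sub_zero]
          exact hp2 a ha
  obtain ⟨p, hpk, hp⟩ := main r
  refine ⟨p, hpk, fun t ht hG i => ?_⟩
  have h := (hp t ht hG).1 i
  rw [min_eq_right (by omega)] at h
  exact (dvd_sub_comm).1 h

end Pool.Agent.Y902.FB
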