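import Mathlib
import Pool.Agent.Y902.FB.Newton

/-!
# Auxiliary polynomials which vanish at all points of a residue class
-/

set_option autoImplicit false

namespace Pool.Agent.Y902.FB

open Finset MvPolynomial

/-- expansion modulo `q ^ r` -/
theorem expand_mod {ι : Type*} [Fintype ι] [DecidableEq ι] (q : ℤ) (r : ℕ) (g : MvPolynomial ι ℤ) :
    ∃ φ : (ι → Fin r) → ℤ, ∀ u : ι → ℤ, (∀ i, q ∣ u i) →
      q ^ r ∣ eval u g - ∑ t : ι → Fin r, φ t * ∏ i, u i ^ (t i : ℕ) := by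
  classical
  refine ⟨fun t => coeff (Finsupp.equivFunOnFinite.symm fun i => (t i : ℕ)) g, fun u hu => ?_⟩
  rw [eval_eq' u g]
  -- the index map
  let e : (ι → Fin r) → (ι →₀ ℕ) := fun t => Finsupp.equivFunOnFinite.symm fun i => (t i : ℕ)
  have he : Function.Injective e := by
    intro t t' h
    have h1 := Finsupp.equivFunOnFinite.symm.injective h
    funext i
    exact Fin.ext (congrFun h1 i)
  have h1 : ∑ t : ι → Fin r, coeff (e t) g * ∏ i, u i ^ (t i : ℕ) =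
      ∑ d ∈ Finset.univ.image e, coeff d g * ∏ i, u i ^ d i := by
    rw [Finset.sum_image (fun a _ b _ h => he h)]
    refine Finset.sum_congr rfl fun t _ => ?_
    rfl
  rw [show (∑ t : ι → Fin r, (fun t => coeff (Finsupp.equivFunOnFinite.symm fun i => (t i : ℕ)) g) t *
    ∏ i, u i ^ (t i : ℕ)) = ∑ d ∈ Finset.univ.image e, coeff d g * ∏ i, u i ^ d i from h1]
  have h2 : ∑ d ∈ Finset.univ.image e, coeff d g * ∏ i, u i ^ d i =
      ∑ d ∈ (Finset.univ.image e) ∩ g.support, coeff d g * ∏ i, u i ^ d i := by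
    symm
    refine Finset.sum_subset Finset.inter_subset_left fun d hd hd' => ?_
    have : d ∉ g.support := fun h => hd' (Finset.mem_inter.2 ⟨hd, h⟩)
    rw [notMem_support_iff.1 this, zero_mul]
  rw [h2, ← Finset.sum_sdiff (Finset.inter_subset_right : (Finset.univ.image e) ∩ g.support ⊆ g.support),
    add_sub_cancel_right]
  refine Finset.dvd_sum fun d hd => ?_
  rw [Finset.mem_sdiff, Finset.mem_inter, not_and_or] at hd
  have hd2 : d ∉ Finset.univ.image e := by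
    rcases hd.2 with h | h
    · exact h
    · exact absurd hd.1 h
  -- some exponent is at least `r`
  have h3 : ∃ i, r ≤ d i := by
    by_contra hcon
    push Not at hcon
    apply hd2
    rw [Finset.mem_image]
    refine ⟨fun i => ⟨d i, hcon i⟩, Finset.mem_univ _, ?_⟩
    ext i
    rfl
  obtain ⟨i, hi⟩ := h3
  refine Dvd.dvd.mul_left ?_ _
  refine Dvd.dvd.trans ?_ (Finset.dvd_prod_of_mem _ (Finset.mem_univ i))
  exact (pow_dvd_pow_of_dvd (hu i) r).trans (pow_dvd_pow _ hi)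

/-- **Auxiliary polynomials.** -/
theorem aux {σ ι M : Type*} [Fintype σ] [DecidableEq σ] [Fintype ι] [DecidableEq ι] [Fintype M]
    (q r B : ℕ) (hq : 2 ≤ q) (P : σ → ℤ) (k : ι → σ) (p : σ → MvPolynomial ι ℤ) (Ω : Set (σ → ℤ))
    (hΩ1 : ∀ t ∈ Ω, ∀ i, (q : ℤ) ∣ t i - P i)
    (hΩ2 : ∀ t ∈ Ω, ∀ i, (q : ℤ) ^ r ∣ t i - eval (fun x => t (k x) - P (k x)) (p i))
    (f : M → MvPolynomial σ ℤ)
    (hcard : q ^ (r ^ (Fintype.card ι + 1)) < (B + 1) ^ (Fintype.card M)) :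
    ∃ c : M → ℤ, c ≠ 0 ∧ (∀ e, |c e| ≤ B) ∧ ∀ t ∈ Ω, (q : ℤ) ^ r ∣ ∑ e, c e * eval t (f e) := by
  classical
  have hφ := fun e : M => expand_mod (q : ℤ) r (bind₁ p (f e))
  choose φ hφ using hφ
  have g1 : ∀ (t : ι → Fin r) (ω : Ω), (q : ℤ) ^ (∑ i, (t i : ℕ)) ∣
      ∏ i, ((ω : σ → ℤ) (k i) - P (k i)) ^ (t i : ℕ) := by
    intro t ω
    rw [← Finset.prod_pow_eq_pow_sum]
    exact Finset.prod_dvd_prod_of_dvd _ _ fun i _ => pow_dvd_pow_of_dvd (hΩ1 ω ω.2 (k i)) _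
  have g2 : ∀ (e : M) (ω : Ω), (q : ℤ) ^ r ∣ eval (ω : σ → ℤ) (f e) -
      ∑ t : ι → Fin r, φ e t * ∏ i, ((ω : σ → ℤ) (k i) - P (k i)) ^ (t i : ℕ) := by
    intro e ω
    have h1 := hφ e (fun i => (ω : σ → ℤ) (k i) - P (k i)) (fun i => hΩ1 ω ω.2 (k i))
    have h2 : (q : ℤ) ^ r ∣ eval (ω : σ → ℤ) (f e) -
        eval (fun i => (ω : σ → ℤ) (k i) - P (k i)) (bind₁ p (f e)) := by
      have h3 := eval_congr_dvd ((q : ℤ) ^ r) (f e) (ω : σ → ℤ)
        (fun a => eval (fun i => (ω : σ → ℤ) (k i) - P (k i)) (p a)) (fun a => hΩ2 ω ω.2 a)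
      have h4 : eval (fun i => (ω : σ → ℤ) (k i) - P (k i)) (bind₁ p (f e)) =
          eval (fun a => eval (fun i => (ω : σ → ℤ) (k i) - P (k i)) (p a)) (f e) := by
        rw [eval, eval₂Hom_bind₁]
        rfl
      rw [h4]; exact h3
    have h5 := dvd_add h2 h1
    rwa [sub_add_sub_cancel] at h5
  have g3 : q ^ (∑ t : ι → Fin r, (r - ∑ i, (t i : ℕ))) < (B + 1) ^ (Fintype.card M) := by
    refine lt_of_le_of_lt (Nat.pow_le_pow_right (by omega) ?_) hcard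
    calc ∑ t : ι → Fin r, (r - ∑ i, (t i : ℕ)) ≤ ∑ _t : ι → Fin r, r :=
          Finset.sum_le_sum fun t _ => Nat.sub_le _ _
      _ = r ^ (Fintype.card ι + 1) := by
          rw [Finset.sum_const, Finset.card_univ, Fintype.card_fun, Fintype.card_fin, smul_eq_mul,
            pow_succ]
  obtain ⟨c, hc0, hc1, hc2⟩ := pigeon (Ω := Ω) (M := M) (T := ι → Fin r) q r B hq
    (fun t => ∑ i, (t i : ℕ)) (fun t ω => ∏ i, ((ω : σ → ℤ) (k i) - P (k i)) ^ (t i : ℕ)) g1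
    (fun e ω => eval (ω : σ → ℤ) (f e)) φ g2 g3
  exact ⟨c, hc0, hc1, fun t ht => hc2 ⟨t, ht⟩⟩

end Pool.Agent.Y902.FB
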