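import Mathlib
import Pool.Agent.Y902.FB.AuxP

/-!
# Parametrisations modulo `q ^ r` on the surface `x ^ l + y ^ m = z ^ n` and on curves on it
-/

set_option autoImplicit false

namespace Pool.Agent.Y902.FB

open Finset MvPolynomial

/-- the polynomial `x ^ l + y ^ m - z ^ n` -/
noncomputable def FP (e : Fin 3 → ℕ) : MvPolynomial (Fin 3) ℤ :=
  X 0 ^ e 0 + X 1 ^ e 1 - X 2 ^ e 2

/-- the weights -/
def wt (e : Fin 3 → ℕ) : Fin 3 → ℕ := ![e 1 * e 2, e 0 * e 2, e 0 * e 1]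

/-- the weighted Euler operator -/
noncomputable def EU (e : Fin 3 → ℕ) (G : MvPolynomial (Fin 3) ℤ) : MvPolynomial (Fin 3) ℤ :=
  ∑ i, C ((wt e i : ℕ) : ℤ) * (X i * pderiv i G)

theorem eval_FP (e : Fin 3 → ℕ) (t : Fin 3 → ℤ) :
    eval t (FP e) = t 0 ^ e 0 + t 1 ^ e 1 - t 2 ^ e 2 := by
  simp [FP]

theorem pderiv_X_pow' (i : Fin 3) (n : ℕ) :
    pderiv i (X i ^ n : MvPolynomial (Fin 3) ℤ) = C (n : ℤ) * X i ^ (n - 1) := by
  rw [pderiv_pow, pderiv_X_self, mul_one]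
  simp

theorem pderiv_X_pow_ne {i j : Fin 3} (h : i ≠ j) (n : ℕ) :
    pderiv i (X j ^ n : MvPolynomial (Fin 3) ℤ) = 0 := by
  rw [pderiv_pow, pderiv_X_of_ne (Ne.symm h), mul_zero]

theorem pd0 (e : Fin 3 → ℕ) (t : Fin 3 → ℤ) :
    eval t (pderiv 0 (FP e)) = e 0 * t 0 ^ (e 0 - 1) := by
  unfold FP
  rw [map_sub, map_add, pderiv_X_pow', pderiv_X_pow_ne (by decide), pderiv_X_pow_ne (by decide)]
  simp

theorem pd1 (e : Fin 3 → ℕ) (t : Fin 3 → ℤ) :
    eval t (pderiv 1 (FP e)) = e 1 * t 1 ^ (e 1 - 1) := by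
  unfold FP
  rw [map_sub, map_add, pderiv_X_pow', pderiv_X_pow_ne (by decide), pderiv_X_pow_ne (by decide)]
  simp

theorem pd2 (e : Fin 3 → ℕ) (t : Fin 3 → ℤ) :
    eval t (pderiv 2 (FP e)) = -(e 2 * t 2 ^ (e 2 - 1)) := by
  unfold FP
  rw [map_sub, map_add, pderiv_X_pow', pderiv_X_pow_ne (by decide), pderiv_X_pow_ne (by decide)]
  simp

theorem eval_EU (e : Fin 3 → ℕ) (G : MvPolynomial (Fin 3) ℤ) (t : Fin 3 → ℤ) :
    eval t (EU e G) = (e 1 * e 2) * (t 0 * eval t (pderiv 0 G)) +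
      (e 0 * e 2) * (t 1 * eval t (pderiv 1 G)) + (e 0 * e 1) * (t 2 * eval t (pderiv 2 G)) := by
  simp [EU, wt, Fin.sum_univ_three]

theorem exists_inv {q : ℕ} (hq : q.Prime) {a : ℤ} (ha : ¬ (q : ℤ) ∣ a) :
    ∃ ν : ℤ, (q : ℤ) ∣ ν * a - 1 := by
  have h1 : IsCoprime (q : ℤ) a := by
    rw [Prime.coprime_iff_not_dvd (Nat.prime_iff_prime_int.1 hq)]
    exact ha
  obtain ⟨u, v, h⟩ := h1
  exact ⟨v, ⟨-u, by linarith⟩⟩

/-- the surface near a point -/
theorem surf {q : ℕ} (hq : q.Prime) (e : Fin 3 → ℕ) (P : Fin 3 → ℤ)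
    (h2 : ¬ (q : ℤ) ∣ (e 2 : ℤ) * P 2 ^ (e 2 - 1)) (r : ℕ) :
    ∃ p : Fin 3 → MvPolynomial (Fin 2) ℤ, ∀ t : Fin 3 → ℤ, (∀ i, (q : ℤ) ∣ t i - P i) →
      eval t (FP e) = 0 →
      ∀ i, (q : ℤ) ^ r ∣ t i - eval (fun x => t (![0, 1] x) - P (![0, 1] x)) (p i) := by
  obtain ⟨ν, hν⟩ := exists_inv hq (a := eval P (pderiv 2 (FP e))) (by rw [pd2, dvd_neg]; exact h2)
  have g1 : ∀ a, a ∉ Set.range (![0, 1] : Fin 2 → Fin 3) → ∀ b,
      b ∉ Set.range (![0, 1] : Fin 2 → Fin 3) →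
      (q : ℤ) ∣ (∑ _s : Unit, (if a = 2 then ν else 0) * eval P (pderiv b (FP e))) -
        if a = b then 1 else 0 := by
    have hr : ∀ a : Fin 3, a ∉ Set.range (![0, 1] : Fin 2 → Fin 3) → a = 2 := by
      intro a ha
      fin_cases a
      · exact absurd ⟨0, rfl⟩ ha
      · exact absurd ⟨1, rfl⟩ ha
      · rfl
    intro a ha b hb
    rw [hr a ha, hr b hb]
    simpa using hν
  have g2 : ∀ a ∈ Set.range (![0, 1] : Fin 2 → Fin 3), ∀ _s : Unit,
      (if a = 2 then ν else 0) = 0 := by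
    rintro a ⟨x, rfl⟩ s
    fin_cases x <;> simp
  obtain ⟨p, -, hp⟩ := newton (S := Unit) (q : ℤ) (fun _ => FP e) (fun i _ => if i = 2 then ν else 0)
    (![0, 1] : Fin 2 → Fin 3) P r g1 g2
  exact ⟨p, fun t ht hF i => hp t ht (fun _ => by rw [hF]; exact dvd_zero _) i⟩

/-- the curve cut out by another polynomial, near a point where the intersection is transversal -/
theorem curve {q : ℕ} (hq : q.Prime) (e : Fin 3 → ℕ) (he : ∀ i, 1 ≤ e i)
    (H : MvPolynomial (Fin 3) ℤ) (P : Fin 3 → ℤ)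
    (hFP : eval P (FP e) = 0)
    (h2 : ¬ (q : ℤ) ∣ (e 2 : ℤ) * P 2 ^ (e 2 - 1)) (hE : ¬ (q : ℤ) ∣ eval P (EU e H)) :
    ∃ k : Fin 1 → Fin 3, ∀ r : ℕ, ∃ p : Fin 3 → MvPolynomial (Fin 1) ℤ,
      p (k 0) = C (P (k 0)) + X 0 ∧ ∀ t : Fin 3 → ℤ,
      (∀ i, (q : ℤ) ∣ t i - P i) → eval t (FP e) = 0 → eval t H = 0 →
      ∀ i, (q : ℤ) ^ r ∣ t i - eval (fun x => t (k x) - P (k x)) (p i) := by
  -- the minors
  have hqp : Prime (q : ℤ) := Nat.prime_iff_prime_int.1 hq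
  have hmin : ∃ a b : Fin 3, a ≠ b ∧ a ≠ 2 ∧ b ≠ 2 ∧ (∀ c : Fin 3, c ≠ b → c = a ∨ c = 2) ∧
      ¬ (q : ℤ) ∣ (eval P (pderiv a (FP e)) * eval P (pderiv 2 H) -
        eval P (pderiv 2 (FP e)) * eval P (pderiv a H)) := by
    by_contra hcon
    push Not at hcon
    have h0 := hcon 0 1 (by decide) (by decide) (by decide) (by decide)
    have h1 := hcon 1 0 (by decide) (by decide) (by decide) (by decide)
    have hid : eval P (pderiv 2 (FP e)) * eval P (EU e H) =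
        -((e 1 * e 2 : ℤ) * P 0 * (eval P (pderiv 0 (FP e)) * eval P (pderiv 2 H) -
        eval P (pderiv 2 (FP e)) * eval P (pderiv 0 H))) -
        (e 0 * e 2 : ℤ) * P 1 * (eval P (pderiv 1 (FP e)) * eval P (pderiv 2 H) -
        eval P (pderiv 2 (FP e)) * eval P (pderiv 1 H)) := by
      rw [eval_EU, pd0, pd1, pd2]
      have g : ∀ i, P i ^ (e i) = P i * P i ^ (e i - 1) := by
        intro i
        rw [← pow_succ']
        congr 1
        have := he i
        omega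
      rw [eval_FP, g 0, g 1, g 2] at hFP
      linear_combination (e 0 * e 1 * e 2 : ℤ) * eval P (pderiv 2 H) * hFP
    have h3 : (q : ℤ) ∣ eval P (pderiv 2 (FP e)) * eval P (EU e H) := by
      rw [hid]
      exact dvd_sub ((dvd_neg).2 (Dvd.dvd.mul_left h0 _)) (Dvd.dvd.mul_left h1 _)
    rcases hqp.dvd_or_dvd h3 with h | h
    · rw [pd2, dvd_neg] at h; exact h2 h
    · exact hE h
  obtain ⟨a, b, hab, ha2, hb2, hc, hΔ⟩ := hmin
  obtain ⟨ν, hν⟩ := exists_inv hq hΔ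
  set m : Fin 3 → Bool → ℤ := fun i s =>
    if i = a then (if s then ν * eval P (pderiv 2 H) else -(ν * eval P (pderiv 2 (FP e))))
      else if i = 2 then (if s then -(ν * eval P (pderiv a H)) else ν * eval P (pderiv a (FP e)))
      else 0 with hm
  have g1 : ∀ c, c ∉ Set.range (fun _ : Fin 1 => b) → ∀ d, d ∉ Set.range (fun _ : Fin 1 => b) →
      (q : ℤ) ∣ (∑ s, m c s * eval P (pderiv d (if s then FP e else H))) -
        if c = d then 1 else 0 := by
    have hr : ∀ c : Fin 3, c ∉ Set.range (fun _ : Fin 1 => b) → c = a ∨ c = 2 := by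
      intro c hcr
      exact hc c (fun h => hcr ⟨0, h.symm⟩)
    intro c hcr d hdr
    have h2a : (2 : Fin 3) ≠ a := Ne.symm ha2
    rcases hr c hcr with hca | hca <;> rcases hr d hdr with hda | hda
    · rw [hca, hda, if_pos rfl]
      have e1 : ∑ s, m a s * eval P (pderiv a (if s then FP e else H)) - 1 =
          ν * (eval P (pderiv a (FP e)) * eval P (pderiv 2 H) -
            eval P (pderiv 2 (FP e)) * eval P (pderiv a H)) - 1 := by
        simp only [hm, if_true, Fintype.sum_bool, Bool.false_eq_true, if_false]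
        ring
      rw [e1]; exact hν
    · rw [hca, hda, if_neg ha2]
      have e1 : ∑ s, m a s * eval P (pderiv 2 (if s then FP e else H)) - 0 = 0 := by
        simp only [hm, if_true, Fintype.sum_bool, Bool.false_eq_true, if_false]
        ring
      rw [e1]; exact dvd_zero _
    · rw [hca, hda, if_neg h2a]
      have e1 : ∑ s, m 2 s * eval P (pderiv a (if s then FP e else H)) - 0 = 0 := by
        simp only [hm, if_true, Fintype.sum_bool, Bool.false_eq_true, if_false, if_neg h2a]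
        ring
      rw [e1]; exact dvd_zero _
    · rw [hca, hda, if_pos rfl]
      have e1 : ∑ s, m 2 s * eval P (pderiv 2 (if s then FP e else H)) - 1 =
          ν * (eval P (pderiv a (FP e)) * eval P (pderiv 2 H) -
            eval P (pderiv 2 (FP e)) * eval P (pderiv a H)) - 1 := by
        simp only [hm, if_true, Fintype.sum_bool, Bool.false_eq_true, if_false, if_neg h2a]
        ring
      rw [e1]; exact hν
  have g2 : ∀ c ∈ Set.range (fun _ : Fin 1 => b), ∀ s : Bool, m c s = 0 := by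
    rintro c ⟨x, rfl⟩ s
    simp [hm, hab.symm, hb2]
  refine ⟨fun _ => b, fun r => ?_⟩
  obtain ⟨p, hpk, hp⟩ := newton (S := Bool) (q : ℤ) (fun s => if s then FP e else H) m
    (fun _ : Fin 1 => b) P r g1 g2
  refine ⟨p, ?_, fun t ht hF hH i => hp t ht (fun s => ?_) i⟩
  · obtain ⟨x, hx1, hx2⟩ := hpk b ⟨0, rfl⟩
    rw [Subsingleton.elim x 0] at hx2
    exact hx2
  cases s
  · simp [hH]
  · simp [hF]

end Pool.Agent.Y902.FB
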