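import Mathlib
import Pool.Agent.Y902.FB.Param

/-!
# Auxiliary polynomials on the surface and on curves
-/

set_option autoImplicit false

namespace Pool.Agent.Y902.FB

open Finset MvPolynomial

theorem card_ineq {q ρ k s : ℕ} (hq : 2 ≤ q) (hs : 0 < s) (h : (2 * ρ) ^ k ≤ ρ * s) :
    q ^ ((2 * ρ) ^ k) < (q ^ ρ + 1) ^ s := by
  calc q ^ ((2 * ρ) ^ k) ≤ q ^ (ρ * s) := Nat.pow_le_pow_right (by omega) h
    _ = (q ^ ρ) ^ s := by rw [pow_mul]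
    _ < _ := Nat.pow_lt_pow_left (Nat.lt_succ_self _) hs.ne'

/-- auxiliary polynomials vanish when the values are small -/
theorem aux_vanish {ι M : Type*} [Fintype ι] [DecidableEq ι] [Fintype M] [Nonempty M]
    (q ρ V : ℕ) (hq : 2 ≤ q) (P : Fin 3 → ℤ) (k : ι → Fin 3) (p : Fin 3 → MvPolynomial ι ℤ)
    (Ω : Set (Fin 3 → ℤ))
    (hΩ1 : ∀ t ∈ Ω, ∀ i, (q : ℤ) ∣ t i - P i)
    (hΩ2 : ∀ t ∈ Ω, ∀ i, (q : ℤ) ^ (2 * ρ) ∣ t i - eval (fun x => t (k x) - P (k x)) (p i))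
    (f : M → MvPolynomial (Fin 3) ℤ)
    (hcard : (2 * ρ) ^ (Fintype.card ι + 1) ≤ ρ * Fintype.card M)
    (hV : ∀ t ∈ Ω, ∀ e, |eval t (f e)| ≤ V) (hbig : Fintype.card M * V < q ^ ρ) :
    ∃ c : M → ℤ, c ≠ 0 ∧ (∀ e, |c e| ≤ ((q ^ ρ : ℕ) : ℤ)) ∧ ∀ t ∈ Ω, ∑ e, c e * eval t (f e) = 0 := by
  obtain ⟨c, hc0, hc1, hc2⟩ := aux q (2 * ρ) (q ^ ρ) hq P k p Ω hΩ1 hΩ2 f
    (card_ineq hq Fintype.card_pos hcard)
  refine ⟨c, hc0, hc1, fun t ht => ?_⟩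
  refine Int.eq_zero_of_abs_lt_dvd (hc2 t ht) ?_
  have h1 : |∑ e, c e * eval t (f e)| ≤ ∑ _e : M, (((q ^ ρ : ℕ) : ℤ) * V) := by
    refine (Finset.abs_sum_le_sum_abs _ _).trans (Finset.sum_le_sum fun e _ => ?_)
    rw [abs_mul]
    exact mul_le_mul (hc1 e) (hV t ht e) (abs_nonneg _) (by positivity)
  refine lt_of_le_of_lt h1 ?_
  rw [Finset.sum_const, Finset.card_univ, nsmul_eq_mul]
  have h2 : Fintype.card M * (q ^ ρ * V) < q ^ (2 * ρ) := by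
    have e1 : Fintype.card M * (q ^ ρ * V) = (Fintype.card M * V) * q ^ ρ := by ring
    rw [e1, two_mul, pow_add]
    exact Nat.mul_lt_mul_of_pos_right hbig (Nat.pow_pos (by omega))
  exact_mod_cast h2

/-- monomials in a box -/
noncomputable def mono {D : ℕ} (a : Fin 3 → Fin (D + 1)) : MvPolynomial (Fin 3) ℤ :=
  ∏ i, X i ^ (a i : ℕ)

theorem eval_mono {D : ℕ} (a : Fin 3 → Fin (D + 1)) (t : Fin 3 → ℤ) :
    eval t (mono a) = ∏ i, t i ^ (a i : ℕ) := by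
  simp [mono]

/-- monomials in two of the variables -/
noncomputable def mono2 {D : ℕ} (i j : Fin 3) (a : Fin 2 → Fin (D + 1)) : MvPolynomial (Fin 3) ℤ :=
  X i ^ (a 0 : ℕ) * X j ^ (a 1 : ℕ)

theorem abs_pow_le_pow {x : ℤ} {Y : ℕ} (hx : |x| ≤ Y) (hY : 1 ≤ Y) {a D : ℕ} (ha : a ≤ D) :
    |x ^ a| ≤ ((Y ^ D : ℕ) : ℤ) := by
  rw [abs_pow]
  have h1 : |x| ^ a ≤ (Y : ℤ) ^ a := pow_le_pow_left₀ (abs_nonneg _) hx _
  have h2 : (Y : ℤ) ^ a ≤ (Y : ℤ) ^ D := pow_le_pow_right₀ (by exact_mod_cast hY) ha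
  push_cast
  exact h1.trans h2

theorem surf_aux {q ρ D Y : ℕ} (hq : q.Prime) (e : Fin 3 → ℕ) (P : Fin 3 → ℤ)
    (h2 : ¬ (q : ℤ) ∣ (e 2 : ℤ) * P 2 ^ (e 2 - 1)) (Ω : Set (Fin 3 → ℤ)) (hY : 1 ≤ Y)
    (hΩ : ∀ t ∈ Ω, (∀ i, (q : ℤ) ∣ t i - P i) ∧ eval t (FP e) = 0 ∧ ∀ i, |t i| ≤ (Y : ℤ))
    (hρ : 8 * ρ ^ 2 ≤ (D + 1) ^ 3) (hbig : (D + 1) ^ 3 * Y ^ (3 * D) < q ^ ρ) :
    ∃ c : (Fin 3 → Fin (D + 1)) → ℤ, c ≠ 0 ∧ (∀ a, |c a| ≤ ((q ^ ρ : ℕ) : ℤ)) ∧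
      ∀ t ∈ Ω, ∑ a, c a * ∏ i, t i ^ (a i : ℕ) = 0 := by
  obtain ⟨p, hp⟩ := surf hq e P h2 (2 * ρ)
  have hcardM : Fintype.card (Fin 3 → Fin (D + 1)) = (D + 1) ^ 3 := by
    rw [Fintype.card_fun, Fintype.card_fin, Fintype.card_fin]
  obtain ⟨c, hc0, hc1, hc2⟩ := aux_vanish (M := Fin 3 → Fin (D + 1)) q ρ (Y ^ (3 * D)) hq.two_le P
    (![0, 1] : Fin 2 → Fin 3) p Ω (fun t ht => (hΩ t ht).1)
    (fun t ht => hp t (hΩ t ht).1 (hΩ t ht).2.1) (fun a => mono a)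
    (by
      rw [hcardM, Fintype.card_fin]
      calc (2 * ρ) ^ (2 + 1) = ρ * (8 * ρ ^ 2) := by ring
        _ ≤ _ := Nat.mul_le_mul_left _ hρ)
    (fun t ht a => by
      rw [eval_mono, Finset.abs_prod]
      calc ∏ i, |t i ^ (a i : ℕ)| ≤ ∏ _i : Fin 3, ((Y ^ D : ℕ) : ℤ) :=
            Finset.prod_le_prod (fun i _ => abs_nonneg _)
              fun i _ => abs_pow_le_pow ((hΩ t ht).2.2 i) hY (by have := (a i).2; omega)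
        _ = ((Y ^ (3 * D) : ℕ) : ℤ) := by
            rw [Finset.prod_const, Finset.card_univ, Fintype.card_fin]
            push_cast
            ring)
    (by rw [hcardM]; exact hbig)
  refine ⟨c, hc0, hc1, fun t ht => ?_⟩
  have := hc2 t ht
  simpa only [eval_mono] using this

/-- relations between the coordinates on a curve: `RelOn Ω i j D B` -/
def RelOn (Ω : Set (Fin 3 → ℤ)) (i j : Fin 3) (D : ℕ) (B : ℤ) : Prop :=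
  ∃ c : (Fin 2 → Fin (D + 1)) → ℤ, c ≠ 0 ∧ (∀ a, |c a| ≤ B) ∧
    ∀ t ∈ Ω, ∑ a, c a * (t i ^ (a 0 : ℕ) * t j ^ (a 1 : ℕ)) = 0

theorem curve_aux {q ρ D Y : ℕ} (hq : q.Prime) (e : Fin 3 → ℕ) (he : ∀ i, 1 ≤ e i)
    (H : MvPolynomial (Fin 3) ℤ) (P : Fin 3 → ℤ) (hFP : eval P (FP e) = 0)
    (h2 : ¬ (q : ℤ) ∣ (e 2 : ℤ) * P 2 ^ (e 2 - 1)) (hE : ¬ (q : ℤ) ∣ eval P (EU e H))
    (Ω : Set (Fin 3 → ℤ)) (hY : 1 ≤ Y)
    (hΩ : ∀ t ∈ Ω, (∀ i, (q : ℤ) ∣ t i - P i) ∧ eval t (FP e) = 0 ∧ eval t H = 0 ∧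
      ∀ i, |t i| ≤ (Y : ℤ))
    (hρ : 4 * ρ ≤ (D + 1) ^ 2) (hbig : (D + 1) ^ 2 * Y ^ (2 * D) < q ^ ρ) (i j : Fin 3) :
    RelOn Ω i j D ((q ^ ρ : ℕ) : ℤ) := by
  obtain ⟨k, hk⟩ := curve hq e he H P hFP h2 hE
  obtain ⟨p, -, hp⟩ := hk (2 * ρ)
  have hcardM : Fintype.card (Fin 2 → Fin (D + 1)) = (D + 1) ^ 2 := by
    rw [Fintype.card_fun, Fintype.card_fin, Fintype.card_fin]
  obtain ⟨c, hc0, hc1, hc2⟩ := aux_vanish (M := Fin 2 → Fin (D + 1)) q ρ (Y ^ (2 * D)) hq.two_le P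
    k p Ω (fun t ht => (hΩ t ht).1)
    (fun t ht => hp t (hΩ t ht).1 (hΩ t ht).2.1 (hΩ t ht).2.2.1) (fun a => mono2 i j a)
    (by
      rw [hcardM, Fintype.card_fin]
      calc (2 * ρ) ^ (1 + 1) = ρ * (4 * ρ) := by ring
        _ ≤ _ := Nat.mul_le_mul_left _ hρ)
    (fun t ht a => by
      simp only [mono2, map_mul, map_pow, eval_X]
      rw [abs_mul]
      calc |t i ^ (a 0 : ℕ)| * |t j ^ (a 1 : ℕ)| ≤ ((Y ^ D : ℕ) : ℤ) * ((Y ^ D : ℕ) : ℤ) :=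
            mul_le_mul (abs_pow_le_pow ((hΩ t ht).2.2.2 i) hY (by have := (a 0).2; omega))
              (abs_pow_le_pow ((hΩ t ht).2.2.2 j) hY (by have := (a 1).2; omega))
              (abs_nonneg _) (by positivity)
        _ = ((Y ^ (2 * D) : ℕ) : ℤ) := by
            push_cast
            ring)
    (by rw [hcardM]; exact hbig)
  refine ⟨c, hc0, hc1, fun t ht => ?_⟩
  have := hc2 t ht
  simpa only [mono2, map_mul, map_pow, eval_X] using this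

end Pool.Agent.Y902.FB
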