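import Mathlib
import Pool.Agent.Y902.FB.AuxS

/-!
# Homogeneous components for the weights, special points
-/

set_option autoImplicit false

namespace Pool.Agent.Y902.FB

open Finset MvPolynomial

/-- the Vandermonde argument -/
theorem vander {A : Type*} [Fintype A] (w : A → ℕ) (v : A → ℤ)
    (h : ∀ i, i < (Finset.univ.image w).card → ∑ a, v a * (w a : ℤ) ^ i = 0) (ω : ℕ) :
    ∑ a with w a = ω, v a = 0 := by
  classical
  set S := Finset.univ.image w with hS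
  by_cases hω : ω ∈ S
  swap
  · rw [Finset.sum_eq_zero]
    intro a ha
    exfalso
    apply hω
    rw [hS, Finset.mem_image]
    exact ⟨a, Finset.mem_univ _, (Finset.mem_filter.1 ha).2⟩
  have hpoly : ∀ p : Polynomial ℤ, p.natDegree < S.card → ∑ a, v a * p.eval (w a : ℤ) = 0 := by
    intro p hp
    simp_rw [Polynomial.eval_eq_sum_range, Finset.mul_sum]
    rw [Finset.sum_comm]
    refine Finset.sum_eq_zero fun i hi => ?_
    have h1 := h i (by rw [Finset.mem_range] at hi; omega)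
    have h2 : ∑ a, v a * (p.coeff i * (w a : ℤ) ^ i) = p.coeff i * ∑ a, v a * (w a : ℤ) ^ i := by
      rw [Finset.mul_sum]
      exact Finset.sum_congr rfl fun a _ => by ring
    rw [h2, h1, mul_zero]
  set p : Polynomial ℤ := ∏ ω' ∈ S.erase ω, (Polynomial.X - Polynomial.C (ω' : ℤ)) with hp
  have hdeg : p.natDegree < S.card := by
    rw [hp, Polynomial.natDegree_prod_of_monic _ _ fun i _ => Polynomial.monic_X_sub_C _]
    simp only [Polynomial.natDegree_X_sub_C, Finset.sum_const, smul_eq_mul, mul_one]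
    exact Finset.card_erase_lt_of_mem hω
  have h1 := hpoly p hdeg
  have heval : ∀ x : ℕ, p.eval (x : ℤ) = ∏ ω' ∈ S.erase ω, ((x : ℤ) - ω') := by
    intro x
    rw [hp, Polynomial.eval_prod]
    simp
  have h2 : ∑ a, v a * p.eval (w a : ℤ) = (∑ a with w a = ω, v a) * p.eval (ω : ℤ) := by
    rw [Finset.sum_mul, Finset.sum_filter]
    refine Finset.sum_congr rfl fun a _ => ?_
    by_cases ha : w a = ω
    · rw [if_pos ha, ha]
    · rw [if_neg ha, heval]
      have : ∏ ω' ∈ S.erase ω, ((w a : ℤ) - ω') = 0 := by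
        apply Finset.prod_eq_zero (i := w a)
        · rw [Finset.mem_erase]
          exact ⟨ha, by rw [hS, Finset.mem_image]; exact ⟨a, Finset.mem_univ _, rfl⟩⟩
        · ring
      rw [this, mul_zero]
  rw [h2] at h1
  rcases mul_eq_zero.1 h1 with h3 | h3
  · exact h3
  · exfalso
    rw [heval, Finset.prod_eq_zero_iff] at h3
    obtain ⟨ω', hω', h4⟩ := h3
    rw [Finset.mem_erase] at hω'
    apply hω'.1
    have : (ω : ℤ) = ω' := by linarith
    exact_mod_cast this.symm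

/-- the weight of a monomial -/
def wgt {D : ℕ} (e : Fin 3 → ℕ) (a : Fin 3 → Fin (D + 1)) : ℕ := ∑ i, wt e i * (a i : ℕ)

/-- the polynomial obtained by applying the Euler operator `i` times -/
noncomputable def HP {D : ℕ} (e : Fin 3 → ℕ) (c : (Fin 3 → Fin (D + 1)) → ℤ) (i : ℕ) :
    MvPolynomial (Fin 3) ℤ := ∑ a, C (c a * (wgt e a : ℤ) ^ i) * mono a

theorem eval_HP {D : ℕ} (e : Fin 3 → ℕ) (c : (Fin 3 → Fin (D + 1)) → ℤ) (i : ℕ) (t : Fin 3 → ℤ) :
    eval t (HP e c i) = ∑ a, (c a * ∏ j, t j ^ (a j : ℕ)) * (wgt e a : ℤ) ^ i := by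
  unfold HP
  rw [map_sum]
  refine Finset.sum_congr rfl fun a _ => ?_
  rw [map_mul, eval_C, eval_mono]
  ring

theorem mul_pow_pred (x : ℤ) (n : ℕ) : x * ((n : ℤ) * x ^ (n - 1)) = n * x ^ n := by
  rcases Nat.eq_zero_or_pos n with h | h
  · subst h; simp
  · have : x ^ n = x * x ^ (n - 1) := by rw [← pow_succ']; congr 1; omega
    rw [this]; ring

theorem eval_EU_mono {D : ℕ} (e : Fin 3 → ℕ) (a : Fin 3 → Fin (D + 1)) (t : Fin 3 → ℤ) :
    eval t (EU e (mono a)) = (wgt e a : ℤ) * eval t (mono a) := by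
  rw [eval_EU]
  have h0 : mono a = X 0 ^ (a 0 : ℕ) * X 1 ^ (a 1 : ℕ) * X 2 ^ (a 2 : ℕ) := by
    simp [mono, Fin.prod_univ_three]
  have d0 : eval t (pderiv 0 (mono a)) = ((a 0 : ℕ) : ℤ) * t 0 ^ ((a 0 : ℕ) - 1) * t 1 ^ (a 1 : ℕ) *
      t 2 ^ (a 2 : ℕ) := by
    rw [h0, pderiv_mul, pderiv_mul, pderiv_X_pow', pderiv_X_pow_ne (by decide),
      pderiv_X_pow_ne (by decide)]
    simp
  have d1 : eval t (pderiv 1 (mono a)) = t 0 ^ (a 0 : ℕ) * (((a 1 : ℕ) : ℤ) * t 1 ^ ((a 1 : ℕ) - 1)) *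
      t 2 ^ (a 2 : ℕ) := by
    rw [h0, pderiv_mul, pderiv_mul, pderiv_X_pow', pderiv_X_pow_ne (by decide),
      pderiv_X_pow_ne (by decide)]
    simp
  have d2 : eval t (pderiv 2 (mono a)) = t 0 ^ (a 0 : ℕ) * t 1 ^ (a 1 : ℕ) *
      (((a 2 : ℕ) : ℤ) * t 2 ^ ((a 2 : ℕ) - 1)) := by
    rw [h0, pderiv_mul, pderiv_mul, pderiv_X_pow', pderiv_X_pow_ne (by decide),
      pderiv_X_pow_ne (by decide)]
    simp
  rw [d0, d1, d2, h0]
  simp only [map_mul, map_pow, eval_X, wgt, wt, Fin.sum_univ_three, Matrix.cons_val_zero,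
    Matrix.cons_val_one, Matrix.cons_val]
  push_cast
  have g0 := mul_pow_pred (t 0) (a 0)
  have g1 := mul_pow_pred (t 1) (a 1)
  have g2 := mul_pow_pred (t 2) (a 2)
  linear_combination (e 1 * e 2 : ℤ) * t 1 ^ (a 1 : ℕ) * t 2 ^ (a 2 : ℕ) * g0 +
    (e 0 * e 2 : ℤ) * t 0 ^ (a 0 : ℕ) * t 2 ^ (a 2 : ℕ) * g1 +
    (e 0 * e 1 : ℤ) * t 0 ^ (a 0 : ℕ) * t 1 ^ (a 1 : ℕ) * g2

theorem eval_EU_HP {D : ℕ} (e : Fin 3 → ℕ) (c : (Fin 3 → Fin (D + 1)) → ℤ) (i : ℕ)
    (t : Fin 3 → ℤ) : eval t (EU e (HP e c i)) = eval t (HP e c (i + 1)) := by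
  have hC : ∀ (j : Fin 3) (r : ℤ) (g : MvPolynomial (Fin 3) ℤ),
      eval t (pderiv j (C r * g)) = r * eval t (pderiv j g) := by
    intro j r g
    rw [pderiv_C_mul, map_mul, eval_C]
  have hlin : ∀ (s : Finset (Fin 3 → Fin (D + 1))) (r : (Fin 3 → Fin (D + 1)) → ℤ),
      eval t (EU e (∑ a ∈ s, C (r a) * mono a)) =
      ∑ a ∈ s, r a * eval t (EU e (mono a)) := by
    intro s r
    simp only [eval_EU, map_sum, hC, Finset.mul_sum, ← Finset.sum_add_distrib]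
    refine Finset.sum_congr rfl fun a _ => ?_
    ring
  rw [show HP e c i = ∑ a ∈ Finset.univ, C (c a * (wgt e a : ℤ) ^ i) * mono a from rfl, hlin,
    eval_HP]
  refine Finset.sum_congr rfl fun a _ => ?_
  rw [eval_EU_mono, eval_mono]
  ring

/-- transversal point or all homogeneous components vanish -/
theorem dich {D : ℕ} (e : Fin 3 → ℕ) (c : (Fin 3 → Fin (D + 1)) → ℤ) (t : Fin 3 → ℤ)
    (h0 : ∑ a, c a * ∏ j, t j ^ (a j : ℕ) = 0) :
    (∃ i, i < (D + 1) ^ 3 ∧ eval t (HP e c i) = 0 ∧ eval t (HP e c (i + 1)) ≠ 0) ∨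
    ∀ ω, ∑ a with wgt e a = ω, c a * ∏ j, t j ^ (a j : ℕ) = 0 := by
  classical
  by_cases hall : ∀ i, i < (Finset.univ.image (wgt (D := D) e)).card → eval t (HP e c i) = 0
  · right
    intro ω
    refine vander (wgt e) (fun a => c a * ∏ j, t j ^ (a j : ℕ)) (fun i hi => ?_) ω
    rw [← eval_HP]
    exact hall i hi
  · left
    push Not at hall
    -- the least bad index
    have hex : ∃ i, eval t (HP e c i) ≠ 0 := by
      obtain ⟨i, -, hi⟩ := hall
      exact ⟨i, hi⟩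
    have hmin := fun m => Nat.find_min hex (m := m)
    have hspec := Nat.find_spec hex
    obtain ⟨i, hi, hi2⟩ := hall
    have hle : Nat.find hex ≤ i := Nat.find_min' hex hi2
    have hpos : Nat.find hex ≠ 0 := by
      intro h
      rw [h] at hspec
      apply hspec
      rw [eval_HP]
      simpa using h0
    obtain ⟨m, hm⟩ := Nat.exists_eq_succ_of_ne_zero hpos
    refine ⟨m, ?_, ?_, ?_⟩
    · have h1 : (Finset.univ.image (wgt (D := D) e)).card ≤ (D + 1) ^ 3 := by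
        refine Finset.card_image_le.trans ?_
        rw [Finset.card_univ, Fintype.card_fun, Fintype.card_fin, Fintype.card_fin]
      omega
    · by_contra h
      exact hmin m (by omega) h
    · rw [hm] at hspec
      exact hspec

/-- Fermat type exponents: bounded multiples of the exponents are equal. -/
def FT (e : Fin 3 → ℕ) (N : ℕ) : Prop :=
  ∃ α : Fin 3 → ℕ, (∀ i, 1 ≤ α i ∧ α i ≤ N) ∧ α 0 * e 0 = α 1 * e 1 ∧ α 1 * e 1 = α 2 * e 2

/-- relation of two exponents -/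
def Rl (D x y : ℕ) : Prop := ∃ p q : ℕ, 1 ≤ p ∧ p ≤ D ∧ 1 ≤ q ∧ q ≤ D ∧ p * x = q * y

theorem Rl.symm {D x y : ℕ} (h : Rl D x y) : Rl D y x := by
  obtain ⟨p, q, h1, h2, h3, h4, h5⟩ := h
  exact ⟨q, p, h3, h4, h1, h2, h5.symm⟩

/-- two relations give exponents of Fermat type -/
theorem FT_of_Rl {D x y z : ℕ} (h : Rl D x z) (h' : Rl D y z) :
    ∃ α β γ : ℕ, (1 ≤ α ∧ α ≤ D ^ 2) ∧ (1 ≤ β ∧ β ≤ D ^ 2) ∧ (1 ≤ γ ∧ γ ≤ D ^ 2) ∧
      α * x = γ * z ∧ β * y = γ * z := by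
  obtain ⟨p, q, h1, h2, h3, h4, h5⟩ := h
  obtain ⟨p', q', h1', h2', h3', h4', h5'⟩ := h'
  refine ⟨p * q', q * p', q * q', ⟨Nat.mul_pos h1 h3', ?_⟩, ⟨Nat.mul_pos h3 h1', ?_⟩,
    ⟨Nat.mul_pos h3 h3', ?_⟩, ?_, ?_⟩
  · rw [sq]; exact Nat.mul_le_mul h2 h4'
  · rw [sq]; exact Nat.mul_le_mul h4 h2'
  · rw [sq]; exact Nat.mul_le_mul h4 h4'
  · calc p * q' * x = q' * (p * x) := by ring
      _ = _ := by rw [h5]; ring
  · calc q * p' * y = q * (p' * y) := by ring
      _ = _ := by rw [h5']; ring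

/-- equal weights and equal exponents of one variable give a relation -/
theorem rl_of {D E x y a b a' b' : ℕ} (hE : 1 ≤ E) (ha : a ≤ D) (hb : b ≤ D) (ha' : a' ≤ D)
    (hb' : b' ≤ D) (hx : 1 ≤ x) (hy : 1 ≤ y) (hne : ¬ (a = a' ∧ b = b'))
    (h : (E * y) * a + (E * x) * b = (E * y) * a' + (E * x) * b') : Rl D x y := by
  have h1 : y * a + x * b = y * a' + x * b' := by
    apply Nat.eq_of_mul_eq_mul_left (show 0 < E by omega)
    linarith
  rcases lt_trichotomy a a' with h2 | h2 | h2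
  · have h3 : b' < b := by
      by_contra hcon
      have h4 : b ≤ b' := by omega
      have h5 : y * a < y * a' := Nat.mul_lt_mul_of_pos_left h2 (by omega)
      have h6 : x * b ≤ x * b' := Nat.mul_le_mul_left _ h4
      omega
    refine ⟨b - b', a' - a, by omega, by omega, by omega, by omega, ?_⟩
    zify [h3.le, h2.le]
    have : (y : ℤ) * a + x * b = y * a' + x * b' := by exact_mod_cast h1
    linarith
  · subst h2
    exfalso
    apply hne
    refine ⟨rfl, ?_⟩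
    have h3 : x * b = x * b' := by omega
    exact Nat.eq_of_mul_eq_mul_left (by omega) h3
  · have h3 : b < b' := by
      by_contra hcon
      have h4 : b' ≤ b := by omega
      have h5 : y * a' < y * a := Nat.mul_lt_mul_of_pos_left h2 (by omega)
      have h6 : x * b' ≤ x * b := Nat.mul_le_mul_left _ h4
      omega
    refine ⟨b' - b, a - a', by omega, by omega, by omega, by omega, ?_⟩
    zify [h3.le, h2.le]
    have : (y : ℤ) * a + x * b = y * a' + x * b' := by exact_mod_cast h1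
    linarith

/-- if the exponents of the variable `i` are different in the support of a polynomial which
vanishes at `t` then `t i` divides a coefficient -/
theorem dvd_coeff {D : ℕ} (t : Fin 3 → ℤ) (hco : ∀ i j, i ≠ j → IsCoprime (t i) (t j))
    (ht : ∀ i, t i ≠ 0)
    (S : Finset (Fin 3 → Fin (D + 1))) (hS : S.Nonempty) (c : (Fin 3 → Fin (D + 1)) → ℤ)
    (h0 : ∑ a ∈ S, c a * ∏ j, t j ^ (a j : ℕ) = 0) (i : Fin 3)
    (hinj : ∀ a ∈ S, ∀ b ∈ S, a ≠ b → a i ≠ b i) : ∃ a ∈ S, t i ∣ c a := by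
  classical
  obtain ⟨a, ha, hmin⟩ := Finset.exists_min_image S (fun a => (a i : ℕ)) hS
  refine ⟨a, ha, ?_⟩
  have h1 : c a * ∏ j, t j ^ (a j : ℕ) = -∑ b ∈ S.erase a, c b * ∏ j, t j ^ (b j : ℕ) := by
    rw [← Finset.add_sum_erase S _ ha] at h0
    linarith
  have h2 : t i ^ ((a i : ℕ) + 1) ∣ c a * ∏ j, t j ^ (a j : ℕ) := by
    rw [h1]
    refine (dvd_neg).2 (Finset.dvd_sum fun b hb => Dvd.dvd.mul_left ?_ _)
    rw [Finset.mem_erase] at hb
    have h3 : (a i : ℕ) + 1 ≤ b i := by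
      have h4 := hmin b hb.2
      have h5 : (a i : ℕ) ≠ b i := fun h => hinj a ha b hb.2 (Ne.symm hb.1) (Fin.ext h)
      omega
    exact (pow_dvd_pow _ h3).trans (Finset.dvd_prod_of_mem (fun j => t j ^ (b j : ℕ)) (Finset.mem_univ i))
  have h3 : ∏ j, t j ^ (a j : ℕ) = t i ^ (a i : ℕ) * ∏ j ∈ Finset.univ.erase i, t j ^ (a j : ℕ) :=
    (Finset.mul_prod_erase Finset.univ _ (Finset.mem_univ i)).symm
  rw [h3, pow_succ, ← mul_assoc, mul_comm (c a), mul_assoc] at h2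
  have h4 := (mul_dvd_mul_iff_left (pow_ne_zero _ (ht i))).1 h2
  refine IsCoprime.dvd_of_dvd_mul_right ?_ h4
  refine IsCoprime.prod_right fun j hj => IsCoprime.pow_right (hco i j ?_)
  exact (Finset.ne_of_mem_erase hj).symm

/-- **special points** -/
theorem special {D : ℕ} (e : Fin 3 → ℕ) (he : ∀ i, 1 ≤ e i) (hFT : ¬ FT e (D ^ 2))
    (c : (Fin 3 → Fin (D + 1)) → ℤ) (hc : c ≠ 0) (t : Fin 3 → ℤ) (ht : ∀ i, t i ≠ 0)
    (hco : ∀ i j, i ≠ j → IsCoprime (t i) (t j))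
    (hall : ∀ ω, ∑ a with wgt e a = ω, c a * ∏ j, t j ^ (a j : ℕ) = 0) :
    ∃ i j : Fin 3, i ≠ j ∧ (∃ a, c a ≠ 0 ∧ t i ∣ c a) ∧ (∃ a, c a ≠ 0 ∧ t j ∣ c a) := by
  classical
  obtain ⟨a₀, ha₀⟩ : ∃ a, c a ≠ 0 := by
    by_contra h
    push Not at h
    exact hc (funext h)
  set S : Finset (Fin 3 → Fin (D + 1)) :=
    (Finset.univ.filter fun a => wgt e a = wgt e a₀).filter fun a => c a ≠ 0 with hS
  have hSne : S.Nonempty := ⟨a₀, by simp [hS, ha₀]⟩
  have hS0 : ∑ a ∈ S, c a * ∏ j, t j ^ (a j : ℕ) = 0 := by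
    rw [← hall (wgt e a₀), hS, Finset.sum_filter_of_ne]
    intro a _ h h'
    apply h
    rw [h', zero_mul]
  have key : ∀ i, (∀ a ∈ S, ∀ b ∈ S, a ≠ b → a i ≠ b i) → ∃ a, c a ≠ 0 ∧ t i ∣ c a := by
    intro i hi
    obtain ⟨a, ha, h⟩ := dvd_coeff t hco ht S hSne c hS0 i hi
    exact ⟨a, (Finset.mem_filter.1 ha).2, h⟩
  have hle : ∀ (a : Fin 3 → Fin (D + 1)) (i : Fin 3), (a i : ℕ) ≤ D := fun a i => by
    have := (a i).2; omega
  have hw : ∀ a ∈ S, wgt e a = wgt e a₀ := fun a ha =>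
    (Finset.mem_filter.1 (Finset.mem_filter.1 ha).1).2
  have hwe : ∀ a : Fin 3 → Fin (D + 1), wgt e a = (e 1 * e 2) * a 0 + (e 0 * e 2) * a 1 +
      (e 0 * e 1) * a 2 := by
    intro a
    simp [wgt, wt, Fin.sum_univ_three]
  -- failure of injectivity gives relations
  have r0 : ¬ (∀ a ∈ S, ∀ b ∈ S, a ≠ b → a 0 ≠ b 0) → Rl D (e 1) (e 2) := by
    intro h
    push Not at h
    obtain ⟨a, ha, b, hb, hab, h0⟩ := h
    have h1 := (hw a ha).trans (hw b hb).symm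
    rw [hwe, hwe, h0] at h1
    refine rl_of (E := e 0) (he 0) (hle a 1) (hle a 2) (hle b 1) (hle b 2) (he 1) (he 2) ?_ (by linarith)
    rintro ⟨h2, h3⟩
    apply hab
    funext i
    fin_cases i
    · exact h0
    · exact Fin.ext h2
    · exact Fin.ext h3
  have r1 : ¬ (∀ a ∈ S, ∀ b ∈ S, a ≠ b → a 1 ≠ b 1) → Rl D (e 0) (e 2) := by
    intro h
    push Not at h
    obtain ⟨a, ha, b, hb, hab, h0⟩ := h
    have h1 := (hw a ha).trans (hw b hb).symm
    rw [hwe, hwe, h0] at h1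
    refine rl_of (E := e 1) (he 1) (hle a 0) (hle a 2) (hle b 0) (hle b 2) (he 0) (he 2) ?_ (by linarith)
    rintro ⟨h2, h3⟩
    apply hab
    funext i
    fin_cases i
    · exact Fin.ext h2
    · exact h0
    · exact Fin.ext h3
  have r2 : ¬ (∀ a ∈ S, ∀ b ∈ S, a ≠ b → a 2 ≠ b 2) → Rl D (e 0) (e 1) := by
    intro h
    push Not at h
    obtain ⟨a, ha, b, hb, hab, h0⟩ := h
    have h1 := (hw a ha).trans (hw b hb).symm
    rw [hwe, hwe, h0] at h1
    refine rl_of (E := e 2) (he 2) (hle a 0) (hle a 1) (hle b 0) (hle b 1) (he 0) (he 1) ?_ (by linarith)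
    rintro ⟨h2, h3⟩
    apply hab
    funext i
    fin_cases i
    · exact Fin.ext h2
    · exact Fin.ext h3
    · exact h0
  by_cases i0 : ∀ a ∈ S, ∀ b ∈ S, a ≠ b → a 0 ≠ b 0
  · by_cases i1 : ∀ a ∈ S, ∀ b ∈ S, a ≠ b → a 1 ≠ b 1
    · exact ⟨0, 1, by decide, key 0 i0, key 1 i1⟩
    · by_cases i2 : ∀ a ∈ S, ∀ b ∈ S, a ≠ b → a 2 ≠ b 2
      · exact ⟨0, 2, by decide, key 0 i0, key 2 i2⟩
      · exfalso
        apply hFT
        obtain ⟨α, β, γ, h1, h2, h3, h4, h5⟩ := FT_of_Rl (r1 i1).symm (r2 i2).symm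
        refine ⟨![γ, β, α], ?_, ?_, ?_⟩
        · intro i; fin_cases i
          · exact h3
          · exact h2
          · exact h1
        · simp; omega
        · simp; omega
  · by_cases i1 : ∀ a ∈ S, ∀ b ∈ S, a ≠ b → a 1 ≠ b 1
    · by_cases i2 : ∀ a ∈ S, ∀ b ∈ S, a ≠ b → a 2 ≠ b 2
      · exact ⟨1, 2, by decide, key 1 i1, key 2 i2⟩
      · exfalso
        apply hFT
        obtain ⟨α, β, γ, h1, h2, h3, h4, h5⟩ := FT_of_Rl (r0 i0).symm (r2 i2)
        refine ⟨![β, γ, α], ?_, ?_, ?_⟩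
        · intro i; fin_cases i
          · exact h2
          · exact h3
          · exact h1
        · simp; omega
        · simp; omega
    · exfalso
      apply hFT
      obtain ⟨α, β, γ, h1, h2, h3, h4, h5⟩ := FT_of_Rl (r0 i0) (r1 i1)
      refine ⟨![β, α, γ], ?_, ?_, ?_⟩
      · intro i; fin_cases i
        · exact h2
        · exact h1
        · exact h3
      · simp; omega
      · simp; omega

end Pool.Agent.Y902.FB
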