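import Mathlib
import Pool.Agent.Y902.FB.Fer
import Pool.Agent.Y902.FB.Weights

/-!
# The count for exponents of Fermat type
-/

set_option autoImplicit false

namespace Pool.Agent.Y902.FB

open Finset MvPolynomial

theorem count_ft (k N : ℕ) (hN : 1 ≤ N) :
    ∀ X E Y : ℕ, 1 ≤ E → E ^ 2 < X → 1 ≤ Y → Y ≤ X ^ k →
    ∀ e : Fin 3 → ℕ, (∀ i, 1 ≤ e i) → (∀ i, e i ≤ E) → FT e N →
    ∀ i : Fin 3, N ^ 3 * (k * N ^ 3 + 2) ≤ e i →
    ∀ T : Finset (Fin 3 → ℤ), (∀ t ∈ T, eval t (FP e) = 0 ∧ (∀ i, 0 < t i) ∧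
      (∀ i, |t i| ≤ (Y : ℤ)) ∧ ∀ i j, i ≠ j → IsCoprime (t i) (t j)) → T.card ≤ X ^ 4 := by
  classical
  intro X E Y hE1 hEX hY hYX e he hE hFT i hi T hT
  obtain ⟨α, hα, hα1, hα2⟩ := hFT
  have hEX' : E < X := lt_of_le_of_lt (Nat.le_self_pow (by norm_num) E) hEX
  have hX1 : 1 < X := by omega
  set Λ : ℕ := Nat.lcm (Nat.lcm (α 0) (α 1)) (α 2) with hΛ
  have hdv : ∀ i, α i ∣ Λ := by
    intro i
    fin_cases i
    · exact (Nat.dvd_lcm_left _ _).trans (Nat.dvd_lcm_left _ _)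
    · exact (Nat.dvd_lcm_right _ _).trans (Nat.dvd_lcm_left _ _)
    · exact Nat.dvd_lcm_right _ _
  have hM : ∀ i, α i * e i = α 0 * e 0 := by
    intro i
    fin_cases i
    · rfl
    · exact hα1.symm
    · exact (hα1.trans hα2).symm
  have hΛM : Λ ∣ α 0 * e 0 := by
    refine Nat.lcm_dvd (Nat.lcm_dvd (Dvd.intro _ rfl) ?_) ?_
    · rw [← hM 1]; exact Dvd.intro _ rfl
    · rw [← hM 2]; exact Dvd.intro _ rfl
  have hΛle : Λ ≤ N ^ 3 := by
    have h1 : Λ ≤ α 0 * α 1 * α 2 := by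
      refine Nat.le_of_dvd (Nat.mul_pos (Nat.mul_pos (hα 0).1 (hα 1).1) (hα 2).1) ?_
      refine Nat.lcm_dvd (Nat.lcm_dvd ?_ ?_) (Dvd.intro_left _ rfl)
      · exact Dvd.dvd.mul_right (Dvd.intro _ rfl) _
      · exact Dvd.dvd.mul_right (Dvd.intro_left _ rfl) _
    calc Λ ≤ α 0 * α 1 * α 2 := h1
      _ ≤ N * N * N := Nat.mul_le_mul (Nat.mul_le_mul (hα 0).2 (hα 1).2) (hα 2).2
      _ = N ^ 3 := by ring
  have hΛ0 : 0 < Λ := Nat.pos_of_dvd_of_pos hΛM (Nat.mul_pos (hα 0).1 (he 0))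
  obtain ⟨t₀, ht₀⟩ := hΛM
  have hβ := fun i => hdv i
  choose β hβ using hβ
  have heβ : ∀ i, e i = t₀ * β i := by
    intro i
    apply Nat.eq_of_mul_eq_mul_left (hα i).1
    rw [hM i, ht₀]
    conv_lhs => rw [hβ i]
    ring
  have hβ0 : ∀ i, 0 < β i := by
    intro i
    rcases Nat.eq_zero_or_pos (β i) with h | h
    · have := heβ i
      rw [h, mul_zero] at this
      have h1 := he i
      omega
    · exact h
  have hβΛ : ∀ i, β i ≤ N ^ 3 := by
    intro i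
    refine le_trans ?_ hΛle
    conv_rhs => rw [hβ i]
    exact Nat.le_mul_of_pos_left _ (hα i).1
  have ht₀E : t₀ ≤ E := by
    have h1 := heβ 0
    have h2 := hE 0
    have h3 : t₀ ≤ t₀ * β 0 := Nat.le_mul_of_pos_right _ (hβ0 0)
    omega
  have ht₀big : k * N ^ 3 + 2 ≤ t₀ := by
    by_contra hcon
    push Not at hcon
    have h1 : e i ≤ t₀ * N ^ 3 := by rw [heβ i]; exact Nat.mul_le_mul_left _ (hβΛ i)
    have h2 : t₀ * N ^ 3 < (k * N ^ 3 + 2) * N ^ 3 :=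
      Nat.mul_lt_mul_of_pos_right hcon (Nat.pow_pos hN)
    have h3 : N ^ 3 * (k * N ^ 3 + 2) = (k * N ^ 3 + 2) * N ^ 3 := by ring
    omega
  -- the map
  set f : (Fin 3 → ℤ) → ℕ × ℕ × ℕ := fun t =>
    ((t 0).natAbs ^ β 0, (t 1).natAbs ^ β 1, (t 2).natAbs ^ β 2) with hf
  have hinj : Set.InjOn f (T : Set (Fin 3 → ℤ)) := by
    intro t ht t' ht' heq
    simp only [hf, Prod.mk.injEq] at heq
    have key : ∀ i, (t i).natAbs ^ β i = (t' i).natAbs ^ β i → t i = t' i := by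
      intro i h
      have h1 := (Nat.pow_left_injective (hβ0 i).ne') h
      have h2 := (hT t ht).2.1 i
      have h3 := (hT t' ht').2.1 i
      omega
    funext i
    fin_cases i
    · exact key 0 heq.1
    · exact key 1 heq.2.1
    · exact key 2 heq.2.2
  have hcount := fer_count (t := t₀) (W := X ^ (k * N ^ 3)) (w := X - 1) ?_ (T.image f) ?_
  · rw [Finset.card_image_of_injOn hinj] at hcount
    refine hcount.trans ?_
    have h1 : X - 1 + 1 = X := by omega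
    rw [h1]
    calc (t₀ * t₀ * X) ^ 2 ≤ (E * E * X) ^ 2 := by gcongr
      _ ≤ (X * X) ^ 2 := by
          refine Nat.pow_le_pow_left (Nat.mul_le_mul_right _ ?_) 2
          rw [← sq]; exact hEX.le
      _ = X ^ 4 := by ring
  · have h1 : X - 1 + 1 = X := by omega
    rw [h1]
    calc X ^ (k * N ^ 3) * t₀ < X ^ (k * N ^ 3) * X :=
          Nat.mul_lt_mul_of_pos_left (by omega) (Nat.pow_pos (by omega))
      _ = X ^ (k * N ^ 3 + 1) := by ring
      _ ≤ X ^ t₀ := Nat.pow_le_pow_right (by omega) (by omega)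
  · intro x hx
    obtain ⟨t, ht, rfl⟩ := Finset.mem_image.1 hx
    obtain ⟨h1, h2, h3, h4⟩ := hT t ht
    have hpos : ∀ i, 0 < (t i).natAbs := fun i => Int.natAbs_pos.2 (h2 i).ne'
    have hco : ∀ i j, i ≠ j → Nat.Coprime ((t i).natAbs ^ β i) ((t j).natAbs ^ β j) := by
      intro i j hij
      exact Nat.Coprime.pow _ _ (Int.isCoprime_iff_gcd_eq_one.1 (h4 i j hij))
    refine ⟨Nat.pow_pos (hpos 0), Nat.pow_pos (hpos 1), ?_, hco 0 2 (by decide),
      hco 1 2 (by decide), ?_⟩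
    · simp only [hf]
      have h5 : (t 2).natAbs ≤ Y := by
        have := h3 2
        rw [Int.abs_eq_natAbs] at this
        exact_mod_cast this
      calc (t 2).natAbs ^ β 2 ≤ Y ^ β 2 := Nat.pow_le_pow_left h5 _
        _ ≤ Y ^ (N ^ 3) := Nat.pow_le_pow_right hY (hβΛ 2)
        _ ≤ (X ^ k) ^ (N ^ 3) := Nat.pow_le_pow_left hYX _
        _ = X ^ (k * N ^ 3) := by rw [pow_mul]
    · simp only [hf]
      rw [← pow_mul, ← pow_mul, ← pow_mul, mul_comm (β 0), mul_comm (β 1), mul_comm (β 2),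
        ← heβ, ← heβ, ← heβ]
      rw [eval_FP] at h1
      have h5 : ∀ i, ((t i).natAbs : ℤ) = t i := fun i => Int.natAbs_of_nonneg (h2 i).le
      have h6 : (((t 0).natAbs ^ e 0 + (t 1).natAbs ^ e 1 : ℕ) : ℤ) = (((t 2).natAbs ^ e 2 : ℕ) : ℤ) := by
        push_cast
        rw [abs_of_pos (h2 0), abs_of_pos (h2 1), abs_of_pos (h2 2)]
        linarith
      exact_mod_cast h6

end Pool.Agent.Y902.FB
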