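import Mathlib
import Pool.Agent.Y902.FB.AuxS

/-!
# Tangent vectors at the integer points of a residue class on a curve
-/

set_option autoImplicit false

namespace Pool.Agent.Y902.FB

open Finset MvPolynomial

theorem dvd_cancel {q : ℕ} (hq : q.Prime) {a b : ℤ} (ha : a ≠ 0) {R w : ℕ} (hw : a.natAbs ≤ w)
    (h : (q : ℤ) ^ (R + w) ∣ a * b) : (q : ℤ) ^ R ∣ b := by
  have hqp : Prime (q : ℤ) := Nat.prime_iff_prime_int.1 hq
  have hfin : FiniteMultiplicity (q : ℤ) a :=
    FiniteMultiplicity.of_not_isUnit hqp.not_isUnit ha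
  obtain ⟨c, hc1, hc2⟩ := hfin.exists_eq_pow_mul_and_not_dvd
  set v := multiplicity (q : ℤ) a with hv
  have h1 : v ≤ w := by
    have h2 : (q : ℤ) ^ v ∣ a := ⟨c, hc1⟩
    have h3 : ((q : ℤ) ^ v).natAbs ∣ a.natAbs := Int.natAbs_dvd_natAbs.2 h2
    have h4 := Nat.le_of_dvd (Int.natAbs_pos.2 ha) h3
    rw [Int.natAbs_pow, Int.natAbs_natCast] at h4
    have h5 : v < q ^ v := Nat.lt_pow_self hq.one_lt
    omega
  have h6 : (q : ℤ) ^ v * (q : ℤ) ^ R ∣ (q : ℤ) ^ v * (c * b) := by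
    have h7 : (q : ℤ) ^ v * (c * b) = a * b := by
      conv_rhs => rw [hc1]
      ring
    rw [h7, ← pow_add]
    exact (pow_dvd_pow _ (by omega)).trans h
  have h8 := (mul_dvd_mul_iff_left (pow_ne_zero _ hqp.ne_zero)).1 h6
  exact hqp.pow_dvd_of_dvd_mul_left R hc2 h8

/-- interpolation modulo prime powers -/
theorem interp {q : ℕ} (hq : q.Prime) (U : Finset ℤ) :
    ∃ R₀ : ℕ, ∀ (s : ℕ) (φ : Polynomial ℤ), (∀ u ∈ U, (q : ℤ) ^ (R₀ + s) ∣ φ.eval u) →
      ∃ Q T : Polynomial ℤ, φ = Q * ∏ u ∈ U, (Polynomial.X - Polynomial.C u) +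
        Polynomial.C ((q : ℤ) ^ s) * T := by
  classical
  induction U using Finset.induction_on with
  | empty =>
    exact ⟨0, fun s φ _ => ⟨φ, 0, by simp⟩⟩
  | insert u₁ U hu ih =>
    obtain ⟨R₀, hR⟩ := ih
    refine ⟨R₀ + ∑ u ∈ U, (u - u₁).natAbs, fun s φ hφ => ?_⟩
    set w := ∑ u ∈ U, (u - u₁).natAbs with hw
    have hmod : (Polynomial.X - Polynomial.C u₁) * (φ /ₘ (Polynomial.X - Polynomial.C u₁)) =
        φ - Polynomial.C (φ.eval u₁) := by
      have h1 := Polynomial.modByMonic_add_div φ (Polynomial.X - Polynomial.C u₁)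
      rw [Polynomial.modByMonic_X_sub_C_eq_C_eval] at h1
      linear_combination h1
    set φ₁ := φ /ₘ (Polynomial.X - Polynomial.C u₁) with hφ₁
    have h1 : ∀ u ∈ U, (q : ℤ) ^ (R₀ + s) ∣ φ₁.eval u := by
      intro u hu'
      have h2 : (u - u₁) * φ₁.eval u = φ.eval u - φ.eval u₁ := by
        have := congrArg (Polynomial.eval u) hmod
        simpa using this
      have h3 : (q : ℤ) ^ (R₀ + s + w) ∣ (u - u₁) * φ₁.eval u := by
        rw [h2]
        have e : R₀ + s + w = R₀ + w + s := by ring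
        rw [e]
        exact dvd_sub (hφ u (Finset.mem_insert_of_mem hu')) (hφ u₁ (Finset.mem_insert_self _ _))
      refine dvd_cancel hq (a := u - u₁) ?_ ?_ h3
      · intro h
        have : u = u₁ := by linarith
        rw [this] at hu'
        exact hu hu'
      · exact Finset.single_le_sum (f := fun u => (u - u₁).natAbs) (fun _ _ => Nat.zero_le _) hu'
    obtain ⟨Q, T, hQT⟩ := hR s φ₁ h1
    have h4 : (q : ℤ) ^ s ∣ φ.eval u₁ :=
      (pow_dvd_pow _ (by omega)).trans (hφ u₁ (Finset.mem_insert_self _ _))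
    obtain ⟨κ, hκ⟩ := h4
    refine ⟨Q, (Polynomial.X - Polynomial.C u₁) * T + Polynomial.C κ, ?_⟩
    rw [Finset.prod_insert hu]
    have h5 : φ = (Polynomial.X - Polynomial.C u₁) * φ₁ + Polynomial.C (φ.eval u₁) := by
      rw [hmod]; ring
    have h6 : Polynomial.C (φ.eval u₁) = Polynomial.C ((q : ℤ) ^ s) * Polynomial.C κ := by
      rw [← Polynomial.C_mul, ← hκ]
    conv_lhs => rw [h5, h6, hQT]
    ring

/-- derivatives at common zeros in a residue class -/
theorem der_dvd {q : ℕ} (hq : q.Prime) (U : Finset ℤ) (hU : ∀ u ∈ U, (q : ℤ) ∣ u) :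
    ∃ R : ℕ, ∀ φ : Polynomial ℤ, (∀ u ∈ U, (q : ℤ) ^ R ∣ φ.eval u) →
      ∀ u ∈ U, (q : ℤ) ^ (U.card - 1) ∣ (Polynomial.derivative φ).eval u := by
  classical
  obtain ⟨R₀, hR⟩ := interp hq U
  refine ⟨R₀ + (U.card - 1), fun φ hφ u hu => ?_⟩
  obtain ⟨Q, T, hQT⟩ := hR (U.card - 1) φ hφ
  have h1 : (Polynomial.derivative φ).eval u =
      Q.eval u * ∏ u' ∈ U.erase u, (u - u') + (q : ℤ) ^ (U.card - 1) *
        (Polynomial.derivative T).eval u := by
    have h2 : ∏ u' ∈ U, (Polynomial.X - Polynomial.C u') =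
        (Polynomial.X - Polynomial.C u) * ∏ u' ∈ U.erase u, (Polynomial.X - Polynomial.C u') :=
      (Finset.mul_prod_erase U _ hu).symm
    rw [hQT, h2]
    simp only [Polynomial.derivative_add, Polynomial.derivative_mul, Polynomial.derivative_sub,
      Polynomial.derivative_X, Polynomial.derivative_C, Polynomial.eval_add, Polynomial.eval_mul,
      Polynomial.eval_sub, Polynomial.eval_X, Polynomial.eval_C, Polynomial.eval_prod,
      Polynomial.eval_one, Polynomial.eval_zero]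
    ring
  rw [h1]
  refine dvd_add (Dvd.dvd.mul_left ?_ _) (dvd_mul_right _ _)
  have h3 : ∏ _u' ∈ U.erase u, (q : ℤ) ∣ ∏ u' ∈ U.erase u, (u - u') :=
    Finset.prod_dvd_prod_of_dvd _ _ fun u' hu' =>
      dvd_sub (hU u hu) (hU u' (Finset.mem_of_mem_erase hu'))
  rwa [Finset.prod_const, Finset.card_erase_of_mem hu] at h3

/-- the chain rule -/
theorem chain (P : Fin 3 → Polynomial ℤ) (G : MvPolynomial (Fin 3) ℤ) :
    Polynomial.derivative (MvPolynomial.aeval P G) =
      ∑ i, MvPolynomial.aeval P (pderiv i G) * Polynomial.derivative (P i) := by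
  induction G using MvPolynomial.induction_on with
  | C a => simp
  | add f g hf hg =>
    simp only [map_add, hf, hg, add_mul, Finset.sum_add_distrib]
  | mul_X f i hf =>
    rw [map_mul, aeval_X, Polynomial.derivative_mul, hf]
    simp only [Derivation.leibniz, smul_eq_mul, map_add, map_mul, aeval_X, pderiv_X, add_mul,
      Finset.sum_add_distrib]
    rw [add_comm]
    congr 1
    · rw [Finset.sum_eq_single i]
      · simp
      · intro j _ hj
        have : (Pi.single j (1 : MvPolynomial (Fin 3) ℤ) : Fin 3 → MvPolynomial (Fin 3) ℤ) i = 0 :=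
          Pi.single_eq_of_ne (Ne.symm hj) _
        rw [this]; simp
      · simp
    · rw [Finset.sum_mul]
      exact Finset.sum_congr rfl fun j _ => by ring

/-- **Tangent vectors.** -/
theorem tangent {q : ℕ} (hq : q.Prime) (e : Fin 3 → ℕ) (he : ∀ i, 1 ≤ e i)
    (H : MvPolynomial (Fin 3) ℤ) (P : Fin 3 → ℤ)
    (hFP : eval P (FP e) = 0)
    (h2 : ¬ (q : ℤ) ∣ (e 2 : ℤ) * P 2 ^ (e 2 - 1)) (hE : ¬ (q : ℤ) ∣ eval P (EU e H))
    (T : Finset (Fin 3 → ℤ)) (hT : ∀ t ∈ T, (∀ i, (q : ℤ) ∣ t i - P i) ∧ eval t (FP e) = 0 ∧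
      eval t H = 0) (t : Fin 3 → ℤ) (ht : t ∈ T) :
    ∃ (v : Fin 3 → ℤ) (κ : Fin 3), v κ = 1 ∧ ∀ G : MvPolynomial (Fin 3) ℤ,
      (∀ t' ∈ T, eval t' G = 0) → (q : ℤ) ^ (T.card - 1) ∣ ∑ i, eval t (pderiv i G) * v i := by
  classical
  obtain ⟨k, hk⟩ := curve hq e he H P hFP h2 hE
  -- the parameters
  set f : (Fin 3 → ℤ) → ℤ := fun t => t (k 0) - P (k 0) with hf
  have hU : ∀ u ∈ T.image f, (q : ℤ) ∣ u := by
    intro u hu
    obtain ⟨t', ht', rfl⟩ := Finset.mem_image.1 hu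
    exact (hT t' ht').1 (k 0)
  obtain ⟨R, hR⟩ := der_dvd hq (T.image f) hU
  -- the points are determined by the parameter
  set M : ℕ := ∑ t ∈ T, ∑ i, (t i).natAbs with hM
  have hMt : ∀ t' ∈ T, ∀ i, (t' i).natAbs ≤ M := by
    intro t' ht' i
    calc (t' i).natAbs ≤ ∑ i, (t' i).natAbs :=
          Finset.single_le_sum (f := fun i => (t' i).natAbs) (fun _ _ => Nat.zero_le _)
            (Finset.mem_univ i)
      _ ≤ M := Finset.single_le_sum (f := fun t : Fin 3 → ℤ => ∑ i, (t i).natAbs)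
            (fun _ _ => Nat.zero_le _) ht'
  have hinj : Set.InjOn f (T : Set (Fin 3 → ℤ)) := by
    intro t₁ h₁ t₂ h₂ h12
    obtain ⟨p, -, hp⟩ := hk (2 * M)
    have g₁ := hp t₁ (hT t₁ h₁).1 (hT t₁ h₁).2.1 (hT t₁ h₁).2.2
    have g₂ := hp t₂ (hT t₂ h₂).1 (hT t₂ h₂).2.1 (hT t₂ h₂).2.2
    have hkk : (fun x => t₁ (k x) - P (k x)) = fun x => t₂ (k x) - P (k x) := by
      funext x
      rw [Subsingleton.elim x 0]
      exact h12
    funext i
    have g₃ := dvd_sub (g₁ i) (g₂ i)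
    rw [hkk] at g₃
    have e1 : t₁ i - eval (fun x => t₂ (k x) - P (k x)) (p i) -
        (t₂ i - eval (fun x => t₂ (k x) - P (k x)) (p i)) = t₁ i - t₂ i := by ring
    rw [e1] at g₃
    have g₄ : t₁ i - t₂ i = 0 := by
      refine Int.eq_zero_of_abs_lt_dvd g₃ ?_
      have a₁ := hMt t₁ h₁ i
      have a₂ := hMt t₂ h₂ i
      have a₃ : 2 * M < q ^ (2 * M) := Nat.lt_pow_self hq.one_lt
      have a₄ : |t₁ i - t₂ i| ≤ 2 * M := by
        have := abs_sub (t₁ i) (t₂ i)
        have b₁ : |t₁ i| ≤ M := by rw [Int.abs_eq_natAbs]; exact_mod_cast a₁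
        have b₂ : |t₂ i| ≤ M := by rw [Int.abs_eq_natAbs]; exact_mod_cast a₂
        linarith
      calc |t₁ i - t₂ i| ≤ 2 * M := a₄
        _ < (q : ℤ) ^ (2 * M) := by exact_mod_cast a₃
    linarith
  have hcard : (T.image f).card = T.card := Finset.card_image_of_injOn hinj
  obtain ⟨p, hpk, hp⟩ := hk (R + (T.card - 1))
  -- univariate polynomials
  set P₁ : Fin 3 → Polynomial ℤ := fun i => MvPolynomial.aeval (fun _ => Polynomial.X) (p i)
    with hP₁
  have hP₁e : ∀ i (u : ℤ), (P₁ i).eval u = eval (fun _ => u) (p i) := by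
    intro i u
    simp only [hP₁]
    induction p i using MvPolynomial.induction_on with
    | C a => simp
    | add f g hf hg => simp [hf, hg]
    | mul_X f i hf => simp [hf]
  have hcomp : ∀ (G : MvPolynomial (Fin 3) ℤ) (u : ℤ), (MvPolynomial.aeval P₁ G).eval u =
      eval (fun i => (P₁ i).eval u) G := by
    intro G u
    induction G using MvPolynomial.induction_on with
    | C a => simp
    | add f g hf hg => simp [hf, hg]
    | mul_X f i hf => simp [hf]
  have hclose : ∀ t' ∈ T, ∀ i, (q : ℤ) ^ (R + (T.card - 1)) ∣ (P₁ i).eval (f t') - t' i := by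
    intro t' ht' i
    have h3 := hp t' (hT t' ht').1 (hT t' ht').2.1 (hT t' ht').2.2 i
    rw [hP₁e]
    have e1 : (fun x : Fin 1 => t' (k x) - P (k x)) = fun _ => f t' := by
      funext x
      rw [Subsingleton.elim x 0]
    rw [e1] at h3
    rw [dvd_sub_comm]
    exact h3
  refine ⟨fun i => (Polynomial.derivative (P₁ i)).eval (f t), k 0, ?_, fun G hG => ?_⟩
  · simp only [hP₁, hpk, map_add, aeval_X]
    simp
  · have h3 : ∀ u ∈ T.image f, (q : ℤ) ^ R ∣ (MvPolynomial.aeval P₁ G).eval u := by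
      intro u hu
      obtain ⟨t', ht', rfl⟩ := Finset.mem_image.1 hu
      rw [hcomp]
      have h4 := eval_congr_dvd ((q : ℤ) ^ R) G (fun i => (P₁ i).eval (f t')) t'
        (fun i => (pow_dvd_pow _ (by omega)).trans (hclose t' ht' i))
      rwa [hG t' ht', sub_zero] at h4
    have h5 := hR _ h3 (f t) (Finset.mem_image_of_mem f ht)
    rw [hcard, chain, Polynomial.eval_finsetSum] at h5
    have h6 : (q : ℤ) ^ (T.card - 1) ∣
        ∑ i, (eval t (pderiv i G) - eval (fun i => (P₁ i).eval (f t)) (pderiv i G)) *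
          (Polynomial.derivative (P₁ i)).eval (f t) := by
      refine Finset.dvd_sum fun i _ => Dvd.dvd.mul_right ?_ _
      rw [dvd_sub_comm]
      exact eval_congr_dvd _ _ _ _ fun i => (pow_dvd_pow _ (by omega)).trans (hclose t ht i)
    have h7 := dvd_add h6 h5
    have e1 : ∑ i, (eval t (pderiv i G) - eval (fun i => (P₁ i).eval (f t)) (pderiv i G)) *
          (Polynomial.derivative (P₁ i)).eval (f t) +
        ∑ i, Polynomial.eval (f t) (MvPolynomial.aeval P₁ (pderiv i G) *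
          Polynomial.derivative (P₁ i)) =
        ∑ i, eval t (pderiv i G) * (Polynomial.derivative (P₁ i)).eval (f t) := by
      rw [← Finset.sum_add_distrib]
      refine Finset.sum_congr rfl fun i _ => ?_
      rw [Polynomial.eval_mul, hcomp]
      ring
    rw [e1] at h7
    exact h7

end Pool.Agent.Y902.FB
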