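import Mathlib
import Pool.Agent.Y902.FB.Weights
import Pool.Agent.Y902.FB.Tan

/-!
# Few integer points on curves of bounded degree on the surface `x ^ l + y ^ m = z ^ n`
-/

set_option autoImplicit false

namespace Pool.Agent.Y902.FB

open Finset MvPolynomial

theorem sum3 {i j k : Fin 3} (hij : i ≠ j) (hik : i ≠ k) (hjk : j ≠ k) (g : Fin 3 → ℤ) :
    ∑ x, g x = g i + g j + g k := by
  rw [Fin.sum_univ_three]
  fin_cases i <;> fin_cases j <;> fin_cases k <;> simp at hij hik hjk ⊢ <;> ring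

/-- the derivatives of `FP` up to the exponents -/
def fv (e : Fin 3 → ℕ) (t : Fin 3 → ℤ) : Fin 3 → ℤ :=
  ![t 0 ^ (e 0 - 1), t 1 ^ (e 1 - 1), -(t 2 ^ (e 2 - 1))]

theorem pd_fv (e : Fin 3 → ℕ) (t : Fin 3 → ℤ) (i : Fin 3) :
    eval t (pderiv i (FP e)) = e i * fv e t i := by
  fin_cases i
  · exact pd0 e t
  · exact pd1 e t
  · exact (pd2 e t).trans (by simp [fv])

theorem fv_sum (e : Fin 3 → ℕ) (he : ∀ i, 1 ≤ e i) (t : Fin 3 → ℤ) (h : eval t (FP e) = 0)
    {i j k : Fin 3} (hij : i ≠ j) (hik : i ≠ k) (hjk : j ≠ k) :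
    t i * fv e t i + t j * fv e t j + t k * fv e t k = 0 := by
  rw [← sum3 hij hik hjk (fun x => t x * fv e t x), Fin.sum_univ_three]
  have g : ∀ i, t i ^ (e i) = t i * t i ^ (e i - 1) := by
    intro i
    rw [← pow_succ']
    congr 1
    have := he i
    omega
  rw [eval_FP, g 0, g 1, g 2] at h
  simp only [fv, Matrix.cons_val_zero, Matrix.cons_val_one, Matrix.cons_val]
  linarith

theorem fv_abs (e : Fin 3 → ℕ) (t : Fin 3 → ℤ) (i : Fin 3) : |fv e t i| = |t i| ^ (e i - 1) := by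
  fin_cases i
  · exact abs_pow _ _
  · exact abs_pow _ _
  · simp [fv, abs_pow]

theorem fv_co (e : Fin 3 → ℕ) (t : Fin 3 → ℤ) {i j : Fin 3} (h : IsCoprime (t i) (t j)) :
    IsCoprime (fv e t i) (fv e t j) := by
  have h1 : ∀ i, ∃ ε : ℤ, IsUnit ε ∧ fv e t i = ε * t i ^ (e i - 1) := by
    intro i
    fin_cases i
    · exact ⟨1, isUnit_one, by simp [fv]⟩
    · exact ⟨1, isUnit_one, by simp [fv]⟩
    · exact ⟨-1, isUnit_one.neg, by simp [fv]⟩
  obtain ⟨ε, h2, h3⟩ := h1 i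
  obtain ⟨δ, h4, h5⟩ := h1 j
  rw [h3, h5]
  exact (isCoprime_mul_unit_left_left h2 _ _).2 ((isCoprime_mul_unit_left_right h4 _ _).2 h.pow)

theorem eval_EU_perm (e : Fin 3 → ℕ) (G : MvPolynomial (Fin 3) ℤ) (t : Fin 3 → ℤ)
    {i j k : Fin 3} (hij : i ≠ j) (hik : i ≠ k) (hjk : j ≠ k) :
    eval t (EU e G) = (e j * e k) * (t i * eval t (pderiv i G)) +
      (e i * e k) * (t j * eval t (pderiv j G)) + (e i * e j) * (t k * eval t (pderiv k G)) := by
  rw [eval_EU]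
  fin_cases i <;> fin_cases j <;> fin_cases k <;> simp at hij hik hjk ⊢ <;> ring

/-- the algebraic identity behind Lemma III -/
theorem alg_key {ei ej ek ti tj tk fi fj fk wi wj wk Hi Hj Hk : ℤ} (hei : ei ≠ 0)
    (htk : tk ≠ 0) (hwi : wi ≠ 0) (hfi : fi ≠ 0) (hco : IsCoprime fi fj)
    (h1 : ti * fi + tj * fj + tk * fk = 0) (h2 : ei * fi * wi + ej * fj * wj + ek * fk * wk = 0)
    (hsmall : |ej * wj * tk - ek * wk * tj| < |fi|) (hH : Hi * wi + Hj * wj + Hk * wk = 0) :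
    (ej * ek) * (ti * Hi) + (ei * ek) * (tj * Hj) + (ei * ej) * (tk * Hk) = 0 := by
  have h3 : fi * (ei * wi * tk - ek * wk * ti) + fj * (ej * wj * tk - ek * wk * tj) = 0 := by
    linear_combination tk * h2 - ek * wk * h1
  have h4 : fi ∣ fj * (ej * wj * tk - ek * wk * tj) :=
    ⟨-(ei * wi * tk - ek * wk * ti), by linear_combination h3⟩
  have h5 := hco.dvd_of_dvd_mul_left h4
  have h6 : ej * wj * tk - ek * wk * tj = 0 :=
    Int.eq_zero_of_abs_lt_dvd ((abs_dvd _ _).2 h5) hsmall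
  rw [h6, mul_zero, add_zero] at h3
  have h7 : ei * wi * tk - ek * wk * ti = 0 := (mul_eq_zero.1 h3).resolve_left hfi
  have h8 : ek * wk ≠ 0 := by
    intro h0
    rw [h0, zero_mul, sub_zero] at h7
    exact mul_ne_zero (mul_ne_zero hei hwi) htk h7
  apply (mul_eq_zero.1 _).resolve_left h8
  linear_combination (-(ej * ek * Hi)) * h7 - (ei * ek * Hj) * h6 + (ei * ej * ek * tk) * hH

/-- two-variable polynomials with the exponent of the second variable as a weight -/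
noncomputable def HQ {D : ℕ} (i j : Fin 3) (c : (Fin 2 → Fin (D + 1)) → ℤ) (s : ℕ) :
    MvPolynomial (Fin 3) ℤ := ∑ a, C (c a * ((a 1 : ℕ) : ℤ) ^ s) * mono2 i j a

theorem eval_HQ {D : ℕ} (i j : Fin 3) (c : (Fin 2 → Fin (D + 1)) → ℤ) (s : ℕ) (t : Fin 3 → ℤ) :
    eval t (HQ i j c s) = ∑ a, (c a * (t i ^ (a 0 : ℕ) * t j ^ (a 1 : ℕ))) *
      ((a 1 : ℕ) : ℤ) ^ s := by
  unfold HQ
  rw [map_sum]
  refine Finset.sum_congr rfl fun a _ => ?_
  simp only [mono2, map_mul, map_pow, eval_X, eval_C]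
  ring

theorem pd_HQ_i {D : ℕ} {i j : Fin 3} (hij : i ≠ j) (c : (Fin 2 → Fin (D + 1)) → ℤ) (s : ℕ)
    (t : Fin 3 → ℤ) : t i * eval t (pderiv i (HQ i j c s)) =
      ∑ a, (c a * (t i ^ (a 0 : ℕ) * t j ^ (a 1 : ℕ))) * (((a 1 : ℕ) : ℤ) ^ s * ((a 0 : ℕ) : ℤ)) := by
  unfold HQ
  rw [map_sum, map_sum, Finset.mul_sum]
  refine Finset.sum_congr rfl fun a _ => ?_
  rw [pderiv_C_mul, map_mul, eval_C, mono2, pderiv_mul, pderiv_X_pow', pderiv_X_pow_ne hij]
  simp only [map_mul, map_pow, eval_X, eval_C, mul_zero, add_zero]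
  have g := mul_pow_pred (t i) (a 0)
  linear_combination (c a * ((a 1 : ℕ) : ℤ) ^ s) * t j ^ (a 1 : ℕ) * g

theorem pd_HQ_j {D : ℕ} {i j : Fin 3} (hij : i ≠ j) (c : (Fin 2 → Fin (D + 1)) → ℤ) (s : ℕ)
    (t : Fin 3 → ℤ) : t j * eval t (pderiv j (HQ i j c s)) = eval t (HQ i j c (s + 1)) := by
  rw [eval_HQ]
  unfold HQ
  rw [map_sum, map_sum, Finset.mul_sum]
  refine Finset.sum_congr rfl fun a _ => ?_
  rw [pderiv_C_mul, map_mul, eval_C, mono2, pderiv_mul, pderiv_X_pow', pderiv_X_pow_ne hij.symm]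
  simp only [map_mul, map_pow, eval_X, eval_C, zero_mul, zero_add]
  have g := mul_pow_pred (t j) (a 1)
  linear_combination (c a * ((a 1 : ℕ) : ℤ) ^ s) * t i ^ (a 0 : ℕ) * g

theorem pd_HQ_k {D : ℕ} {i j k : Fin 3} (hik : i ≠ k) (hjk : j ≠ k)
    (c : (Fin 2 → Fin (D + 1)) → ℤ) (s : ℕ)
    (t : Fin 3 → ℤ) : eval t (pderiv k (HQ i j c s)) = 0 := by
  unfold HQ
  rw [map_sum, map_sum]
  refine Finset.sum_eq_zero fun a _ => ?_
  rw [pderiv_C_mul, map_mul, eval_C, mono2, pderiv_mul, pderiv_X_pow_ne hik.symm,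
    pderiv_X_pow_ne hjk.symm]
  simp

/-- bounds for sums -/
theorem sum_bound {M : Type*} [Fintype M] (f : M → ℤ) (V : ℕ) (h : ∀ a, |f a| ≤ V) :
    |∑ a, f a| ≤ ((Fintype.card M * V : ℕ) : ℤ) := by
  refine (Finset.abs_sum_le_sum_abs _ _).trans ((Finset.sum_le_sum fun a _ => h a).trans ?_)
  rw [Finset.sum_const, Finset.card_univ, nsmul_eq_mul]
  push_cast
  exact le_rfl

theorem abs_le_of_mul {t x : ℤ} (ht : t ≠ 0) : |x| ≤ |t * x| := by
  rw [abs_mul]
  have h : 1 ≤ |t| := Int.one_le_abs ht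
  nlinarith [abs_nonneg x]

/-- bound for the derivatives -/
theorem HQ_bd {D B Y : ℕ} (hY : 1 ≤ Y) {i j : Fin 3} (hij : i ≠ j)
    (c : (Fin 2 → Fin (D + 1)) → ℤ) (hc : ∀ a, |c a| ≤ (B : ℤ)) (s : ℕ) (hs : s ≤ D) (t : Fin 3 → ℤ)
    (ht : ∀ i, t i ≠ 0) (htY : ∀ i, |t i| ≤ (Y : ℤ)) (κ : Fin 3) :
    |eval t (pderiv κ (HQ i j c s))| ≤ (((D + 1) ^ 2 * (B * Y ^ (2 * D) * (D + 1) ^ (D + 1)) : ℕ) : ℤ) := by
  have hcard : Fintype.card (Fin 2 → Fin (D + 1)) = (D + 1) ^ 2 := by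
    rw [Fintype.card_fun, Fintype.card_fin, Fintype.card_fin]
  have hterm : ∀ (a : Fin 2 → Fin (D + 1)) (x : ℤ), |x| ≤ (((D + 1) ^ (D + 1) : ℕ) : ℤ) →
      |(c a * (t i ^ (a 0 : ℕ) * t j ^ (a 1 : ℕ))) * x| ≤
      ((B * Y ^ (2 * D) * (D + 1) ^ (D + 1) : ℕ) : ℤ) := by
    intro a x hx
    rw [abs_mul, abs_mul, abs_mul]
    have h1 := abs_pow_le_pow (htY i) hY (show (a 0 : ℕ) ≤ D by have := (a 0).2; omega)
    have h2 := abs_pow_le_pow (htY j) hY (show (a 1 : ℕ) ≤ D by have := (a 1).2; omega)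
    calc |c a| * (|t i ^ (a 0 : ℕ)| * |t j ^ (a 1 : ℕ)|) * |x| ≤
        (B : ℤ) * (((Y ^ D : ℕ) : ℤ) * ((Y ^ D : ℕ) : ℤ)) * (((D + 1) ^ (D + 1) : ℕ) : ℤ) := by
          gcongr
          exact hc a
      _ = _ := by push_cast; ring
  have hpow : ∀ (a : Fin 2 → Fin (D + 1)) (x : ℕ) (y : ℕ), x ≤ D → y ≤ D →
      |((x : ℤ) ^ s * (y : ℤ))| ≤ (((D + 1) ^ (D + 1) : ℕ) : ℤ) := by
    intro a x y hx hy
    rw [abs_of_nonneg (by positivity)]
    have h1 : x ^ s * y ≤ (D + 1) ^ s * (D + 1) :=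
      Nat.mul_le_mul (Nat.pow_le_pow_left (by omega) _) (by omega)
    have h2 : (D + 1) ^ s * (D + 1) ≤ (D + 1) ^ (D + 1) := by
      rw [← pow_succ]
      exact Nat.pow_le_pow_right (by omega) (by omega)
    exact_mod_cast h1.trans h2
  by_cases hκi : κ = i
  · subst hκi
    refine (abs_le_of_mul (ht κ)).trans ?_
    rw [pd_HQ_i hij, ← hcard]
    exact sum_bound _ _ fun a => hterm a _ (hpow a _ _ (by have := (a 1).2; omega)
      (by have := (a 0).2; omega))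
  · by_cases hκj : κ = j
    · subst hκj
      refine (abs_le_of_mul (ht κ)).trans ?_
      rw [pd_HQ_j hij, eval_HQ, ← hcard]
      refine sum_bound _ _ fun a => hterm a _ ?_
      rw [pow_succ]
      exact hpow a _ _ (by have := (a 1).2; omega) (by have := (a 1).2; omega)
    · rw [pd_HQ_k (Ne.symm hκi) (Ne.symm hκj), abs_zero]
      positivity

/-- dichotomy for two variables -/
theorem dich2 {D : ℕ} (i j : Fin 3) (c : (Fin 2 → Fin (D + 1)) → ℤ) (hc : c ≠ 0) :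
    ∃ R : Finset ℤ, R.card ≤ D ∧ ∀ t : Fin 3 → ℤ, (∀ i, t i ≠ 0) →
      ∑ a, c a * (t i ^ (a 0 : ℕ) * t j ^ (a 1 : ℕ)) = 0 → t i ∉ R →
      ∃ s, s < D + 1 ∧ eval t (HQ i j c s) = 0 ∧ eval t (HQ i j c (s + 1)) ≠ 0 := by
  classical
  obtain ⟨a₀, ha₀⟩ : ∃ a, c a ≠ 0 := by
    by_contra h
    push Not at h
    exact hc (funext h)
  set p : Polynomial ℤ := ∑ b : Fin (D + 1), Polynomial.C (c ![b, a₀ 1]) * Polynomial.X ^ (b : ℕ)
    with hp
  have hcoef : ∀ b : Fin (D + 1), p.coeff (b : ℕ) = c ![b, a₀ 1] := by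
    intro b
    rw [hp, Polynomial.finsetSum_coeff]
    simp only [Polynomial.coeff_C_mul, Polynomial.coeff_X_pow]
    rw [Finset.sum_eq_single b]
    · simp
    · intro b' _ hb'
      rw [if_neg (fun h => hb' (Fin.ext h.symm)), mul_zero]
    · simp
  have hp0 : p ≠ 0 := by
    intro h
    have h1 := hcoef (a₀ 0)
    rw [h, Polynomial.coeff_zero] at h1
    apply ha₀
    have h2 : ![a₀ 0, a₀ 1] = a₀ := by
      funext x
      fin_cases x <;> rfl
    rw [← h2, ← h1]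
  have hdeg : p.natDegree ≤ D := by
    rw [hp]
    refine Polynomial.natDegree_sum_le_of_forall_le _ _ fun b _ => ?_
    refine (Polynomial.natDegree_C_mul_X_pow_le _ _).trans ?_
    have := b.2
    omega
  refine ⟨p.roots.toFinset, (Multiset.toFinset_card_le _).trans ((Polynomial.card_roots' p).trans hdeg),
    fun t ht h0 htR => ?_⟩
  by_contra hcon
  push Not at hcon
  -- all vanish
  have hall : ∀ s, s ≤ D + 1 → eval t (HQ i j c s) = 0 := by
    intro s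
    induction s with
    | zero =>
      intro _
      rw [eval_HQ]
      simpa using h0
    | succ s ih =>
      intro hs
      exact hcon s (by omega) (ih (by omega))
  have hv := vander (fun a : Fin 2 → Fin (D + 1) => (a 1 : ℕ))
    (fun a => c a * (t i ^ (a 0 : ℕ) * t j ^ (a 1 : ℕ))) (fun s hs => by
      rw [← eval_HQ]
      apply hall
      have h1 : (Finset.univ.image fun a : Fin 2 → Fin (D + 1) => (a 1 : ℕ)).card ≤ D + 1 := by
        have h2 : (Finset.univ.image fun a : Fin 2 → Fin (D + 1) => (a 1 : ℕ)) ⊆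
            Finset.range (D + 1) := by
          intro x hx
          obtain ⟨a, -, rfl⟩ := Finset.mem_image.1 hx
          exact Finset.mem_range.2 (a 1).2
        exact (Finset.card_le_card h2).trans (by rw [Finset.card_range])
      omega) (a₀ 1)
  apply htR
  rw [Multiset.mem_toFinset, Polynomial.mem_roots hp0, Polynomial.IsRoot.def]
  have h3 : ∑ a : Fin 2 → Fin (D + 1) with (a 1 : ℕ) = (a₀ 1 : ℕ),
      c a * (t i ^ (a 0 : ℕ) * t j ^ (a 1 : ℕ)) = p.eval (t i) * t j ^ (a₀ 1 : ℕ) := by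
    rw [hp, Polynomial.eval_finsetSum, Finset.sum_mul]
    symm
    refine Finset.sum_bij (fun (b : Fin (D + 1)) _ => (![b, a₀ 1] : Fin 2 → Fin (D + 1))) ?_ ?_ ?_ ?_
    · intro b _
      simp
    · intro b _ b' _ h
      have := congrFun h 0
      simpa using this
    · intro a ha
      refine ⟨a 0, Finset.mem_univ _, ?_⟩
      have h4 : a 1 = a₀ 1 := Fin.ext (Finset.mem_filter.1 ha).2
      funext x
      fin_cases x
      · rfl
      · exact h4.symm
    · intro b _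
      simp only [Polynomial.eval_mul, Polynomial.eval_C, Polynomial.eval_pow, Polynomial.eval_X,
        Matrix.cons_val_zero, Matrix.cons_val_one]
      ring
  rw [h3] at hv
  exact (mul_eq_zero.1 hv).resolve_right (pow_ne_zero _ (ht j))

end Pool.Agent.Y902.FB
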