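import Mathlib
import Pool.Agent.Y902.FB.Key

/-!
# The count on a curve
-/

set_option autoImplicit false

namespace Pool.Agent.Y902.FB

open Finset MvPolynomial

/-- the mixed determinant vanishes modulo a high power -/
theorem mixed_dvd {N v1 v2 v3 Gi Gj Gk hi hj gi gk : ℤ} (hG : N ∣ Gi * v1 + Gj * v2 + Gk * v3)
    (hh : N ∣ hi * v1 + hj * v2) (hg : N ∣ gi * v1 + gk * v3) (hv : v1 = 1 ∨ v2 = 1 ∨ v3 = 1) :
    N ∣ Gi * (hj * gk) + Gj * (-(hi * gk)) + Gk * (-(hj * gi)) := by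
  rcases hv with h | h | h
  · subst h
    obtain ⟨x, hx⟩ := hG
    obtain ⟨y, hy⟩ := hh
    obtain ⟨z, hz⟩ := hg
    exact ⟨hj * gk * x - Gj * gk * y - Gk * hj * z, by
      linear_combination (hj * gk) * hx - (Gj * gk) * hy - (Gk * hj) * hz⟩
  · subst h
    obtain ⟨x, hx⟩ := hG
    obtain ⟨y, hy⟩ := hh
    obtain ⟨z, hz⟩ := hg
    exact ⟨-(hi * gk * x) + Gi * gk * y - Gk * gi * y + Gk * hi * z, by
      linear_combination (-(hi * gk)) * hx + (Gi * gk - Gk * gi) * hy + (Gk * hi) * hz⟩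
  · subst h
    obtain ⟨x, hx⟩ := hG
    obtain ⟨y, hy⟩ := hh
    obtain ⟨z, hz⟩ := hg
    exact ⟨-(hj * gi * x) + Gi * hj * z - Gj * hi * z + Gj * gi * y, by
      linear_combination (-(hj * gi)) * hx + (Gi * hj - Gj * hi) * hz + (Gj * gi) * hy⟩

/-- **One cell**: at most `N₀` points -/
theorem cell {q : ℕ} (hq : q.Prime) (e : Fin 3 → ℕ) (he : ∀ i, 1 ≤ e i)
    (H : MvPolynomial (Fin 3) ℤ) (P : Fin 3 → ℤ)
    (hFP : eval P (FP e) = 0)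
    (h2 : ¬ (q : ℤ) ∣ (e 2 : ℤ) * P 2 ^ (e 2 - 1)) (hE : ¬ (q : ℤ) ∣ eval P (EU e H))
    {i j k : Fin 3} (hij : i ≠ j) (hik : i ≠ k) (hjk : j ≠ k)
    {D : ℕ} (c d : (Fin 2 → Fin (D + 1)) → ℤ) (s₁ s₂ : ℕ) (L LG Z N₀ : ℕ)
    (T : Finset (Fin 3 → ℤ)) (hT : ∀ t ∈ T, ((∀ i, (q : ℤ) ∣ t i - P i) ∧ eval t (FP e) = 0 ∧
      eval t H = 0 ∧ (∀ i, t i ≠ 0) ∧ (∀ i j, i ≠ j → IsCoprime (t i) (t j)) ∧
      eval t (EU e H) ≠ 0) ∧ eval t (HQ i j c s₁) = 0 ∧ eval t (HQ i j c (s₁ + 1)) ≠ 0 ∧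
      eval t (HQ i k d s₂) = 0 ∧ eval t (HQ i k d (s₂ + 1)) ≠ 0 ∧
      (∀ κ, |eval t (pderiv κ (HQ i j c s₁))| ≤ L) ∧ (∀ κ, |eval t (pderiv κ (HQ i k d s₂))| ≤ L) ∧
      (∀ κ, |eval t (pderiv κ (FP e))| ≤ LG) ∧ (∀ κ, |eval t (pderiv κ H)| ≤ LG) ∧
      (∀ κ, (e κ : ℤ) * L ^ 2 * |t κ| ≤ Z) ∧
      (∀ κ κ', (e κ : ℤ) * L ^ 2 * |t κ'| ≤ Z) ∧ 2 * (Z : ℤ) < |t i| ^ (e i - 1))
    (hN : 3 * (LG * L ^ 2) < q ^ N₀) : T.card ≤ N₀ := by
  by_contra hcon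
  push Not at hcon
  obtain ⟨t, ht⟩ : T.Nonempty := Finset.card_pos.1 (by omega)
  obtain ⟨v, κ, hvκ, hv⟩ := tangent hq e he H P hFP h2 hE T
    (fun t ht => ⟨(hT t ht).1.1, (hT t ht).1.2.1, (hT t ht).1.2.2.1⟩) t ht
  obtain ⟨⟨-, hF, hH0, ht0, hco, hEU⟩, hh, hhj, hg, hgk, hLh, hLg, hLF, hLH, -, hZ, hbig⟩ := hT t ht
  have hpow : (q : ℤ) ^ N₀ ∣ (q : ℤ) ^ (T.card - 1) := pow_dvd_pow _ (by omega)
  have hvF := hpow.trans (hv (FP e) fun t ht => (hT t ht).1.2.1)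
  have hvH := hpow.trans (hv H fun t ht => (hT t ht).1.2.2.1)
  have hvh := hpow.trans (hv (HQ i j c s₁) fun t ht => (hT t ht).2.1)
  have hvg := hpow.trans (hv (HQ i k d s₂) fun t ht => (hT t ht).2.2.2.1)
  rw [sum3 hij hik hjk] at hvF hvH hvh hvg
  rw [pd_HQ_k hik hjk, zero_mul, add_zero] at hvh
  rw [pd_HQ_k hij (Ne.symm hjk), zero_mul, add_zero] at hvg
  have hv1 : v i = 1 ∨ v j = 1 ∨ v k = 1 := by
    have h3 : κ = i ∨ κ = j ∨ κ = k := by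
      revert hij hik hjk
      clear * -
      revert i j k κ
      decide
    rcases h3 with h | h | h
    · left; rw [← h]; exact hvκ
    · right; left; rw [← h]; exact hvκ
    · right; right; rw [← h]; exact hvκ
  set hi := eval t (pderiv i (HQ i j c s₁)) with hhi
  set hjj := eval t (pderiv j (HQ i j c s₁)) with hhjj
  set gi := eval t (pderiv i (HQ i k d s₂)) with hgi
  set gk := eval t (pderiv k (HQ i k d s₂)) with hgkk
  have hj0 : hjj ≠ 0 := by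
    intro h
    apply hhj
    rw [← pd_HQ_j hij, ← hhjj, h, mul_zero]
  have gk0 : gk ≠ 0 := by
    intro h
    apply hgk
    rw [← pd_HQ_j hik, ← hgkk, h, mul_zero]
  have hprod : ∀ x y : ℤ, |x| ≤ L → |y| ≤ L → |x * y| ≤ (L : ℤ) ^ 2 := by
    intro x y hx hy
    rw [abs_mul, sq]
    exact mul_le_mul hx hy (abs_nonneg _) (by positivity)
  have hzero : ∀ Gi Gj Gk : ℤ, |Gi| ≤ LG → |Gj| ≤ LG → |Gk| ≤ LG →
      (q : ℤ) ^ N₀ ∣ Gi * v i + Gj * v j + Gk * v k →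
      Gi * (hjj * gk) + Gj * (-(hi * gk)) + Gk * (-(hjj * gi)) = 0 := by
    intro Gi Gj Gk b1 b2 b3 hdv
    have h3 := mixed_dvd hdv hvh hvg hv1
    refine Int.eq_zero_of_abs_lt_dvd h3 ?_
    have c1 : |Gi * (hjj * gk)| ≤ LG * (L : ℤ) ^ 2 := by
      rw [abs_mul]
      exact mul_le_mul b1 (hprod _ _ (hLh j) (hLg k)) (abs_nonneg _) (by positivity)
    have c2 : |Gj * (-(hi * gk))| ≤ LG * (L : ℤ) ^ 2 := by
      rw [abs_mul, abs_neg]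
      exact mul_le_mul b2 (hprod _ _ (hLh i) (hLg k)) (abs_nonneg _) (by positivity)
    have c3 : |Gk * (-(hjj * gi))| ≤ LG * (L : ℤ) ^ 2 := by
      rw [abs_mul, abs_neg]
      exact mul_le_mul b3 (hprod _ _ (hLh j) (hLg i)) (abs_nonneg _) (by positivity)
    have c4 := abs_add_three (Gi * (hjj * gk)) (Gj * (-(hi * gk))) (Gk * (-(hjj * gi)))
    have c5 : (3 : ℤ) * (LG * (L : ℤ) ^ 2) < (q : ℤ) ^ N₀ := by exact_mod_cast hN
    linarith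
  have hXF := hzero _ _ _ (hLF i) (hLF j) (hLF k) hvF
  have hXH := hzero _ _ _ (hLH i) (hLH j) (hLH k) hvH
  rw [pd_fv, pd_fv, pd_fv] at hXF
  apply hEU
  rw [eval_EU_perm e H t hij hik hjk]
  have hfi : fv e t i ≠ 0 := by
    intro h
    have h3 := fv_abs e t i
    rw [h, abs_zero] at h3
    exact pow_ne_zero _ (abs_ne_zero.2 (ht0 i)) h3.symm
  refine alg_key (wi := hjj * gk) (wj := -(hi * gk)) (wk := -(hjj * gi))
    (by have := he i; positivity) (ht0 k) (mul_ne_zero hj0 gk0) hfi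
    (fv_co e t (hco i j hij)) (fv_sum e he t hF hij hik hjk) (by linarith) ?_ (by linarith)
  rw [fv_abs]
  have d1 : |(e j : ℤ) * -(hi * gk) * t k| ≤ Z := by
    rw [abs_mul, abs_mul, abs_neg, abs_of_nonneg (by positivity : (0 : ℤ) ≤ (e j : ℤ))]
    exact (mul_le_mul_of_nonneg_right (mul_le_mul_of_nonneg_left
      (hprod _ _ (hLh i) (hLg k)) (by positivity)) (abs_nonneg _)).trans (hZ j k)
  have d2 : |(e k : ℤ) * -(hjj * gi) * t j| ≤ Z := by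
    rw [abs_mul, abs_mul, abs_neg, abs_of_nonneg (by positivity : (0 : ℤ) ≤ (e k : ℤ))]
    exact (mul_le_mul_of_nonneg_right (mul_le_mul_of_nonneg_left
      (hprod _ _ (hLh j) (hLg i)) (by positivity)) (abs_nonneg _)).trans (hZ k j)
  have d3 := abs_sub ((e j : ℤ) * -(hi * gk) * t k) ((e k : ℤ) * -(hjj * gi) * t j)
  linarith

end Pool.Agent.Y902.FB
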