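import Mathlib
import Pool.Agent.Y902.FB.Lem

/-!
# The count on a residue class of a curve
-/

set_option autoImplicit false

namespace Pool.Agent.Y902.FB

open Finset MvPolynomial

/-- bound for the derivatives of two-variable relations -/
def Lb (D B Y : ℕ) : ℕ := (D + 1) ^ 2 * (B * Y ^ (2 * D) * (D + 1) ^ (D + 1))

/-- one coordinate -/
theorem onclass {q : ℕ} (hq : q.Prime) (e : Fin 3 → ℕ) (he : ∀ i, 1 ≤ e i)
    (H : MvPolynomial (Fin 3) ℤ) (P : Fin 3 → ℤ) (hFP : eval P (FP e) = 0)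
    (h2 : ¬ (q : ℤ) ∣ (e 2 : ℤ) * P 2 ^ (e 2 - 1)) (hE : ¬ (q : ℤ) ∣ eval P (EU e H))
    (D B Y LG Z N₀ : ℕ) (hY : 1 ≤ Y) (Ω : Finset (Fin 3 → ℤ))
    (hΩ : ∀ t ∈ Ω, (∀ i, (q : ℤ) ∣ t i - P i) ∧ eval t (FP e) = 0 ∧ eval t H = 0 ∧
      (∀ i, t i ≠ 0) ∧ (∀ i, |t i| ≤ (Y : ℤ)) ∧ ∀ i j, i ≠ j → IsCoprime (t i) (t j))
    (hrel : ∀ i j, RelOn (Ω : Set (Fin 3 → ℤ)) i j D (B : ℤ))
    (hLF : ∀ t ∈ Ω, ∀ κ, |eval t (pderiv κ (FP e))| ≤ (LG : ℤ))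
    (hLH : ∀ t ∈ Ω, ∀ κ, |eval t (pderiv κ H)| ≤ (LG : ℤ))
    (hZ : ∀ κ, e κ * Lb D B Y ^ 2 * Y ≤ Z)
    (hN : 3 * (LG * Lb D B Y ^ 2) < q ^ N₀) (i : Fin 3) :
    ∃ R : Finset ℤ, R.card ≤ 2 * D ∧
      (Ω.filter fun t => t i ∉ R ∧ 2 * (Z : ℤ) < |t i| ^ (e i - 1)).card ≤ (D + 1) ^ 2 * N₀ := by
  classical
  obtain ⟨j, k, hij, hik, hjk⟩ : ∃ j k : Fin 3, i ≠ j ∧ i ≠ k ∧ j ≠ k := by
    clear * -
    revert i
    decide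
  obtain ⟨c, hc0, hcB, hc⟩ := hrel i j
  obtain ⟨d, hd0, hdB, hd⟩ := hrel i k
  obtain ⟨R₁, hR₁, h₁⟩ := dich2 i j c hc0
  obtain ⟨R₂, hR₂, h₂⟩ := dich2 i k d hd0
  refine ⟨R₁ ∪ R₂, (Finset.card_union_le _ _).trans (by omega), ?_⟩
  set Ω' := Ω.filter fun t => t i ∉ R₁ ∪ R₂ ∧ 2 * (Z : ℤ) < |t i| ^ (e i - 1) with hΩ'
  set T : ℕ × ℕ → Finset (Fin 3 → ℤ) := fun s => Ω'.filter fun t =>
    eval t (HQ i j c s.1) = 0 ∧ eval t (HQ i j c (s.1 + 1)) ≠ 0 ∧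
      eval t (HQ i k d s.2) = 0 ∧ eval t (HQ i k d (s.2 + 1)) ≠ 0 with hTdef
  have hcover : Ω' ⊆ (Finset.range (D + 1) ×ˢ Finset.range (D + 1)).biUnion T := by
    intro t ht
    have ht' := Finset.mem_filter.1 ht
    have htΩ := hΩ t ht'.1
    have hnot : t i ∉ R₁ ∧ t i ∉ R₂ := by
      have := ht'.2.1
      rw [Finset.mem_union, not_or] at this
      exact this
    obtain ⟨s₁, hs₁, g₁, g₂⟩ := h₁ t htΩ.2.2.2.1 (hc t ht'.1) hnot.1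
    obtain ⟨s₂, hs₂, g₃, g₄⟩ := h₂ t htΩ.2.2.2.1 (hd t ht'.1) hnot.2
    rw [Finset.mem_biUnion]
    refine ⟨(s₁, s₂), ?_, ?_⟩
    · rw [Finset.mem_product, Finset.mem_range, Finset.mem_range]
      exact ⟨hs₁, hs₂⟩
    · rw [hTdef, Finset.mem_filter]
      exact ⟨ht, g₁, g₂, g₃, g₄⟩
  refine (Finset.card_le_card hcover).trans ?_
  refine (Finset.card_biUnion_le_card_mul _ _ N₀ fun s hs => ?_).trans ?_
  swap
  · rw [Finset.card_product, Finset.card_range, sq]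
  rw [Finset.mem_product, Finset.mem_range, Finset.mem_range] at hs
  refine cell hq e he H P hFP h2 hE hij hik hjk c d s.1 s.2 (Lb D B Y) LG Z N₀ (T s) ?_ hN
  intro t ht
  rw [hTdef, Finset.mem_filter] at ht
  obtain ⟨ht1, g₁, g₂, g₃, g₄⟩ := ht
  rw [hΩ', Finset.mem_filter] at ht1
  obtain ⟨htΩ, -, hbig⟩ := ht1
  obtain ⟨k1, k2, k3, k4, k5, k6⟩ := hΩ t htΩ
  have hEU : eval t (EU e H) ≠ 0 := by
    intro h0
    apply hE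
    have h3 := eval_congr_dvd (q : ℤ) (EU e H) t P k1
    rw [h0, zero_sub, dvd_neg] at h3
    exact h3
  have hZ' : ∀ κ κ' : Fin 3, (e κ : ℤ) * ((Lb D B Y : ℕ) : ℤ) ^ 2 * |t κ'| ≤ Z := by
    intro κ κ'
    have h3 : (e κ : ℤ) * ((Lb D B Y : ℕ) : ℤ) ^ 2 * |t κ'| ≤
        (e κ : ℤ) * ((Lb D B Y : ℕ) : ℤ) ^ 2 * Y :=
      mul_le_mul_of_nonneg_left (k5 κ') (by positivity)
    exact h3.trans (by exact_mod_cast hZ κ)
  refine ⟨⟨k1, k2, k3, k4, k6, hEU⟩, g₁, g₂, g₃, g₄, ?_, ?_, hLF t htΩ, hLH t htΩ,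
    fun κ => hZ' κ κ, hZ', hbig⟩
  · exact fun κ => HQ_bd hY hij c hcB s.1 (by omega) t k4 k5 κ
  · exact fun κ => HQ_bd hY hik d hdB s.2 (by omega) t k4 k5 κ

/-- two coordinates determine the third -/
theorem third (e : Fin 3 → ℕ) (he : ∀ i, 1 ≤ e i) {i j : Fin 3} (hij : i ≠ j) {t t' : Fin 3 → ℤ}
    (h : eval t (FP e) = 0) (h' : eval t' (FP e) = 0) (ht : ∀ i, 0 < t i) (ht' : ∀ i, 0 < t' i)
    (hi : t i = t' i) (hj : t j = t' j) : t = t' := by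
  rw [eval_FP] at h h'
  have key : ∀ k, t k ^ e k = t' k ^ e k → t k = t' k := by
    intro k hk
    have h0 : e k ≠ 0 := by have := he k; omega
    exact (pow_left_inj₀ (ht k).le (ht' k).le h0).1 hk
  have h01 : t 0 = t' 0 → t 1 = t' 1 → t = t' := by
    intro a b
    funext k
    fin_cases k
    · exact a
    · exact b
    · have g : t 2 ^ e 2 = t' 2 ^ e 2 := by rw [a, b] at h; linarith
      exact key 2 g
  have h02 : t 0 = t' 0 → t 2 = t' 2 → t = t' := by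
    intro a b
    funext k
    fin_cases k
    · exact a
    · have g : t 1 ^ e 1 = t' 1 ^ e 1 := by rw [a, b] at h; linarith
      exact key 1 g
    · exact b
  have h12 : t 1 = t' 1 → t 2 = t' 2 → t = t' := by
    intro a b
    funext k
    fin_cases k
    · have g : t 0 ^ e 0 = t' 0 ^ e 0 := by rw [a, b] at h; linarith
      exact key 0 g
    · exact a
    · exact b
  fin_cases i <;> fin_cases j <;> simp at hij hi hj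
  · exact h01 hi hj
  · exact h02 hi hj
  · exact h01 hj hi
  · exact h12 hi hj
  · exact h02 hj hi
  · exact h12 hj hi

/-- few points when two of the coordinates are in small sets -/
theorem card_two (e : Fin 3 → ℕ) (he : ∀ i, 1 ≤ e i) {i j : Fin 3} (hij : i ≠ j)
    (T : Finset (Fin 3 → ℤ)) (S₁ S₂ : Finset ℤ)
    (hT : ∀ t ∈ T, eval t (FP e) = 0 ∧ (∀ i, 0 < t i) ∧ t i ∈ S₁ ∧ t j ∈ S₂) :
    T.card ≤ S₁.card * S₂.card := by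
  classical
  have hinj : Set.InjOn (fun t : Fin 3 → ℤ => (t i, t j)) (T : Set (Fin 3 → ℤ)) := by
    intro t ht t' ht' heq
    simp only [Prod.mk.injEq] at heq
    exact third e he hij (hT t ht).1 (hT t' ht').1 (hT t ht).2.1 (hT t' ht').2.1 heq.1 heq.2
  rw [← Finset.card_image_of_injOn hinj, ← Finset.card_product]
  refine Finset.card_le_card fun z hz => ?_
  obtain ⟨t, ht, rfl⟩ := Finset.mem_image.1 hz
  rw [Finset.mem_product]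
  exact ⟨(hT t ht).2.2.1, (hT t ht).2.2.2⟩

/-- **The count on a residue class.** -/
theorem onclass2 {q : ℕ} (hq : q.Prime) (e : Fin 3 → ℕ) (he : ∀ i, 1 ≤ e i)
    (H : MvPolynomial (Fin 3) ℤ) (P : Fin 3 → ℤ) (hFP : eval P (FP e) = 0)
    (h2 : ¬ (q : ℤ) ∣ (e 2 : ℤ) * P 2 ^ (e 2 - 1)) (hE : ¬ (q : ℤ) ∣ eval P (EU e H))
    (D B Y LG Z N₀ R y₀ : ℕ) (hY : 1 ≤ Y) (Ω : Finset (Fin 3 → ℤ))
    (hΩ : ∀ t ∈ Ω, (∀ i, (q : ℤ) ∣ t i - P i) ∧ eval t (FP e) = 0 ∧ eval t H = 0 ∧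
      (∀ i, 0 < t i) ∧ (∀ i, |t i| ≤ (Y : ℤ)) ∧ ∀ i j, i ≠ j → IsCoprime (t i) (t j))
    (hrel : ∀ i j, RelOn (Ω : Set (Fin 3 → ℤ)) i j D (B : ℤ))
    (hLF : ∀ t ∈ Ω, ∀ κ, |eval t (pderiv κ (FP e))| ≤ (LG : ℤ))
    (hLH : ∀ t ∈ Ω, ∀ κ, |eval t (pderiv κ H)| ≤ (LG : ℤ))
    (hZ : ∀ κ, e κ * Lb D B Y ^ 2 * Y ≤ Z)
    (hN : 3 * (LG * Lb D B Y ^ 2) < q ^ N₀) {i j : Fin 3} (hij : i ≠ j)
    (hi : R + 1 ≤ e i) (hj : R + 1 ≤ e j) (hy : 2 * Z < (y₀ + 1) ^ R) :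
    Ω.card ≤ 2 * ((D + 1) ^ 2 * N₀) + (2 * D + y₀) ^ 2 := by
  classical
  have hΩ' : ∀ t ∈ Ω, (∀ i, (q : ℤ) ∣ t i - P i) ∧ eval t (FP e) = 0 ∧ eval t H = 0 ∧
      (∀ i, t i ≠ 0) ∧ (∀ i, |t i| ≤ (Y : ℤ)) ∧ ∀ i j, i ≠ j → IsCoprime (t i) (t j) := by
    intro t ht
    obtain ⟨a, b, c, d, f, g⟩ := hΩ t ht
    exact ⟨a, b, c, fun i => (d i).ne', f, g⟩
  obtain ⟨R₁, hR₁, h₁⟩ := onclass hq e he H P hFP h2 hE D B Y LG Z N₀ hY Ω hΩ' hrel hLF hLH hZ hN i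
  obtain ⟨R₂, hR₂, h₂⟩ := onclass hq e he H P hFP h2 hE D B Y LG Z N₀ hY Ω hΩ' hrel hLF hLH hZ hN j
  set S₁ : Finset ℤ := R₁ ∪ Finset.Icc 1 (y₀ : ℤ) with hS₁
  set S₂ : Finset ℤ := R₂ ∪ Finset.Icc 1 (y₀ : ℤ) with hS₂
  have hcS : ∀ R' : Finset ℤ, R'.card ≤ 2 * D → (R' ∪ Finset.Icc 1 (y₀ : ℤ)).card ≤ 2 * D + y₀ := by
    intro R' hR'
    refine (Finset.card_union_le _ _).trans ?_
    rw [Int.card_Icc]
    simp
    exact hR'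
  have hmem : ∀ (κ : Fin 3) (R' : Finset ℤ), R + 1 ≤ e κ → ∀ t ∈ Ω,
      ¬ (t κ ∉ R' ∧ 2 * (Z : ℤ) < |t κ| ^ (e κ - 1)) → t κ ∈ R' ∪ Finset.Icc 1 (y₀ : ℤ) := by
    intro κ R' hκ t ht hnot
    rw [Finset.mem_union]
    by_contra hcon
    push Not at hcon
    apply hnot
    refine ⟨hcon.1, ?_⟩
    have hpos := (hΩ t ht).2.2.2.1 κ
    have h3 : (y₀ : ℤ) + 1 ≤ t κ := by
      by_contra h4
      apply hcon.2
      rw [Finset.mem_Icc]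
      omega
    have h4 : ((y₀ : ℤ) + 1) ^ R ≤ |t κ| ^ (e κ - 1) := by
      rw [abs_of_pos hpos]
      calc ((y₀ : ℤ) + 1) ^ R ≤ (t κ) ^ R := pow_le_pow_left₀ (by positivity) h3 R
        _ ≤ (t κ) ^ (e κ - 1) := pow_le_pow_right₀ (by omega) (by omega)
    have h5 : (2 : ℤ) * Z < ((y₀ : ℤ) + 1) ^ R := by exact_mod_cast hy
    linarith
  set G₁ := Ω.filter fun t => t i ∉ R₁ ∧ 2 * (Z : ℤ) < |t i| ^ (e i - 1) with hG₁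
  set G₂ := Ω.filter fun t => t j ∉ R₂ ∧ 2 * (Z : ℤ) < |t j| ^ (e j - 1) with hG₂
  set G₃ := Ω.filter fun t => t i ∈ S₁ ∧ t j ∈ S₂ with hG₃
  have hcover : Ω ⊆ (G₁ ∪ G₂) ∪ G₃ := by
    intro t ht
    by_cases a1 : t i ∉ R₁ ∧ 2 * (Z : ℤ) < |t i| ^ (e i - 1)
    · exact Finset.mem_union_left _ (Finset.mem_union_left _ (Finset.mem_filter.2 ⟨ht, a1⟩))
    · by_cases a2 : t j ∉ R₂ ∧ 2 * (Z : ℤ) < |t j| ^ (e j - 1)
      · exact Finset.mem_union_left _ (Finset.mem_union_right _ (Finset.mem_filter.2 ⟨ht, a2⟩))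
      · exact Finset.mem_union_right _ (Finset.mem_filter.2 ⟨ht, hmem i R₁ hi t ht a1,
          hmem j R₂ hj t ht a2⟩)
  have h₃ : G₃.card ≤ (2 * D + y₀) ^ 2 := by
    refine (card_two e he hij G₃ S₁ S₂ fun t ht => ?_).trans ?_
    · have ht' := Finset.mem_filter.1 ht
      exact ⟨(hΩ t ht'.1).2.1, (hΩ t ht'.1).2.2.2.1, ht'.2.1, ht'.2.2⟩
    · rw [sq]
      exact Nat.mul_le_mul (hcS R₁ hR₁) (hcS R₂ hR₂)
  have h₄ := Finset.card_le_card hcover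
  have h₅ := Finset.card_union_le (G₁ ∪ G₂) G₃
  have h₆ := Finset.card_union_le G₁ G₂
  omega

end Pool.Agent.Y902.FB
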