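import Mathlib
import Pool.Agent.Y902.FB.OnC

/-!
# The count on the surface
-/

set_option autoImplicit false

namespace Pool.Agent.Y902.FB

open Finset MvPolynomial

theorem wgt_le {D E : ℕ} (e : Fin 3 → ℕ) (hE : ∀ i, e i ≤ E) (a : Fin 3 → Fin (D + 1)) :
    wgt e a ≤ 3 * (D + 1) * E ^ 2 := by
  have hw : ∀ i, wt e i ≤ E ^ 2 := by
    intro i
    rw [sq]
    fin_cases i
    · exact Nat.mul_le_mul (hE 1) (hE 2)
    · exact Nat.mul_le_mul (hE 0) (hE 2)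
    · exact Nat.mul_le_mul (hE 0) (hE 1)
  calc wgt e a ≤ ∑ _i : Fin 3, E ^ 2 * (D + 1) :=
        Finset.sum_le_sum fun i _ => Nat.mul_le_mul (hw i) (a i).2.le
    _ = 3 * (D + 1) * E ^ 2 := by
        rw [Finset.sum_const, Finset.card_univ, Fintype.card_fin, smul_eq_mul]; ring

/-- bound for the values and the derivatives of `HP` -/
def Hb (D B Y E : ℕ) : ℕ :=
  (D + 1) ^ 3 * (B * Y ^ (3 * D) * (3 * (D + 1) * E ^ 2) ^ ((D + 1) ^ 3 + 1))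

theorem HP_term {D B Y E : ℕ} (hY : 1 ≤ Y) (hE1 : 1 ≤ E)
    (c : (Fin 3 → Fin (D + 1)) → ℤ) (hc : ∀ a, |c a| ≤ (B : ℤ)) (t : Fin 3 → ℤ)
    (htY : ∀ i, |t i| ≤ (Y : ℤ)) (a : Fin 3 → Fin (D + 1)) (x : ℤ) (s : ℕ)
    (hs : s ≤ (D + 1) ^ 3 + 1)
    (hx : |x| ≤ (((3 * (D + 1) * E ^ 2) ^ s : ℕ) : ℤ)) :
    |(c a * ∏ j, t j ^ (a j : ℕ)) * x| ≤
      ((B * Y ^ (3 * D) * (3 * (D + 1) * E ^ 2) ^ ((D + 1) ^ 3 + 1) : ℕ) : ℤ) := by
  have h1 : |∏ j, t j ^ (a j : ℕ)| ≤ ((Y ^ (3 * D) : ℕ) : ℤ) := by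
    rw [Finset.abs_prod]
    calc ∏ i, |t i ^ (a i : ℕ)| ≤ ∏ _i : Fin 3, ((Y ^ D : ℕ) : ℤ) :=
          Finset.prod_le_prod (fun i _ => abs_nonneg _)
            fun i _ => abs_pow_le_pow (htY i) hY (by have := (a i).2; omega)
      _ = ((Y ^ (3 * D) : ℕ) : ℤ) := by
          rw [Finset.prod_const, Finset.card_univ, Fintype.card_fin]
          push_cast
          ring
  have h2 : (((3 * (D + 1) * E ^ 2) ^ s : ℕ) : ℤ) ≤
      (((3 * (D + 1) * E ^ 2) ^ ((D + 1) ^ 3 + 1) : ℕ) : ℤ) := by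
    have h3 : 0 < 3 * (D + 1) * E ^ 2 := by positivity
    exact_mod_cast Nat.pow_le_pow_right h3 hs
  rw [abs_mul, abs_mul]
  calc |c a| * |∏ j, t j ^ (a j : ℕ)| * |x| ≤ (B : ℤ) * ((Y ^ (3 * D) : ℕ) : ℤ) *
        (((3 * (D + 1) * E ^ 2) ^ ((D + 1) ^ 3 + 1) : ℕ) : ℤ) := by
        have h4 := hx.trans h2
        have h5 := hc a
        gcongr
    _ = _ := by push_cast; ring

theorem card3 (D : ℕ) : Fintype.card (Fin 3 → Fin (D + 1)) = (D + 1) ^ 3 := by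
  rw [Fintype.card_fun, Fintype.card_fin, Fintype.card_fin]

theorem HP_bd {D B Y E : ℕ} (hY : 1 ≤ Y) (hE1 : 1 ≤ E) (e : Fin 3 → ℕ) (hE : ∀ i, e i ≤ E)
    (c : (Fin 3 → Fin (D + 1)) → ℤ) (hc : ∀ a, |c a| ≤ (B : ℤ)) (t : Fin 3 → ℤ)
    (htY : ∀ i, |t i| ≤ (Y : ℤ)) (s : ℕ) (hs : s ≤ (D + 1) ^ 3 + 1) :
    |eval t (HP e c s)| ≤ ((Hb D B Y E : ℕ) : ℤ) := by
  rw [eval_HP, Hb]
  have hb := sum_bound (fun a => (c a * ∏ j, t j ^ (a j : ℕ)) * (wgt e a : ℤ) ^ s) _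
    fun a => HP_term hY hE1 c hc t htY a ((wgt e a : ℤ) ^ s) s hs (by
      rw [abs_pow, Nat.abs_cast]
      have := Nat.pow_le_pow_left (wgt_le e hE a) s
      exact_mod_cast this)
  rw [card3] at hb
  exact hb

theorem pd_mono {D : ℕ} (a : Fin 3 → Fin (D + 1)) (t : Fin 3 → ℤ) (κ : Fin 3) :
    t κ * eval t (pderiv κ (mono a)) = (a κ : ℕ) * ∏ j, t j ^ (a j : ℕ) := by
  have h0 : mono a = X 0 ^ (a 0 : ℕ) * X 1 ^ (a 1 : ℕ) * X 2 ^ (a 2 : ℕ) := by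
    simp [mono, Fin.prod_univ_three]
  have g0 := mul_pow_pred (t 0) (a 0)
  have g1 := mul_pow_pred (t 1) (a 1)
  have g2 := mul_pow_pred (t 2) (a 2)
  rw [h0, Fin.prod_univ_three]
  fin_cases κ
  · simp only [Fin.zero_eta]
    rw [pderiv_mul, pderiv_mul, pderiv_X_pow', pderiv_X_pow_ne (by decide),
      pderiv_X_pow_ne (by decide)]
    simp only [map_mul, map_pow, eval_X, eval_C, mul_zero, add_zero]
    linear_combination t 1 ^ (a 1 : ℕ) * t 2 ^ (a 2 : ℕ) * g0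
  · simp only [Fin.mk_one]
    rw [pderiv_mul, pderiv_mul, pderiv_X_pow', pderiv_X_pow_ne (by decide),
      pderiv_X_pow_ne (by decide)]
    simp only [map_mul, map_pow, eval_X, eval_C, mul_zero, add_zero, zero_mul, zero_add]
    linear_combination t 0 ^ (a 0 : ℕ) * t 2 ^ (a 2 : ℕ) * g1
  · simp only [Fin.reduceFinMk]
    rw [pderiv_mul, pderiv_mul, pderiv_X_pow', pderiv_X_pow_ne (by decide),
      pderiv_X_pow_ne (by decide)]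
    simp only [map_mul, map_pow, eval_X, eval_C, mul_zero, zero_mul, zero_add]
    linear_combination t 0 ^ (a 0 : ℕ) * t 1 ^ (a 1 : ℕ) * g2

theorem HP_pd_bd {D B Y E : ℕ} (hY : 1 ≤ Y) (hE1 : 1 ≤ E) (e : Fin 3 → ℕ) (hE : ∀ i, e i ≤ E)
    (c : (Fin 3 → Fin (D + 1)) → ℤ) (hc : ∀ a, |c a| ≤ (B : ℤ)) (t : Fin 3 → ℤ)
    (ht : ∀ i, t i ≠ 0) (htY : ∀ i, |t i| ≤ (Y : ℤ)) (s : ℕ) (hs : s ≤ (D + 1) ^ 3) (κ : Fin 3) :
    |eval t (pderiv κ (HP e c s))| ≤ ((Hb D B Y E : ℕ) : ℤ) := by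
  refine (abs_le_of_mul (ht κ)).trans ?_
  have h1 : t κ * eval t (pderiv κ (HP e c s)) =
      ∑ a, (c a * ∏ j, t j ^ (a j : ℕ)) * ((wgt e a : ℤ) ^ s * (a κ : ℕ)) := by
    unfold HP
    rw [map_sum, map_sum, Finset.mul_sum]
    refine Finset.sum_congr rfl fun a _ => ?_
    rw [pderiv_C_mul, map_mul, eval_C]
    linear_combination (c a * (wgt e a : ℤ) ^ s) * pd_mono a t κ
  rw [h1, Hb]
  have hb := sum_bound (fun a => (c a * ∏ j, t j ^ (a j : ℕ)) * ((wgt e a : ℤ) ^ s * (a κ : ℕ))) _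
    fun a => HP_term hY hE1 c hc t htY a ((wgt e a : ℤ) ^ s * (a κ : ℕ)) (s + 1) (by omega) (by
      rw [abs_of_nonneg (by positivity), pow_succ]
      have h2 := Nat.pow_le_pow_left (wgt_le e hE a) s
      have h3 : (a κ : ℕ) ≤ 3 * (D + 1) * E ^ 2 := by
        have h4 := (a κ).2
        have h5 : 1 ≤ E ^ 2 := Nat.one_le_pow _ _ hE1
        nlinarith
      have := Nat.mul_le_mul h2 h3
      exact_mod_cast this)
  rw [card3] at hb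
  exact hb

theorem FP_pd_bd {Y E : ℕ} (hY : 1 ≤ Y) (e : Fin 3 → ℕ) (hE : ∀ i, e i ≤ E) (t : Fin 3 → ℤ)
    (htY : ∀ i, |t i| ≤ (Y : ℤ)) (κ : Fin 3) :
    |eval t (pderiv κ (FP e))| ≤ ((E * Y ^ E : ℕ) : ℤ) := by
  rw [pd_fv, abs_mul, Nat.abs_cast, fv_abs, ← abs_pow]
  have h1 := abs_pow_le_pow (htY κ) hY (show e κ - 1 ≤ E by have := hE κ; omega)
  have h2 := hE κ
  push_cast at h1 ⊢
  have h3 : (e κ : ℤ) ≤ E := by exact_mod_cast h2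
  exact mul_le_mul h3 h1 (abs_nonneg _) (by positivity)

/-- choice of a prime -/
theorem exists_prime_not_dvd (Q : Finset ℕ) (hQ : ∀ q ∈ Q, q.Prime) (X : ℕ) (hX : ∀ q ∈ Q, X ≤ q)
    (n : ℤ) (hn : n ≠ 0) (hlt : |n| < (X : ℤ) ^ Q.card) : ∃ q ∈ Q, ¬ (q : ℤ) ∣ n := by
  by_contra hcon
  push Not at hcon
  have h1 : ((∏ q ∈ Q, q : ℕ) : ℤ) ∣ n := by
    exact Int.natCast_dvd.2 (Finset.prod_primes_dvd _ (fun q hq => (hQ q hq).prime)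
      fun q hq => Int.natCast_dvd.1 (hcon q hq))
  have h2 : X ^ Q.card ≤ ∏ q ∈ Q, q := Finset.pow_card_le_prod _ _ _ hX
  have h3 : ((∏ q ∈ Q, q : ℕ) : ℤ) ≤ |n| :=
    Int.le_of_dvd (abs_pos.2 hn) ((dvd_abs _ _).2 h1)
  have h4 : ((X ^ Q.card : ℕ) : ℤ) ≤ ((∏ q ∈ Q, q : ℕ) : ℤ) := by exact_mod_cast h2
  push_cast at h4 h3
  linarith

/-- covering by residue classes -/
theorem cover (T : Finset (Fin 3 → ℤ)) (Q : Finset ℕ) (X₁ M : ℕ) (hQ : ∀ q ∈ Q, 0 < q ∧ q ≤ X₁)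
    (g : (Fin 3 → ℤ) → ℤ) (hg : ∀ t ∈ T, ∃ q ∈ Q, ¬ (q : ℤ) ∣ g t)
    (hM : ∀ q ∈ Q, ∀ P ∈ T, ¬ (q : ℤ) ∣ g P → ∀ Ω : Finset (Fin 3 → ℤ), Ω ⊆ T →
      (∀ t ∈ Ω, ∀ i, (q : ℤ) ∣ t i - P i) → Ω.card ≤ M) :
    T.card ≤ Q.card * (M * X₁ ^ 3) := by
  classical
  have hcov : T ⊆ Q.biUnion fun q => T.filter fun t => ¬ (q : ℤ) ∣ g t := by
    intro t ht
    obtain ⟨q, hq, h⟩ := hg t ht
    rw [Finset.mem_biUnion]
    exact ⟨q, hq, Finset.mem_filter.2 ⟨ht, h⟩⟩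
  refine (Finset.card_le_card hcov).trans (Finset.card_biUnion_le_card_mul _ _ _ fun q hq => ?_)
  obtain ⟨hq0, hqX⟩ := hQ q hq
  have : NeZero q := ⟨hq0.ne'⟩
  set f : (Fin 3 → ℤ) → (Fin 3 → ZMod q) := fun t i => (t i : ZMod q) with hf
  have h1 := Finset.card_le_mul_card_image (f := f) (T.filter fun t => ¬ (q : ℤ) ∣ g t) M
    (fun b hb => by
      obtain ⟨P, hP, rfl⟩ := Finset.mem_image.1 hb
      have hP' := Finset.mem_filter.1 hP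
      refine hM q hq P hP'.1 hP'.2 _ ?_ ?_
      · exact (Finset.filter_subset _ _).trans (Finset.filter_subset _ _)
      · intro t ht i
        have h2 := (Finset.mem_filter.1 ht).2
        have h3 := congrFun h2 i
        simp only [hf] at h3
        exact (ZMod.intCast_eq_intCast_iff_dvd_sub _ _ _).1 h3.symm)
  refine h1.trans (Nat.mul_le_mul_left _ ?_)
  refine (Finset.card_le_univ _).trans ?_
  rw [Fintype.card_fun, Fintype.card_fin, ZMod.card]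
  exact Nat.pow_le_pow_left hqX 3

end Pool.Agent.Y902.FB
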