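import Mathlib
import Pool.Agent.Y902.FB.Sur

/-!
# The count for one triple of exponents which is not of Fermat type
-/

set_option autoImplicit false

namespace Pool.Agent.Y902.FB

open Finset MvPolynomial

theorem not_dvd_pow {q : ℕ} (hq : q.Prime) {a t : ℤ} {n : ℕ} (h : ¬ (q : ℤ) ∣ a * t) :
    ¬ (q : ℤ) ∣ a * t ^ n := by
  have hqp : Prime (q : ℤ) := Nat.prime_iff_prime_int.1 hq
  intro h1
  rcases hqp.dvd_or_dvd h1 with h2 | h2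
  · exact h (Dvd.dvd.mul_right h2 _)
  · exact h (Dvd.dvd.mul_left (hqp.dvd_of_dvd_pow h2) _)

theorem RelOn.mono {Ω : Set (Fin 3 → ℤ)} {i j : Fin 3} {D : ℕ} {B B' : ℤ} (h : RelOn Ω i j D B)
    (hB : B ≤ B') : RelOn Ω i j D B' := by
  obtain ⟨c, h0, h1, h2⟩ := h
  exact ⟨c, h0, fun a => (h1 a).trans hB, h2⟩

/-- the set of special points is small -/
theorem special_card {D τ B : ℕ} (e : Fin 3 → ℕ) (he : ∀ i, 1 ≤ e i)
    (hτ : ∀ n : ℕ, 1 ≤ n → n ≤ B → n.divisors.card ≤ τ) (c : (Fin 3 → Fin (D + 1)) → ℤ)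
    (hc : ∀ a, |c a| ≤ (B : ℤ)) (T : Finset (Fin 3 → ℤ))
    (hT : ∀ t ∈ T, eval t (FP e) = 0 ∧ (∀ i, 0 < t i) ∧
      ∃ i j : Fin 3, i ≠ j ∧ (∃ a, c a ≠ 0 ∧ t i ∣ c a) ∧ (∃ a, c a ≠ 0 ∧ t j ∣ c a)) :
    T.card ≤ 9 * ((D + 1) ^ 3 * τ) ^ 2 := by
  classical
  set S : Finset ℤ := (Finset.univ.filter fun a => c a ≠ 0).biUnion
    fun a => (c a).natAbs.divisors.image fun n : ℕ => (n : ℤ) with hS
  have hScard : S.card ≤ (D + 1) ^ 3 * τ := by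
    refine (Finset.card_biUnion_le_card_mul _ _ τ fun a ha => ?_).trans ?_
    · refine Finset.card_image_le.trans (hτ _ ?_ ?_)
      · exact Int.natAbs_pos.2 (Finset.mem_filter.1 ha).2
      · have h1 := hc a
        rw [Int.abs_eq_natAbs] at h1
        exact_mod_cast h1
    · refine Nat.mul_le_mul_right _ ((Finset.card_filter_le _ _).trans ?_)
      rw [Finset.card_univ, card3]
  have hmem : ∀ x : ℤ, 0 < x → (∃ a, c a ≠ 0 ∧ x ∣ c a) → x ∈ S := by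
    rintro x hx ⟨a, ha, hdv⟩
    rw [hS, Finset.mem_biUnion]
    refine ⟨a, Finset.mem_filter.2 ⟨Finset.mem_univ _, ha⟩, ?_⟩
    rw [Finset.mem_image]
    refine ⟨x.natAbs, ?_, ?_⟩
    · rw [Nat.mem_divisors]
      exact ⟨Int.natAbs_dvd_natAbs.2 hdv, Int.natAbs_ne_zero.2 ha⟩
    · exact Int.natAbs_of_nonneg hx.le
  have hcov : T ⊆ (Finset.univ : Finset (Fin 3 × Fin 3)).biUnion
      fun p => T.filter fun t => p.1 ≠ p.2 ∧ t p.1 ∈ S ∧ t p.2 ∈ S := by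
    intro t ht
    obtain ⟨-, h1, i, j, hij, hi, hj⟩ := hT t ht
    rw [Finset.mem_biUnion]
    exact ⟨(i, j), Finset.mem_univ _, Finset.mem_filter.2 ⟨ht, hij, hmem _ (h1 i) hi,
      hmem _ (h1 j) hj⟩⟩
  refine (Finset.card_le_card hcov).trans ?_
  refine (Finset.card_biUnion_le_card_mul _ _ (((D + 1) ^ 3 * τ) ^ 2) fun p _ => ?_).trans ?_
  · by_cases hp : p.1 ≠ p.2
    · refine (card_two e he hp _ S S fun t ht => ?_).trans ?_
      · have ht' := Finset.mem_filter.1 ht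
        exact ⟨(hT t ht'.1).1, (hT t ht'.1).2.1, ht'.2.2.1, ht'.2.2.2⟩
      · rw [sq]; exact Nat.mul_le_mul hScard hScard
    · rw [Finset.card_eq_zero.2]
      · exact Nat.zero_le _
      · apply Finset.filter_false_of_mem
        intro t _ h
        exact hp h.1
  · rw [Finset.card_univ, Fintype.card_prod, Fintype.card_fin]

/-- **The count for one triple of exponents.** -/
theorem count_e {E Y X X₁ D ρ D₂ ρ₂ LG Z N₀ R y₀ τ : ℕ} (hY : 1 ≤ Y) (hE1 : 1 ≤ E) (hX₁ : 1 ≤ X₁)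
    (e : Fin 3 → ℕ) (he : ∀ i, 1 ≤ e i) (hE : ∀ i, e i ≤ E) (Q : Finset ℕ)
    (hQ : ∀ q ∈ Q, q.Prime ∧ X ≤ q ∧ q ≤ X₁)
    (c1 : 8 * ρ ^ 2 ≤ (D + 1) ^ 3) (c1' : (D + 1) ^ 3 * Y ^ (3 * D) < X ^ ρ)
    (c2 : 4 * ρ₂ ≤ (D₂ + 1) ^ 2) (c2' : (D₂ + 1) ^ 2 * Y ^ (2 * D₂) < X ^ ρ₂)
    (c3 : E * Y * Hb D (X₁ ^ ρ) Y E < X ^ Q.card)
    (c4 : E * Y ^ E ≤ LG) (c4' : Hb D (X₁ ^ ρ) Y E ≤ LG)
    (c5 : E * Lb D₂ (X₁ ^ ρ₂) Y ^ 2 * Y ≤ Z)
    (c6 : 3 * (LG * Lb D₂ (X₁ ^ ρ₂) Y ^ 2) < X ^ N₀)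
    (c7 : ¬ FT e (D ^ 2)) {i j : Fin 3} (hij : i ≠ j) (hi : R + 1 ≤ e i) (hj : R + 1 ≤ e j)
    (c8 : 2 * Z < (y₀ + 1) ^ R)
    (c9 : ∀ n : ℕ, 1 ≤ n → n ≤ X₁ ^ ρ → n.divisors.card ≤ τ)
    (T : Finset (Fin 3 → ℤ)) (hT : ∀ t ∈ T, eval t (FP e) = 0 ∧ (∀ i, 0 < t i) ∧
      (∀ i, |t i| ≤ (Y : ℤ)) ∧ ∀ i j, i ≠ j → IsCoprime (t i) (t j)) :
    T.card ≤ Q.card * ((9 * ((D + 1) ^ 3 * τ) ^ 2 + (D + 1) ^ 3 * (Q.card *
      ((2 * ((D₂ + 1) ^ 2 * N₀) + (2 * D₂ + y₀) ^ 2) * X₁ ^ 3))) * X₁ ^ 3) := by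
  classical
  have hHb1 : 1 ≤ Hb D (X₁ ^ ρ) Y E := by
    unfold Hb
    have : 0 < (D + 1) ^ 3 * (X₁ ^ ρ * Y ^ (3 * D) * (3 * (D + 1) * E ^ 2) ^ ((D + 1) ^ 3 + 1)) := by
      positivity
    exact this
  have hQpos : ∀ q ∈ Q, 0 < q ∧ q ≤ X₁ := fun q hq => ⟨(hQ q hq).1.pos, (hQ q hq).2.2⟩
  have hgb : ∀ t ∈ T, |(e 2 : ℤ) * t 2| ≤ ((E * Y : ℕ) : ℤ) := by
    intro t ht
    rw [abs_mul, Nat.abs_cast]
    push_cast
    have h1 : (e 2 : ℤ) ≤ E := by exact_mod_cast hE 2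
    exact mul_le_mul h1 ((hT t ht).2.2.1 2) (abs_nonneg _) (by positivity)
  have hg0 : ∀ t ∈ T, (e 2 : ℤ) * t 2 ≠ 0 := by
    intro t ht
    have h1 := (hT t ht).2.1 2
    have h2 : (e 2 : ℤ) ≠ 0 := by have := he 2; positivity
    exact mul_ne_zero h2 h1.ne'
  refine cover T Q X₁ _ hQpos (fun t => (e 2 : ℤ) * t 2) ?_ ?_
  · intro t ht
    refine exists_prime_not_dvd Q (fun q hq => (hQ q hq).1) X (fun q hq => (hQ q hq).2.1) _
      (hg0 t ht) (lt_of_le_of_lt (hgb t ht) ?_)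
    have h1 : E * Y < X ^ Q.card :=
      lt_of_le_of_lt (Nat.le_mul_of_pos_right _ hHb1) c3
    exact_mod_cast h1
  intro q hq P hP hqP Ω hΩT hΩ
  have hqp := (hQ q hq).1
  have hXq := (hQ q hq).2.1
  have hqX := (hQ q hq).2.2
  -- the auxiliary polynomial
  obtain ⟨c, hc0, hcB, hc⟩ := surf_aux (q := q) (ρ := ρ) (D := D) (Y := Y) hqp e P
    (not_dvd_pow hqp hqP) (Ω : Set (Fin 3 → ℤ)) hY
    (fun t ht => ⟨hΩ t ht, (hT t (hΩT ht)).1, (hT t (hΩT ht)).2.2.1⟩) c1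
    (lt_of_lt_of_le c1' (Nat.pow_le_pow_left hXq _))
  have hcB' : ∀ a, |c a| ≤ ((X₁ ^ ρ : ℕ) : ℤ) := by
    intro a
    refine (hcB a).trans ?_
    have := Nat.pow_le_pow_left hqX ρ
    exact_mod_cast this
  set Sp := Ω.filter fun t => ∀ ω, ∑ a with wgt e a = ω, c a * ∏ j, t j ^ (a j : ℕ) = 0 with hSp
  set Ts : ℕ → Finset (Fin 3 → ℤ) := fun s => Ω.filter fun t =>
    eval t (HP e c s) = 0 ∧ eval t (HP e c (s + 1)) ≠ 0 with hTs
  have hcov : Ω ⊆ Sp ∪ (Finset.range ((D + 1) ^ 3)).biUnion Ts := by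
    intro t ht
    rcases dich e c t (hc t ht) with ⟨s, h1, h2, h3⟩ | h
    · apply Finset.mem_union_right
      rw [Finset.mem_biUnion]
      exact ⟨s, Finset.mem_range.2 h1, Finset.mem_filter.2 ⟨ht, h2, h3⟩⟩
    · exact Finset.mem_union_left _ (Finset.mem_filter.2 ⟨ht, h⟩)
  have hSpc : Sp.card ≤ 9 * ((D + 1) ^ 3 * τ) ^ 2 := by
    refine special_card e he c9 c hcB' Sp fun t ht => ?_
    have ht' := Finset.mem_filter.1 ht
    have htT := hT t (hΩT ht'.1)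
    exact ⟨htT.1, htT.2.1, special e he c7 c hc0 t (fun i => (htT.2.1 i).ne') htT.2.2.2 ht'.2⟩
  have hTsc : ∀ s ∈ Finset.range ((D + 1) ^ 3), (Ts s).card ≤
      Q.card * ((2 * ((D₂ + 1) ^ 2 * N₀) + (2 * D₂ + y₀) ^ 2) * X₁ ^ 3) := by
    intro s hs
    rw [Finset.mem_range] at hs
    refine cover (Ts s) Q X₁ _ hQpos (fun t => (e 2 : ℤ) * t 2 * eval t (HP e c (s + 1))) ?_ ?_
    · intro t ht
      have ht' := Finset.mem_filter.1 ht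
      have htT := hT t (hΩT ht'.1)
      refine exists_prime_not_dvd Q (fun q hq => (hQ q hq).1) X (fun q hq => (hQ q hq).2.1) _
        (mul_ne_zero (hg0 t (hΩT ht'.1)) ht'.2.2) ?_
      rw [abs_mul]
      have h1 := hgb t (hΩT ht'.1)
      have h2 := HP_bd hY hE1 e hE c hcB' t htT.2.2.1 (s + 1) (by omega)
      have h3 : |(e 2 : ℤ) * t 2| * |eval t (HP e c (s + 1))| ≤
          ((E * Y : ℕ) : ℤ) * ((Hb D (X₁ ^ ρ) Y E : ℕ) : ℤ) :=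
        mul_le_mul h1 h2 (abs_nonneg _) (by positivity)
      refine lt_of_le_of_lt h3 ?_
      exact_mod_cast c3
    · intro q' hq' P' hP' hqP' Ω' hΩT' hΩ'
      have hqp' := (hQ q' hq').1
      have hXq' := (hQ q' hq').2.1
      have hqX' := (hQ q' hq').2.2
      have hqp'' : Prime (q' : ℤ) := Nat.prime_iff_prime_int.1 hqp'
      have hP'' := Finset.mem_filter.1 hP'
      have h2' : ¬ (q' : ℤ) ∣ (e 2 : ℤ) * P' 2 ^ (e 2 - 1) :=
        not_dvd_pow hqp' fun h => hqP' (Dvd.dvd.mul_right h _)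
      have hE' : ¬ (q' : ℤ) ∣ eval P' (EU e (HP e c s)) := by
        rw [eval_EU_HP]
        exact fun h => hqP' (Dvd.dvd.mul_left h _)
      have hFP' := (hT P' (hΩT hP''.1)).1
      have hpt : ∀ t ∈ Ω', t ∈ T ∧ eval t (HP e c s) = 0 := by
        intro t ht
        have h1 := Finset.mem_filter.1 (hΩT' ht)
        exact ⟨hΩT h1.1, h1.2.1⟩
      have hrel : ∀ i j, RelOn (Ω' : Set (Fin 3 → ℤ)) i j D₂ (((X₁ ^ ρ₂ : ℕ) : ℤ)) := by
        intro i j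
        refine (curve_aux (ρ := ρ₂) (D := D₂) (Y := Y) hqp' e he (HP e c s) P' hFP' h2' hE'
          (Ω' : Set (Fin 3 → ℤ)) hY (fun t ht => ⟨hΩ' t ht, (hT t (hpt t ht).1).1, (hpt t ht).2,
            (hT t (hpt t ht).1).2.2.1⟩) c2
          (lt_of_lt_of_le c2' (Nat.pow_le_pow_left hXq' _)) i j).mono ?_
        have := Nat.pow_le_pow_left hqX' ρ₂
        exact_mod_cast this
      refine onclass2 hqp' e he (HP e c s) P' hFP' h2' hE' D₂ (X₁ ^ ρ₂) Y LG Z N₀ R y₀ hY Ω' ?_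
        hrel ?_ ?_ ?_ ?_ hij hi hj c8
      · intro t ht
        have h1 := hT t (hpt t ht).1
        exact ⟨hΩ' t ht, h1.1, (hpt t ht).2, h1.2.1, h1.2.2.1, h1.2.2.2⟩
      · intro t ht κ
        refine (FP_pd_bd hY e hE t (hT t (hpt t ht).1).2.2.1 κ).trans ?_
        exact_mod_cast c4
      · intro t ht κ
        have h1 := hT t (hpt t ht).1
        refine (HP_pd_bd hY hE1 e hE c hcB' t (fun i => (h1.2.1 i).ne') h1.2.2.1 s (by omega) κ).trans ?_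
        exact_mod_cast c4'
      · intro κ
        refine le_trans ?_ c5
        exact Nat.mul_le_mul_right _ (Nat.mul_le_mul_right _ (hE κ))
      · exact lt_of_lt_of_le c6 (Nat.pow_le_pow_left hXq' _)
  refine (Finset.card_le_card hcov).trans ((Finset.card_union_le _ _).trans
    (Nat.add_le_add hSpc ((Finset.card_biUnion_le_card_mul _ _ _ hTsc).trans ?_)))
  rw [Finset.card_range]

end Pool.Agent.Y902.FB
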