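import Mathlib
import Pool.Agent.Y902.FB.Cnt
import Pool.Agent.H510R2.Div

/-!
# Choice of the parameters
-/

set_option autoImplicit false

namespace Pool.Agent.Y902.FB

open Finset MvPolynomial

theorem primes_exist (K X : ℕ) (hX : 1 ≤ X) : ∃ Q : Finset ℕ, Q.card = K ∧
    ∀ q ∈ Q, q.Prime ∧ X ≤ q ∧ q ≤ 2 ^ K * X := by
  classical
  induction K with
  | zero => exact ⟨∅, rfl, by simp⟩
  | succ K ih =>
    obtain ⟨Q, hQc, hQ⟩ := ih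
    obtain ⟨p, hp, hlt, hle⟩ := Nat.exists_prime_lt_and_le_two_mul (2 ^ K * X) (by positivity)
    refine ⟨insert p Q, ?_, ?_⟩
    · rw [Finset.card_insert_of_notMem, hQc]
      intro h
      have := (hQ p h).2.2
      omega
    · intro q hq
      rw [Finset.mem_insert] at hq
      rcases hq with rfl | hq
      · refine ⟨hp, ?_, ?_⟩
        · have : X ≤ 2 ^ K * X := Nat.le_mul_of_pos_left _ (by positivity)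
          omega
        · rw [pow_succ]; linarith
      · obtain ⟨h1, h2, h3⟩ := hQ q hq
        refine ⟨h1, h2, h3.trans (Nat.mul_le_mul_right _ (Nat.pow_le_pow_right (by omega) (by omega)))⟩

/-- numbers with few divisors -/
theorem tau_small (r : ℕ) : ∃ c : ℕ, ∀ X : ℕ, c ≤ X → ∀ n : ℕ, 1 ≤ n → n ≤ X ^ r →
    n.divisors.card ≤ X := by
  obtain ⟨C, hC, h⟩ := Pool.Agent.H510R2.divisor_bound (1 / (2 * ((r : ℝ) + 1))) (by positivity)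
  refine ⟨⌈C ^ 2⌉₊ + 1, fun X hX n hn hnX => ?_⟩
  have hX1 : (1 : ℝ) ≤ X := by exact_mod_cast (show 1 ≤ X by omega)
  have hX0 : (0 : ℝ) < X := by linarith
  have hCX : C ^ 2 ≤ X := by
    have h1 := Nat.le_ceil (C ^ 2)
    have h2 : ((⌈C ^ 2⌉₊ + 1 : ℕ) : ℝ) ≤ X := by exact_mod_cast hX
    push_cast at h2
    linarith
  have h1 := h n hn
  have h2 : (n : ℝ) ^ (1 / (2 * ((r : ℝ) + 1))) ≤ (X : ℝ) ^ ((1 : ℝ) / 2) := by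
    have h3 : (n : ℝ) ≤ (X : ℝ) ^ (r : ℝ) := by
      rw [Real.rpow_natCast]; exact_mod_cast hnX
    calc (n : ℝ) ^ (1 / (2 * ((r : ℝ) + 1))) ≤ ((X : ℝ) ^ (r : ℝ)) ^ (1 / (2 * ((r : ℝ) + 1))) :=
          Real.rpow_le_rpow (by positivity) h3 (by positivity)
      _ = (X : ℝ) ^ ((r : ℝ) * (1 / (2 * ((r : ℝ) + 1)))) := (Real.rpow_mul hX0.le _ _).symm
      _ ≤ (X : ℝ) ^ ((1 : ℝ) / 2) := by
          apply Real.rpow_le_rpow_of_exponent_le hX1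
          rw [mul_one_div, div_le_div_iff₀ (by positivity) (by norm_num)]
          linarith
  have h4 : C ≤ (X : ℝ) ^ ((1 : ℝ) / 2) := by
    rw [← Real.sqrt_eq_rpow]
    exact Real.le_sqrt_of_sq_le hCX
  have h5 : C * (n : ℝ) ^ (1 / (2 * ((r : ℝ) + 1))) ≤ X := by
    calc C * (n : ℝ) ^ (1 / (2 * ((r : ℝ) + 1))) ≤ (X : ℝ) ^ ((1 : ℝ) / 2) * (X : ℝ) ^ ((1 : ℝ) / 2) :=
          mul_le_mul h4 h2 (by positivity) (by positivity)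
      _ = X := by
          rw [← Real.rpow_add hX0]
          norm_num
  exact_mod_cast h1.trans h5

/-- **One triple of exponents, not of Fermat type.** -/
theorem count_k (k : ℕ) (hk : 1 ≤ k) : ∃ R D M c : ℕ, 1 ≤ D ∧ 1 ≤ c ∧ 1 ≤ M ∧
    ∀ X E Y : ℕ, 1 ≤ E → c * E ^ M ≤ X → 1 ≤ Y → Y ≤ X ^ k →
    ∀ e : Fin 3 → ℕ, (∀ i, 1 ≤ e i) → (∀ i, e i ≤ E) → ¬ FT e (D ^ 2) →
    ∀ i j : Fin 3, i ≠ j → R + 1 ≤ e i → R + 1 ≤ e j →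
    ∀ T : Finset (Fin 3 → ℤ), (∀ t ∈ T, eval t (FP e) = 0 ∧ (∀ i, 0 < t i) ∧
      (∀ i, |t i| ≤ (Y : ℤ)) ∧ ∀ i j, i ≠ j → IsCoprime (t i) (t j)) → T.card ≤ X ^ 19 := by
  obtain ⟨D, hD⟩ : ∃ D, D = 72 * k ^ 2 := ⟨_, rfl⟩
  obtain ⟨ρ, hρ⟩ : ∃ ρ, ρ = (3 * D + 1) * k := ⟨_, rfl⟩
  obtain ⟨D₂, hD₂⟩ : ∃ D₂, D₂ = 8 * k := ⟨_, rfl⟩
  obtain ⟨ρ₂, hρ₂⟩ : ∃ ρ₂, ρ₂ = (2 * D₂ + 1) * k := ⟨_, rfl⟩
  obtain ⟨h₀, hh₀⟩ : ∃ h₀, h₀ = 2 * ρ + 3 * D * k + 2 := ⟨_, rfl⟩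
  obtain ⟨l₀, hl₀⟩ : ∃ l₀, l₀ = 2 * ρ₂ + 2 * D₂ * k + 1 := ⟨_, rfl⟩
  obtain ⟨K, hK⟩ : ∃ K, K = k + h₀ + 2 := ⟨_, rfl⟩
  obtain ⟨cτ, hcτ⟩ := tau_small (2 * ρ)
  obtain ⟨n₀, hn₀⟩ : ∃ n₀, n₀ = h₀ + 2 * l₀ + 2 := ⟨_, rfl⟩
  obtain ⟨a₁, ha₁⟩ : ∃ a₁, a₁ = (3 * (D + 1)) ^ ((D + 1) ^ 3 + 1) := ⟨_, rfl⟩
  obtain ⟨a₂, ha₂⟩ : ∃ a₂, a₂ = (D + 1) ^ 3 := ⟨_, rfl⟩
  obtain ⟨a₃, ha₃⟩ : ∃ a₃, a₃ = (D₂ + 1) ^ 2 * (D₂ + 1) ^ (D₂ + 1) := ⟨_, rfl⟩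
  obtain ⟨a₄, ha₄⟩ : ∃ a₄, a₄ = 2 ^ K := ⟨_, rfl⟩
  obtain ⟨a₅, ha₅⟩ : ∃ a₅, a₅ = (D₂ + 1) ^ 2 := ⟨_, rfl⟩
  obtain ⟨c, hc⟩ : ∃ c, c = a₁ + (a₂ + 1) + a₃ + a₄ + K + 3 * a₅ + cτ + (k + n₀) + 16 +
      2 * D₂ := ⟨_, rfl⟩
  refine ⟨2 * l₀ + k + 2, D, 2 * ((D + 1) ^ 3 + 1), c, ?_, by omega, by omega, ?_⟩
  · rw [hD]; exact Nat.mul_pos (by norm_num) (Nat.pow_pos hk)
  intro X E Y hE1 hX hY hYX e he hE hFT i j hij hi hj T hT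
  have hEM : 1 ≤ E ^ (2 * ((D + 1) ^ 3 + 1)) := Nat.one_le_pow _ _ hE1
  have hcX : c ≤ X := (Nat.le_mul_of_pos_right c hEM).trans hX
  have hEX' : c * E ≤ X := by
    refine (Nat.mul_le_mul_left c ?_).trans hX
    exact Nat.le_self_pow (by omega) E
  have t₁ : a₁ ≤ c := by omega
  have t₂ : (D + 1) ^ 3 < X := by rw [← ha₂]; omega
  have t₃ : (D₂ + 1) ^ 2 * (D₂ + 1) ^ (D₂ + 1) ≤ X := by rw [← ha₃]; omega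
  have t₄ : 2 ^ K ≤ X := by rw [← ha₄]; omega
  have t₅ : 2 * (D₂ + 1) ^ 2 ≤ X := by rw [← ha₅]; omega
  have t₅' : (D₂ + 1) ^ 2 < X := by rw [← ha₅]; omega
  have t₆ : K ≤ X := by omega
  have t₇ : k + n₀ ≤ c := by omega
  have t₈ : 2 * D₂ ≤ X := by omega
  have t₉ : cτ ≤ X := by omega
  have hX16 : 16 ≤ X := by omega
  have hX1 : 1 ≤ X := by omega
  have hEX : E < X := by
    have h1 : 2 * E ≤ c * E := Nat.mul_le_mul_right _ (by omega)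
    omega
  -- powers
  have hw : (3 * (D + 1) * E ^ 2) ^ ((D + 1) ^ 3 + 1) ≤ X := by
    refine le_trans ?_ hX
    rw [mul_pow, ← pow_mul, ← ha₁]
    exact Nat.mul_le_mul_right _ t₁
  have hYp : ∀ a : ℕ, Y ^ a ≤ X ^ (k * a) := fun a => by
    rw [pow_mul]; exact Nat.pow_le_pow_left hYX a
  have hHb : Hb D ((X ^ 2) ^ ρ) Y E ≤ X ^ h₀ := by
    unfold Hb
    calc (D + 1) ^ 3 * ((X ^ 2) ^ ρ * Y ^ (3 * D) * (3 * (D + 1) * E ^ 2) ^ ((D + 1) ^ 3 + 1)) ≤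
          X * (X ^ (2 * ρ) * X ^ (k * (3 * D)) * X) := by
          rw [← pow_mul X 2 ρ]
          exact Nat.mul_le_mul t₂.le (Nat.mul_le_mul (Nat.mul_le_mul_left _ (hYp _)) hw)
      _ = X ^ h₀ := by rw [hh₀]; ring
  have hLb : Lb D₂ ((X ^ 2) ^ ρ₂) Y ≤ X ^ l₀ := by
    unfold Lb
    calc (D₂ + 1) ^ 2 * ((X ^ 2) ^ ρ₂ * Y ^ (2 * D₂) * (D₂ + 1) ^ (D₂ + 1)) =
          ((D₂ + 1) ^ 2 * (D₂ + 1) ^ (D₂ + 1)) * ((X ^ 2) ^ ρ₂ * Y ^ (2 * D₂)) := by ring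
      _ ≤ X * (X ^ (2 * ρ₂) * X ^ (k * (2 * D₂))) := by
          rw [← pow_mul X 2 ρ₂]
          exact Nat.mul_le_mul t₃ (Nat.mul_le_mul_left _ (hYp _))
      _ = X ^ l₀ := by rw [hl₀]; ring
  obtain ⟨Q, hQc, hQ⟩ := primes_exist K X hX1
  have hX₁ : 2 ^ K * X ≤ X ^ 2 := by rw [sq]; exact Nat.mul_le_mul_right _ t₄
  have hQ' : ∀ q ∈ Q, q.Prime ∧ X ≤ q ∧ q ≤ X ^ 2 := fun q hq =>
    ⟨(hQ q hq).1, (hQ q hq).2.1, (hQ q hq).2.2.trans hX₁⟩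
  have hmain := count_e (E := E) (Y := Y) (X := X) (X₁ := X ^ 2) (D := D) (ρ := ρ) (D₂ := D₂)
    (ρ₂ := ρ₂) (LG := X ^ (k * E + h₀ + 1)) (Z := X ^ (1 + 2 * l₀ + k))
    (N₀ := k * E + n₀) (R := 2 * l₀ + k + 2) (y₀ := X) (τ := X) hY hE1
    (Nat.one_le_pow _ _ hX1) e he hE Q hQ' ?_ ?_ ?_ ?_ ?_ ?_ ?_ ?_ ?_ hFT hij hi hj ?_ ?_ T hT
  · -- conclusion
    refine hmain.trans ?_
    rw [hQc]
    have b1 : K ≤ X := t₆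
    have b2 : (D + 1) ^ 3 ≤ X := t₂.le
    have b3 : k * E + n₀ ≤ X := by
      refine le_trans ?_ hEX'
      calc k * E + n₀ ≤ k * E + n₀ * E := Nat.add_le_add_left (Nat.le_mul_of_pos_right _ hE1) _
        _ = (k + n₀) * E := by ring
        _ ≤ c * E := Nat.mul_le_mul_right _ t₇
    have b4 : 2 * ((D₂ + 1) ^ 2 * (k * E + n₀)) ≤ X * X := by
      calc 2 * ((D₂ + 1) ^ 2 * (k * E + n₀)) = (2 * (D₂ + 1) ^ 2) * (k * E + n₀) := by ring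
        _ ≤ X * X := Nat.mul_le_mul t₅ b3
    have b5 : (2 * D₂ + X) ^ 2 ≤ 4 * X ^ 2 := by
      calc (2 * D₂ + X) ^ 2 ≤ (2 * X) ^ 2 := Nat.pow_le_pow_left (by omega) 2
        _ = 4 * X ^ 2 := by ring
    have b6 : 2 * ((D₂ + 1) ^ 2 * (k * E + n₀)) + (2 * D₂ + X) ^ 2 ≤ X ^ 3 := by
      have h1 : 5 * X ^ 2 ≤ X ^ 3 := by
        rw [pow_succ, mul_comm]; exact Nat.mul_le_mul_left _ (by omega)
      calc _ ≤ X * X + 4 * X ^ 2 := Nat.add_le_add b4 b5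
        _ = 5 * X ^ 2 := by ring
        _ ≤ X ^ 3 := h1
    have b7 : (D + 1) ^ 3 * (K * ((2 * ((D₂ + 1) ^ 2 * (k * E + n₀)) + (2 * D₂ + X) ^ 2) *
        (X ^ 2) ^ 3)) ≤ X ^ 11 := by
      calc _ ≤ X * (X * (X ^ 3 * (X ^ 2) ^ 3)) := by gcongr
        _ = X ^ 11 := by ring
    have b8 : 9 * ((D + 1) ^ 3 * X) ^ 2 ≤ X ^ 11 := by
      calc 9 * ((D + 1) ^ 3 * X) ^ 2 ≤ X * (X * X) ^ 2 := by gcongr; omega
        _ = X ^ 5 := by ring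
        _ ≤ X ^ 11 := Nat.pow_le_pow_right hX1 (by norm_num)
    calc K * ((9 * ((D + 1) ^ 3 * X) ^ 2 + (D + 1) ^ 3 * (K *
          ((2 * ((D₂ + 1) ^ 2 * (k * E + n₀)) + (2 * D₂ + X) ^ 2) * (X ^ 2) ^ 3))) * (X ^ 2) ^ 3)
        ≤ X * ((X ^ 11 + X ^ 11) * (X ^ 2) ^ 3) := by gcongr
      _ = 2 * X ^ 18 := by ring
      _ ≤ X * X ^ 18 := Nat.mul_le_mul_right _ (by omega)
      _ = X ^ 19 := by ring
  · -- c1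
    have h1 : 3 * D + 1 ≤ 3 * (D + 1) := by omega
    calc 8 * ρ ^ 2 = 8 * k ^ 2 * (3 * D + 1) ^ 2 := by rw [hρ]; ring
      _ ≤ 8 * k ^ 2 * (3 * (D + 1)) ^ 2 := Nat.mul_le_mul_left _ (Nat.pow_le_pow_left h1 2)
      _ = (72 * k ^ 2) * (D + 1) ^ 2 := by ring
      _ ≤ (D + 1) * (D + 1) ^ 2 := Nat.mul_le_mul_right _ (by omega)
      _ = (D + 1) ^ 3 := by ring
  · -- c1'
    calc (D + 1) ^ 3 * Y ^ (3 * D) ≤ (D + 1) ^ 3 * X ^ (k * (3 * D)) :=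
          Nat.mul_le_mul_left _ (hYp _)
      _ < X * X ^ (k * (3 * D)) := Nat.mul_lt_mul_of_pos_right t₂ (Nat.pow_pos hX1)
      _ = X ^ (k * (3 * D) + 1) := by ring
      _ ≤ X ^ ρ := Nat.pow_le_pow_right hX1 (by rw [hρ]; nlinarith)
  · -- c2
    have h1 : 2 * D₂ + 1 ≤ 2 * (D₂ + 1) := by omega
    calc 4 * ρ₂ = 4 * k * (2 * D₂ + 1) := by rw [hρ₂]; ring
      _ ≤ 4 * k * (2 * (D₂ + 1)) := Nat.mul_le_mul_left _ h1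
      _ = (8 * k) * (D₂ + 1) := by ring
      _ ≤ (D₂ + 1) * (D₂ + 1) := Nat.mul_le_mul_right _ (by omega)
      _ = (D₂ + 1) ^ 2 := by ring
  · -- c2'
    calc (D₂ + 1) ^ 2 * Y ^ (2 * D₂) ≤ (D₂ + 1) ^ 2 * X ^ (k * (2 * D₂)) :=
          Nat.mul_le_mul_left _ (hYp _)
      _ < X * X ^ (k * (2 * D₂)) := Nat.mul_lt_mul_of_pos_right t₅' (Nat.pow_pos hX1)
      _ = X ^ (k * (2 * D₂) + 1) := by ring
      _ ≤ X ^ ρ₂ := Nat.pow_le_pow_right hX1 (by rw [hρ₂]; nlinarith)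
  · -- c3
    rw [hQc]
    calc E * Y * Hb D ((X ^ 2) ^ ρ) Y E ≤ X * X ^ k * X ^ h₀ := by
          gcongr
      _ = X ^ (k + h₀ + 1) := by ring
      _ < X ^ K := Nat.pow_lt_pow_right (by omega) (by omega)
  · -- c4
    calc E * Y ^ E ≤ X * X ^ (k * E) := Nat.mul_le_mul hEX.le (hYp _)
      _ = X ^ (k * E + 1) := by ring
      _ ≤ _ := Nat.pow_le_pow_right hX1 (by omega)
  · -- c4'
    exact hHb.trans (Nat.pow_le_pow_right hX1 (by omega))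
  · -- c5
    calc E * Lb D₂ ((X ^ 2) ^ ρ₂) Y ^ 2 * Y ≤ X * (X ^ l₀) ^ 2 * X ^ k := by gcongr
      _ = X ^ (1 + 2 * l₀ + k) := by ring
  · -- c6
    calc 3 * (X ^ (k * E + h₀ + 1) * Lb D₂ ((X ^ 2) ^ ρ₂) Y ^ 2) ≤
          3 * (X ^ (k * E + h₀ + 1) * (X ^ l₀) ^ 2) := by gcongr
      _ = 3 * X ^ (k * E + h₀ + 1 + 2 * l₀) := by ring
      _ < X * X ^ (k * E + h₀ + 1 + 2 * l₀) :=
          Nat.mul_lt_mul_of_pos_right (by omega) (Nat.pow_pos hX1)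
      _ = X ^ (k * E + n₀) := by rw [hn₀]; ring
  · -- c8
    calc 2 * X ^ (1 + 2 * l₀ + k) ≤ X * X ^ (1 + 2 * l₀ + k) := Nat.mul_le_mul_right _ (by omega)
      _ = X ^ (2 * l₀ + k + 2) := by ring
      _ < (X + 1) ^ (2 * l₀ + k + 2) := Nat.pow_lt_pow_left (by omega) (by omega)
  · -- c9
    intro n hn1 hn2
    refine hcτ X t₉ n hn1 ?_
    rw [← pow_mul] at hn2
    exact hn2

end Pool.Agent.Y902.FB
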