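import Mathlib
import Pool.Agent.TH888.W2.Weak2
import Pool.Agent.TH888.B1.Arch

/-!
# The exponents are bounded by a power of the logarithm of the bases: the even base
-/

set_option autoImplicit false

namespace Pool.Agent.Y902.FB

open Pool.Agent.TH888.B1 Filter Topology

theorem baker_even : ∃ C κ : ℕ, ∀ S : ℕ, 2 ≤ S →
    ∀ a c i j M : ℕ, ¬ 2 ∣ a → ¬ 2 ∣ c → a ≤ 2 ^ S → c ≤ 2 ^ S → i ≤ 2 ^ S → j ≤ 2 ^ S →
      a ^ i ≠ c ^ j → ((2 : ℕ) : ℤ) ^ M ∣ (a : ℤ) ^ i - (c : ℤ) ^ j → M ≤ C * S ^ κ := by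
  obtain ⟨C, κ, hC⟩ := Pool.Agent.TH888.W2.weakBaker_all 2
  refine ⟨C, κ, ?_⟩
  intro S hpS a c i j M hpa hpc ha hc hi hj hne hdvd
  obtain ⟨p, hp2⟩ : ∃ p : ℕ, p = 2 := ⟨_, rfl⟩
  have hp : Fact p.Prime := ⟨by rw [hp2]; exact Nat.prime_two⟩
  rw [← hp2] at hpS hpa hpc hdvd
  have hco : ∀ n : ℕ, ¬ p ∣ n → Nat.Coprime n (p ^ M) := fun n hn =>
    (((Nat.Prime.coprime_iff_not_dvd hp.out).mpr hn).symm).pow_right M
  have ha0 : 0 < a := Nat.pos_of_ne_zero (by rintro rfl; exact hpa (dvd_zero p))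
  have hc0 : 0 < c := Nat.pos_of_ne_zero (by rintro rfl; exact hpc (dvd_zero p))
  refine hC p S hpS ![a, c] ![(i : ℤ), -(j : ℤ)] M
    ![ZMod.unitOfCoprime a (hco a hpa), ZMod.unitOfCoprime c (hco c hpc)] ?_ ?_ ?_ ?_ ?_ ?_
  · intro t
    fin_cases t <;> simp [ZMod.coe_unitOfCoprime]
  · intro t
    fin_cases t <;> simp [ha0, hc0]
  · intro t
    fin_cases t <;> simp [ha, hc]
  · intro t
    fin_cases t
    · simp only [Fin.zero_eta, Matrix.cons_val_zero, Nat.abs_cast]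
      exact_mod_cast hi
    · change |(-(j : ℤ))| ≤ 2 ^ S
      rw [abs_neg, Nat.abs_cast]
      exact_mod_cast hj
  · simp only [Fin.prod_univ_two, Matrix.cons_val_zero, Matrix.cons_val_one]
    intro h
    apply hne
    have hc' : (c : ℚ) ^ j ≠ 0 := pow_ne_zero _ (by exact_mod_cast hc0.ne')
    rw [zpow_neg, zpow_natCast, zpow_natCast, mul_inv_eq_one₀ hc'] at h
    exact_mod_cast h
  · simp only [Fin.prod_univ_two, Matrix.cons_val_zero, Matrix.cons_val_one]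
    rw [zpow_neg, zpow_natCast, zpow_natCast, mul_inv_eq_one]
    apply Units.ext
    rw [Units.val_pow_eq_pow_val, Units.val_pow_eq_pow_val, ZMod.coe_unitOfCoprime,
      ZMod.coe_unitOfCoprime]
    have h1 : (((p ^ M : ℕ) : ℤ)) ∣ (a : ℤ) ^ i - (c : ℤ) ^ j := by exact_mod_cast hdvd
    rw [← ZMod.intCast_zmod_eq_zero_iff_dvd] at h1
    push_cast at h1
    exact sub_eq_zero.mp h1

/-- The exponents of `a ^ l + s b ^ m = t c ^ k` (`a, b, c` positive) when `a` is even.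
The exponents of a base `1` are not bounded. -/
theorem exp_bound_even : ∃ C κ : ℕ, ∀ S₀ : ℕ, 2 ≤ S₀ →
    ∀ a b c l m k : ℕ, 1 ≤ b → 1 ≤ c → a ≤ 2 ^ S₀ → b ≤ 2 ^ S₀ →
      c ≤ 2 ^ S₀ → Nat.Coprime b c → 2 ∣ a → ¬ 2 ∣ b → ¬ 2 ∣ c →
      2 ≤ l → 0 < m → 0 < k → ∀ s t : ℤ, (s = 1 ∨ s = -1) → (t = 1 ∨ t = -1) →
        (a : ℤ) ^ l + s * (b : ℤ) ^ m = t * (c : ℤ) ^ k → a ≠ 0 →
        l ≤ C * S₀ ^ κ ∧ (2 ≤ b → m ≤ C * S₀ ^ κ) ∧ (2 ≤ c → k ≤ C * S₀ ^ κ) := by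
  obtain ⟨C, κ, hC⟩ := baker_even
  obtain ⟨L₀, hL₀⟩ := growth (4 * (10 ^ 10 + 2 * C + 2)) (κ + 4)
  refine ⟨(10 ^ 10 + 2 * C + 2) * (L₀ + 1) ^ (κ + 4), κ + 4, ?_⟩
  intro S₀ hpS a b c l m k hb hc haS hbS hcS hbc hpa hpb hpc hl2 hm hk s t hs ht h ha0
  have hS₀ : 1 ≤ S₀ := by omega
  have hl : 0 < l := by omega
  have hs2 : s * s = 1 := by rcases hs with rfl | rfl <;> norm_num
  have ht2 : t * t = 1 := by rcases ht with rfl | rfl <;> norm_num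
  have ha3 : 2 ≤ a := Nat.le_of_dvd (Nat.pos_of_ne_zero ha0) hpa
  -- the exponents of the bases `b`, `c`
  obtain ⟨i, m', hi, him, hm'⟩ : ∃ i m' : ℕ, (b : ℤ) ^ i = (b : ℤ) ^ (2 * m) ∧ i ≤ 2 * m' ∧
      ((2 ≤ b ∧ m' = m ∧ i = 2 * m) ∨ (b = 1 ∧ m' = 0)) := by
    rcases Nat.lt_or_ge b 2 with h1 | h1
    · have : b = 1 := by omega
      subst this
      exact ⟨0, 0, by simp, by omega, Or.inr ⟨rfl, rfl⟩⟩
    · exact ⟨2 * m, m, rfl, le_rfl, Or.inl ⟨h1, rfl, rfl⟩⟩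
  obtain ⟨j, k', hj, hjk, hk'⟩ : ∃ j k' : ℕ, (c : ℤ) ^ j = (c : ℤ) ^ (2 * k) ∧ j ≤ 2 * k' ∧
      ((2 ≤ c ∧ k' = k ∧ j = 2 * k) ∨ (c = 1 ∧ k' = 0)) := by
    rcases Nat.lt_or_ge c 2 with h1 | h1
    · have : c = 1 := by omega
      subst this
      exact ⟨0, 0, by simp, by omega, Or.inr ⟨rfl, rfl⟩⟩
    · exact ⟨2 * k, k, rfl, le_rfl, Or.inl ⟨h1, rfl, rfl⟩⟩
  obtain ⟨X, hX⟩ : ∃ X, X = max (max l m') k' := ⟨_, rfl⟩
  obtain ⟨S, hS⟩ : ∃ S, S = max S₀ (Nat.log 2 (2 * X) + 1) := ⟨_, rfl⟩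
  have hS₀S : S₀ ≤ S := by rw [hS]; exact le_max_left _ _
  have hXS : 2 * X ≤ 2 ^ S := by
    have h1 : 2 * X < 2 ^ (Nat.log 2 (2 * X) + 1) := Nat.lt_pow_succ_log_self (by norm_num) _
    rw [hS]
    exact h1.le.trans (Nat.pow_le_pow_right (by norm_num) (le_max_right _ _))
  have h2S : (2 : ℕ) ^ S₀ ≤ 2 ^ S := Nat.pow_le_pow_right (by norm_num) hS₀S
  have hlX : l ≤ X := by rw [hX]; exact (le_max_left _ _).trans (le_max_left _ _)
  have hmX : m' ≤ X := by rw [hX]; exact (le_max_right _ _).trans (le_max_left _ _)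
  have hkX : k' ≤ X := by rw [hX]; exact le_max_right _ _
  have hSpos : 1 ≤ S := hS₀.trans hS₀S
  -- nondegeneracy
  have hne : b ^ i ≠ c ^ j := by
    intro he
    have he' : (b : ℤ) ^ (2 * m) = (c : ℤ) ^ (2 * k) := by rw [← hi, ← hj]; exact_mod_cast he
    have h1 : b ^ (2 * m) = c ^ (2 * k) := by exact_mod_cast he'
    have h2 : b ^ (2 * m) = 1 := by
      have h3 : Nat.Coprime (b ^ (2 * m)) (c ^ (2 * k)) := Nat.Coprime.pow _ _ hbc
      rw [← h1] at h3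
      exact (Nat.coprime_self _).mp h3
    have h3 : c ^ (2 * k) = 1 := by rw [← h1, h2]
    have hb1 : b = 1 := by
      rcases Nat.pow_eq_one.mp h2 with h | h
      · exact h
      · omega
    have hc1 : c = 1 := by
      rcases Nat.pow_eq_one.mp h3 with h | h
      · exact h
      · omega
    rw [hb1, hc1] at h
    simp only [Nat.cast_one, one_pow, mul_one] at h
    have h4 : (3 : ℤ) ≤ (a : ℤ) ^ l := by
      have h6 : (2 : ℤ) ≤ a := by exact_mod_cast ha3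
      calc (3 : ℤ) ≤ 2 ^ 2 := by norm_num
        _ ≤ (a : ℤ) ^ 2 := pow_le_pow_left₀ (by norm_num) h6 2
        _ ≤ (a : ℤ) ^ l := pow_le_pow_right₀ (by linarith) hl2
    rcases hs with rfl | rfl <;> rcases ht with rfl | rfl <;> linarith
  -- bound for `l`
  have hlB : l ≤ C * S ^ κ := by
    refine hC S (hpS.trans hS₀S) b c i j l hpb hpc (hbS.trans h2S) (hcS.trans h2S)
      (by omega) (by omega) hne ?_
    have h1 : (b : ℤ) ^ i - (c : ℤ) ^ j = (a : ℤ) ^ l * (-((a : ℤ) ^ l + 2 * s * (b : ℤ) ^ m)) := by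
      have h5 : (c : ℤ) ^ (2 * k) = ((a : ℤ) ^ l + s * (b : ℤ) ^ m) ^ 2 := by
        rw [h]
        have : (t * (c : ℤ) ^ k) ^ 2 = (t * t) * (c : ℤ) ^ (2 * k) := by ring
        rw [this, ht2, one_mul]
      rw [hi, hj, h5]
      linear_combination (-((b : ℤ) ^ m) ^ 2) * hs2
    rw [h1]
    apply Dvd.dvd.mul_right
    exact pow_dvd_pow_of_dvd (by exact_mod_cast hpa) l
  -- the size of `a ^ l`
  have hal : (a : ℤ) ^ l ≤ 2 ^ (S * (C * S ^ κ)) := by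
    calc (a : ℤ) ^ l ≤ ((2 : ℤ) ^ S) ^ l :=
          pow_le_pow_left₀ (by positivity) (by exact_mod_cast haS.trans h2S) _
      _ = 2 ^ (S * l) := by rw [← pow_mul]
      _ ≤ 2 ^ (S * (C * S ^ κ)) := pow_le_pow_right₀ (by norm_num) (Nat.mul_le_mul_left _ hlB)
  obtain ⟨T, hT⟩ : ∃ T, T = S * (C * S ^ κ) := ⟨_, rfl⟩
  rw [← hT] at hal
  have hal0 : (0 : ℤ) < (a : ℤ) ^ l := by positivity
  have hbm0 : (0 : ℤ) < (b : ℤ) ^ m := by positivity
  have hck0 : (0 : ℤ) < (c : ℤ) ^ k := by positivity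
  have hpow : ∀ {x i E : ℕ}, 2 ≤ x → (x : ℤ) ^ i ≤ 2 ^ E → i ≤ E := by
    intro x i E hx hxi
    have h1 : x ^ i ≤ 2 ^ E := by exact_mod_cast hxi
    have : 2 ^ i ≤ 2 ^ E := (Nat.pow_le_pow_left hx i).trans h1
    exact (Nat.pow_le_pow_iff_right (by norm_num)).mp this
  -- bound for `m'` and `k'`
  have hmk : m' ≤ 2 * 10 ^ 9 * S ^ 4 + 2 * T + 5 ∧ k' ≤ 2 * 10 ^ 9 * S ^ 4 + 2 * T + 5 := by
    -- small powers
    have hcases : ((b : ℤ) ^ m ≤ 2 ^ (T + 1) ∧ (c : ℤ) ^ k ≤ 2 ^ (T + 1)) ∨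
        |(c : ℤ) ^ k - (b : ℤ) ^ m| ≤ 2 ^ T := by
      have h2T : (2 : ℤ) ^ T ≤ 2 ^ (T + 1) := pow_le_pow_right₀ (by norm_num) (by omega)
      rcases hs with rfl | rfl <;> rcases ht with rfl | rfl
      · right; rw [abs_of_nonneg (by linarith)]; linarith
      · linarith
      · left; constructor <;> linarith
      · right; rw [abs_of_nonpos (by linarith)]; linarith
    have h1T : (1 : ℤ) ≤ 2 ^ T := one_le_pow₀ (by norm_num)
    rcases hcases with ⟨h1, h2⟩ | h1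
    · constructor
      · rcases hm' with ⟨h3, h4, -⟩ | ⟨-, h4⟩
        · rw [h4]; have := hpow h3 h1; omega
        · rw [h4]; exact Nat.zero_le _
      · rcases hk' with ⟨h3, h4, -⟩ | ⟨-, h4⟩
        · rw [h4]; have := hpow h3 h2; omega
        · rw [h4]; exact Nat.zero_le _
    · rcases hm' with ⟨h3, h4, -⟩ | ⟨h3, h4⟩ <;> rcases hk' with ⟨h5, h6, -⟩ | ⟨h5, h6⟩
      · have hne2 : c ^ k ≠ b ^ m := by
          intro he
          have h7 : Nat.Coprime (b ^ m) (c ^ k) := Nat.Coprime.pow _ _ hbc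
          rw [he, Nat.coprime_self] at h7
          rcases Nat.pow_eq_one.mp h7 with h8 | h8 <;> omega
        obtain ⟨h7, h8⟩ := arch_diff hSpos h3 h5 (hbS.trans h2S) (hcS.trans h2S) hm hk
          (by rw [← h6]; omega) hne2 h1
        rw [h4, h6]
        omega
      · rw [h5] at h1
        simp only [Nat.cast_one, one_pow] at h1
        have h7 : (b : ℤ) ^ m ≤ 2 ^ (T + 1) := by
          have := (abs_le.mp h1).1
          rw [pow_succ]; linarith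
        rw [h4, h6]
        have := hpow h3 h7
        omega
      · rw [h3] at h1
        simp only [Nat.cast_one, one_pow] at h1
        have h7 : (c : ℤ) ^ k ≤ 2 ^ (T + 1) := by
          have := (abs_le.mp h1).2
          rw [pow_succ]; linarith
        rw [h4, h6]
        have := hpow h5 h7
        omega
      · rw [h4, h6]; omega
  -- conclusion
  have hSκ4 : S ^ κ ≤ S ^ (κ + 4) := Nat.pow_le_pow_right hSpos (by omega)
  have hS4 : S ^ 4 ≤ S ^ (κ + 4) := Nat.pow_le_pow_right hSpos (by omega)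
  have hSκ1 : S ^ (κ + 1) ≤ S ^ (κ + 4) := Nat.pow_le_pow_right hSpos (by omega)
  have h1S : 1 ≤ S ^ (κ + 4) := Nat.one_le_pow _ _ hSpos
  have hTS : T ≤ C * S ^ (κ + 4) := by
    calc T = C * S ^ (κ + 1) := by rw [hT]; ring
      _ ≤ _ := Nat.mul_le_mul_left _ hSκ1
  have hXB2 : X ≤ (10 ^ 10 + 2 * C + 2) * S ^ (κ + 4) := by
    have e1 : l ≤ (10 ^ 10 + 2 * C + 2) * S ^ (κ + 4) :=
      hlB.trans (Nat.mul_le_mul (by omega) hSκ4)
    have e2 : 2 * 10 ^ 9 * S ^ 4 + 2 * T + 5 ≤ (10 ^ 10 + 2 * C + 2) * S ^ (κ + 4) := by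
      calc 2 * 10 ^ 9 * S ^ 4 + 2 * T + 5 ≤ 2 * 10 ^ 9 * S ^ (κ + 4) + 2 * (C * S ^ (κ + 4)) +
            5 * S ^ (κ + 4) := by
            have := Nat.mul_le_mul_left (2 * 10 ^ 9) hS4
            omega
        _ = (2 * 10 ^ 9 + 2 * C + 5) * S ^ (κ + 4) := by ring
        _ ≤ _ := Nat.mul_le_mul_right _ (by omega)
    rw [hX]
    exact max_le (max_le e1 (hmk.1.trans e2)) (hmk.2.trans e2)
  have hfin : X ≤ (10 ^ 10 + 2 * C + 2) * (L₀ + 1) ^ (κ + 4) * S₀ ^ (κ + 4) := by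
    have hS0p : 1 ≤ S₀ ^ (κ + 4) := Nat.one_le_pow _ _ hS₀
    have hL0p : 1 ≤ (L₀ + 1) ^ (κ + 4) := Nat.one_le_pow _ _ (by omega)
    rcases le_total (Nat.log 2 (2 * X) + 1) S₀ with h1 | h1
    · have h2 : S = S₀ := by rw [hS]; exact max_eq_left h1
      rw [h2] at hXB2
      calc X ≤ _ := hXB2
        _ ≤ (10 ^ 10 + 2 * C + 2) * (L₀ + 1) ^ (κ + 4) * S₀ ^ (κ + 4) :=
          Nat.mul_le_mul_right _ (Nat.le_mul_of_pos_right _ hL0p)
    · have hSL : S = Nat.log 2 (2 * X) + 1 := by rw [hS]; exact max_eq_right h1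
      have hX0 : 2 * X ≠ 0 := by omega
      have h2 : 2 ^ (Nat.log 2 (2 * X)) ≤ 2 * X := Nat.pow_log_le_self 2 hX0
      have h3 : 2 ^ S ≤ 4 * (10 ^ 10 + 2 * C + 2) * S ^ (κ + 4) := by
        calc 2 ^ S = 2 * 2 ^ (Nat.log 2 (2 * X)) := by rw [hSL, pow_succ]; ring
          _ ≤ 2 * (2 * X) := Nat.mul_le_mul_left _ h2
          _ ≤ 2 * (2 * ((10 ^ 10 + 2 * C + 2) * S ^ (κ + 4))) := by
            exact Nat.mul_le_mul_left _ (Nat.mul_le_mul_left _ hXB2)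
          _ = _ := by ring
      have h4 := hL₀ S h3
      calc X ≤ _ := hXB2
        _ ≤ (10 ^ 10 + 2 * C + 2) * (L₀ + 1) ^ (κ + 4) :=
          Nat.mul_le_mul_left _ (Nat.pow_le_pow_left (by omega) _)
        _ ≤ _ := Nat.le_mul_of_pos_right _ hS0p
  refine ⟨hlX.trans hfin, fun hb2 => ?_, fun hc2 => ?_⟩
  · rcases hm' with ⟨-, h4, -⟩ | ⟨h1, -⟩
    · rw [← h4]; exact hmX.trans hfin
    · omega
  · rcases hk' with ⟨-, h4, -⟩ | ⟨h1, -⟩
    · rw [← h4]; exact hkX.trans hfin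
    · omega

end Pool.Agent.Y902.FB
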