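import Mathlib
import Pool.Agent.Y902.FB.Exp

/-!
# The exponents in `a ^ l + b ^ m = c ^ n` are bounded by a power of the logarithm of the bases
-/

set_option autoImplicit false

namespace Pool.Agent.Y902.FB

theorem exp_bound_FC : ∃ C κ : ℕ, ∀ S : ℕ, 2 ≤ S → ∀ a b c l m n : ℕ, 1 ≤ a → 1 ≤ b → 1 ≤ c →
    a ≤ 2 ^ S → b ≤ 2 ^ S → c ≤ 2 ^ S → Nat.Coprime a b → Nat.Coprime a c → Nat.Coprime b c →
    2 ≤ l → 2 ≤ m → 2 ≤ n → a ^ l + b ^ m = c ^ n →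
    (2 ≤ a → l ≤ C * S ^ κ) ∧ (2 ≤ b → m ≤ C * S ^ κ) ∧ (2 ≤ c → n ≤ C * S ^ κ) := by
  obtain ⟨C, κ, h⟩ := exp_bound_even
  refine ⟨C, κ, ?_⟩
  intro S hS a b c l m n ha hb hc haS hbS hcS hab hac hbc hl hm hn heq
  have hz : (a : ℤ) ^ l + (b : ℤ) ^ m = (c : ℤ) ^ n := by exact_mod_cast heq
  have hodd : ∀ {x y : ℕ}, Nat.Coprime x y → 2 ∣ x → ¬ 2 ∣ y := by
    intro x y hxy hx hy
    have h1 := Nat.dvd_gcd hx hy
    rw [hxy] at h1
    omega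
  by_cases h2a : 2 ∣ a
  · obtain ⟨k1, k2, k3⟩ := h S hS a b c l m n hb hc haS hbS hcS hbc h2a (hodd hab h2a)
      (hodd hac h2a) hl (by omega) (by omega) 1 1 (Or.inl rfl) (Or.inl rfl)
      (by rw [one_mul, one_mul]; exact hz) (by omega)
    exact ⟨fun _ => k1, k2, k3⟩
  by_cases h2b : 2 ∣ b
  · obtain ⟨k1, k2, k3⟩ := h S hS b a c m l n ha hc hbS haS hcS hac h2b (hodd hab.symm h2b)
      (hodd hbc h2b) hm (by omega) (by omega) 1 1 (Or.inl rfl) (Or.inl rfl)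
      (by rw [one_mul, one_mul, add_comm]; exact hz) (by omega)
    exact ⟨k2, fun _ => k1, k3⟩
  have h2c : 2 ∣ c := by
    have h1 : Odd (a ^ l) := (Nat.odd_iff.2 (by omega)).pow
    have h2 : Odd (b ^ m) := (Nat.odd_iff.2 (by omega)).pow
    have h3 : Even (c ^ n) := by rw [← heq]; exact h1.add_odd h2
    have h4 := (Nat.even_pow.1 h3).1
    exact h4.two_dvd
  obtain ⟨k1, k2, k3⟩ := h S hS c a b n l m ha hb hcS haS hbS hab h2c (hodd hac.symm h2c)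
    (hodd hbc.symm h2c) hn (by omega) (by omega) (-1) 1 (Or.inr rfl) (Or.inl rfl)
    (by rw [one_mul]; linarith) (by omega)
  exact ⟨k2, k3, fun _ => k1⟩

end Pool.Agent.Y902.FB
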