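import Mathlib
import Pool.Agent.Y902.FB.Par
import Pool.Agent.Y902.FB.Ftc
import Pool.Agent.Y902.FB.Exq
import Pool.Agent.W232.FC.Fin

/-!
# The number of solutions of the Fermat-Catalan equation with bases up to `Y`
-/

set_option autoImplicit false

namespace Pool.Agent.Y902.FB

open Finset MvPolynomial

/-- The value triples `(a ^ l, b ^ m, c ^ n)` of the solutions of `a ^ l + b ^ m = c ^ n` with
pairwise coprime `a, b, c ≤ Y` and exponents at least `2`, at least one of them at least `R`. -/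
def Triples (Y R : ℕ) : Set (ℕ × ℕ × ℕ) :=
  {v | ∃ a b c l m n : ℕ, 0 < a ∧ 0 < b ∧ 0 < c ∧ a ≤ Y ∧ b ≤ Y ∧ c ≤ Y ∧
    Nat.Coprime a b ∧ Nat.Coprime a c ∧ Nat.Coprime b c ∧ 2 ≤ l ∧ 2 ≤ m ∧ 2 ≤ n ∧
    (R ≤ l ∨ R ≤ m ∨ R ≤ n) ∧ a ^ l + b ^ m = c ^ n ∧ v = (a ^ l, b ^ m, c ^ n)}

/-- the points on the surface -/
def SolE (e : Fin 3 → ℕ) (Y : ℕ) : Set (Fin 3 → ℤ) :=
  {t | eval t (FP e) = 0 ∧ (∀ i, 0 < t i) ∧ (∀ i, |t i| ≤ (Y : ℤ)) ∧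
    ∀ i j, i ≠ j → IsCoprime (t i) (t j)}

theorem SolE_finite (e : Fin 3 → ℕ) (Y : ℕ) : (SolE e Y).Finite := by
  refine (Set.Finite.pi' fun _ : Fin 3 => Set.finite_Icc (-(Y : ℤ)) Y).subset ?_
  intro t ht i
  have h := abs_le.1 (ht.2.2.1 i)
  exact ⟨h.1, h.2⟩

/-- the value triple -/
def val (e : Fin 3 → ℕ) (t : Fin 3 → ℤ) : ℕ × ℕ × ℕ :=
  ((t 0).natAbs ^ e 0, (t 1).natAbs ^ e 1, (t 2).natAbs ^ e 2)

theorem ev_poly (A p : ℕ) (a : ℝ) (ha : 0 < a) : ∃ Y₀ : ℕ, ∀ Y : ℕ, Y₀ ≤ Y →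
    ((A * (Nat.log 2 Y + 2) ^ p : ℕ) : ℝ) ≤ (Y : ℝ) ^ a := by
  obtain ⟨Y₁, h₁⟩ := Pool.Agent.W232.FC.ev_log (a / (2 * ((p : ℝ) + 1))) (by positivity)
  obtain ⟨Y₂, h₂⟩ := Pool.Agent.W232.FC.ev_const ((A : ℝ) * 2 ^ p) (a / 2) (by positivity)
  refine ⟨Y₁ + Y₂ + 1, fun Y hY => ?_⟩
  have g₁ := h₁ Y (by omega)
  have g₂ := h₂ Y (by omega)
  have hY1 : (1 : ℝ) ≤ Y := by exact_mod_cast (show 1 ≤ Y by omega)
  have hY0 : (0 : ℝ) < Y := by linarith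
  have h3 : ((Nat.log 2 Y + 2 : ℕ) : ℝ) ≤ 2 * (Y : ℝ) ^ (a / (2 * ((p : ℝ) + 1))) := by
    push_cast at g₁ ⊢
    have : (0 : ℝ) ≤ (Nat.log 2 Y : ℝ) := by positivity
    linarith
  have h4 : ((Nat.log 2 Y + 2 : ℕ) : ℝ) ^ p ≤ 2 ^ p * (Y : ℝ) ^ (a / 2) := by
    calc ((Nat.log 2 Y + 2 : ℕ) : ℝ) ^ p ≤ (2 * (Y : ℝ) ^ (a / (2 * ((p : ℝ) + 1)))) ^ p :=
          pow_le_pow_left₀ (by positivity) h3 p
      _ = 2 ^ p * ((Y : ℝ) ^ (a / (2 * ((p : ℝ) + 1)))) ^ p := mul_pow _ _ _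
      _ = 2 ^ p * (Y : ℝ) ^ (a / (2 * ((p : ℝ) + 1)) * p) := by
          rw [← Real.rpow_natCast ((Y : ℝ) ^ (a / (2 * ((p : ℝ) + 1)))) p, ← Real.rpow_mul hY0.le]
      _ ≤ 2 ^ p * (Y : ℝ) ^ (a / 2) := by
          apply mul_le_mul_of_nonneg_left _ (by positivity)
          apply Real.rpow_le_rpow_of_exponent_le hY1
          rw [div_mul_eq_mul_div, div_le_div_iff₀ (by positivity) (by norm_num)]
          nlinarith
  calc ((A * (Nat.log 2 Y + 2) ^ p : ℕ) : ℝ) = (A : ℝ) * ((Nat.log 2 Y + 2 : ℕ) : ℝ) ^ p := by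
        push_cast; ring
    _ ≤ (A : ℝ) * (2 ^ p * (Y : ℝ) ^ (a / 2)) := mul_le_mul_of_nonneg_left h4 (by positivity)
    _ = ((A : ℝ) * 2 ^ p) * (Y : ℝ) ^ (a / 2) := by ring
    _ ≤ (Y : ℝ) ^ (a / 2) * (Y : ℝ) ^ (a / 2) := mul_le_mul_of_nonneg_right g₂ (by positivity)
    _ = (Y : ℝ) ^ a := by rw [← Real.rpow_add hY0]; ring_nf

/-- all exponents bounded, two of them large -/
theorem count_all (k : ℕ) (hk : 1 ≤ k) : ∃ Rs A M : ℕ, 1 ≤ Rs ∧ 1 ≤ A ∧ 1 ≤ M ∧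
    ∀ X E Y : ℕ, 1 ≤ E → A * E ^ M ≤ X → 1 ≤ Y → Y ≤ X ^ k →
    ∀ e : Fin 3 → ℕ, (∀ i, 1 ≤ e i) → (∀ i, e i ≤ E) →
    ∀ i j : Fin 3, i ≠ j → Rs ≤ e i → Rs ≤ e j → (SolE e Y).ncard ≤ X ^ 19 := by
  obtain ⟨R, D, M, c, hD, hc, hM, h⟩ := count_k k hk
  refine ⟨R + 1 + (D ^ 2) ^ 3 * (k * (D ^ 2) ^ 3 + 2), c + 2, M + 2, by omega,
    by omega, by omega, ?_⟩
  intro X E Y hE1 hX hY hYX e he hE i j hij hi hj
  have hp : E ^ M ≤ E ^ (M + 2) := Nat.pow_le_pow_right hE1 (by omega)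
  have hp2 : E ^ 2 ≤ E ^ (M + 2) := Nat.pow_le_pow_right hE1 (by omega)
  have hE2 : 1 ≤ E ^ 2 := Nat.one_le_pow _ _ hE1
  have hEX : E ^ 2 < X := by
    have h1 : (c + 2) * E ^ (M + 2) = c * E ^ (M + 2) + 2 * E ^ (M + 2) := by ring
    omega
  have hcX : c * E ^ M ≤ X := by
    refine le_trans ?_ hX
    exact Nat.mul_le_mul (by omega) hp
  have hX1 : 1 ≤ X := by omega
  rw [Set.ncard_eq_toFinset_card _ (SolE_finite e Y)]
  have hT : ∀ t ∈ (SolE_finite e Y).toFinset, eval t (FP e) = 0 ∧ (∀ i, 0 < t i) ∧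
      (∀ i, |t i| ≤ (Y : ℤ)) ∧ ∀ i j, i ≠ j → IsCoprime (t i) (t j) := by
    intro t ht
    rw [Set.Finite.mem_toFinset] at ht
    exact ht
  by_cases hFT : FT e (D ^ 2)
  · refine (count_ft k (D ^ 2) (Nat.one_le_pow _ _ hD) X E Y hE1 hEX hY hYX e he hE hFT i
      (by omega) _ hT).trans ?_
    exact Nat.pow_le_pow_right hX1 (by norm_num)
  · exact h X E Y hE1 hcX hY hYX e he hE hFT i j hij (by omega) (by omega) _ hT

/-- a solution with two large exponents (the exponent of a base one may be changed) gives a point,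
the others have a small base and a small value -/
theorem classify {Y E Rs a b c l m n : ℕ} (ha : 0 < a) (hb : 0 < b)
    (hc : 0 < c) (haY : a ≤ Y) (hbY : b ≤ Y) (hcY : c ≤ Y) (hab : Nat.Coprime a b)
    (hac : Nat.Coprime a c) (hbc : Nat.Coprime b c) (hl : 2 ≤ l) (hm : 2 ≤ m) (hn : 2 ≤ n)
    (heq : a ^ l + b ^ m = c ^ n) (hRs : 1 ≤ Rs) (hE : Rs ≤ E) (hlE : 2 ≤ a → l ≤ E)
    (hmE : 2 ≤ b → m ≤ E) (hnE : n ≤ E) :
    (∃ e : Fin 3 → ℕ, (∀ i, 1 ≤ e i) ∧ (∀ i, e i ≤ E) ∧ (∃ i j : Fin 3, i ≠ j ∧ Rs ≤ e i ∧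
      Rs ≤ e j) ∧ ∃ t ∈ SolE e Y, val e t = (a ^ l, b ^ m, c ^ n)) ∨ c ^ n ≤ 2 * Y ^ Rs := by
  classical
  have hY : 1 ≤ Y := by omega
  -- the modified exponents
  obtain ⟨l', hl'1, hl'2, hl'E, hl'3⟩ : ∃ l', a ^ l' = a ^ l ∧ 1 ≤ l' ∧ l' ≤ E ∧
      (l' = l ∨ (a = 1 ∧ l' = Rs)) := by
    rcases Nat.lt_or_ge a 2 with h | h
    · have h1 : a = 1 := by omega
      exact ⟨Rs, by rw [h1, one_pow, one_pow], hRs, hE, Or.inr ⟨h1, rfl⟩⟩
    · exact ⟨l, rfl, by omega, hlE h, Or.inl rfl⟩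
  obtain ⟨m', hm'1, hm'2, hm'E, hm'3⟩ : ∃ m', b ^ m' = b ^ m ∧ 1 ≤ m' ∧ m' ≤ E ∧
      (m' = m ∨ (b = 1 ∧ m' = Rs)) := by
    rcases Nat.lt_or_ge b 2 with h | h
    · have h1 : b = 1 := by omega
      exact ⟨Rs, by rw [h1, one_pow, one_pow], hRs, hE, Or.inr ⟨h1, rfl⟩⟩
    · exact ⟨m, rfl, by omega, hmE h, Or.inl rfl⟩
  by_cases htwo : (Rs ≤ l' ∧ Rs ≤ m') ∨ (Rs ≤ l' ∧ Rs ≤ n) ∨ (Rs ≤ m' ∧ Rs ≤ n)
  · left
    refine ⟨![l', m', n], ?_, ?_, ?_, ?_⟩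
    · intro i; fin_cases i
      · exact hl'2
      · exact hm'2
      · exact (by omega : 1 ≤ n)
    · intro i; fin_cases i
      · exact hl'E
      · exact hm'E
      · exact hnE
    · rcases htwo with h | h | h
      · exact ⟨0, 1, by decide, h.1, h.2⟩
      · exact ⟨0, 2, by decide, h.1, h.2⟩
      · exact ⟨1, 2, by decide, h.1, h.2⟩
    · refine ⟨![(a : ℤ), (b : ℤ), (c : ℤ)], ⟨?_, ?_, ?_, ?_⟩, ?_⟩
      · rw [eval_FP]
        simp only [Matrix.cons_val_zero, Matrix.cons_val_one, Matrix.cons_val]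
        have h1 : (a : ℤ) ^ l' + (b : ℤ) ^ m' = (c : ℤ) ^ n := by
          have : a ^ l' + b ^ m' = c ^ n := by rw [hl'1, hm'1, heq]
          exact_mod_cast this
        linarith
      · intro i; fin_cases i
        · change (0 : ℤ) < (a : ℤ); exact_mod_cast ha
        · change (0 : ℤ) < (b : ℤ); exact_mod_cast hb
        · change (0 : ℤ) < (c : ℤ); exact_mod_cast hc
      · intro i; fin_cases i
        · change |(a : ℤ)| ≤ (Y : ℤ); rw [Nat.abs_cast]; exact_mod_cast haY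
        · change |(b : ℤ)| ≤ (Y : ℤ); rw [Nat.abs_cast]; exact_mod_cast hbY
        · change |(c : ℤ)| ≤ (Y : ℤ); rw [Nat.abs_cast]; exact_mod_cast hcY
      · have k1 : IsCoprime (a : ℤ) (b : ℤ) := Nat.isCoprime_iff_coprime.2 hab
        have k2 : IsCoprime (a : ℤ) (c : ℤ) := Nat.isCoprime_iff_coprime.2 hac
        have k3 : IsCoprime (b : ℤ) (c : ℤ) := Nat.isCoprime_iff_coprime.2 hbc
        intro i j hij
        fin_cases i <;> fin_cases j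
        · exact absurd rfl hij
        · exact k1
        · exact k2
        · exact k1.symm
        · exact absurd rfl hij
        · exact k3
        · exact k2.symm
        · exact k3.symm
        · exact absurd rfl hij
      · simp only [val, Matrix.cons_val_zero, Matrix.cons_val_one, Matrix.cons_val,
          Int.natAbs_natCast]
        rw [hl'1, hm'1]
  · right
    push Not at htwo
    obtain ⟨n1, n2, n3⟩ := htwo
    -- the value is small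
    rcases Nat.lt_or_ge n Rs with h | h
    · calc c ^ n ≤ Y ^ n := Nat.pow_le_pow_left hcY _
        _ ≤ Y ^ Rs := Nat.pow_le_pow_right hY h.le
        _ ≤ 2 * Y ^ Rs := by omega
    · have h1 : l' < Rs := by by_contra hh; exact absurd h (by have := n2 (by omega); omega)
      have h2 : m' < Rs := by by_contra hh; exact absurd h (by have := n3 (by omega); omega)
      rw [← heq, ← hl'1, ← hm'1]
      have h3 : a ^ l' ≤ Y ^ Rs :=
        (Nat.pow_le_pow_left haY _).trans (Nat.pow_le_pow_right hY h1.le)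
      have h4 : b ^ m' ≤ Y ^ Rs :=
        (Nat.pow_le_pow_left hbY _).trans (Nat.pow_le_pow_right hY h2.le)
      omega

end Pool.Agent.Y902.FB
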