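import Mathlib
import Pool.Agent.Y902.FB.Asm

/-!
# The number of solutions of the Fermat-Catalan equation with bases up to `Y`: the theorem
-/

set_option autoImplicit false

namespace Pool.Agent.Y902.FB

open Finset MvPolynomial

theorem main (ε : ℝ) (hε : 0 < ε) : ∃ R Y₀ : ℕ, ∀ Y : ℕ, Y₀ ≤ Y →
    (Triples Y R).Finite ∧ ((Triples Y R).ncard : ℝ) ≤ (Y : ℝ) ^ ε := by
  classical
  -- the parameters
  obtain ⟨k, hkε⟩ := exists_nat_ge (44 / ε + 1)
  have hk0 : (0 : ℝ) < k := lt_of_lt_of_le (by positivity) hkε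
  have hk : 1 ≤ k := by exact_mod_cast (show (0 : ℝ) < k from hk0)
  have hk2 : 22 / (k : ℝ) ≤ ε / 2 := by
    rw [div_le_div_iff₀ hk0 (by norm_num)]
    have h1 : 44 / ε ≤ k := by linarith
    rw [div_le_iff₀ hε] at h1
    linarith
  obtain ⟨Rs, A, M, hRs, hA, hM, hcount⟩ := count_all k hk
  obtain ⟨C, κ, hexp⟩ := exp_bound_FC
  obtain ⟨δ, hδ, X₀, hsparse⟩ := Pool.Agent.W232.FC.sparse (ε / (2 * ((Rs : ℝ) + 1))) (by positivity)
  obtain ⟨Y₁, hY₁⟩ := ev_poly (A * (C + Rs) ^ M) (κ * M) (1 / k) (by positivity)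
  obtain ⟨Y₂, hY₂⟩ := Pool.Agent.W232.FC.ev_const ((2 : ℝ) ^ 23) (ε / 2) (by positivity)
  obtain ⟨R, hR⟩ : ∃ R, R = Rs + (⌈1 / δ⌉₊ + 1) := ⟨_, rfl⟩
  refine ⟨R, Y₁ + Y₂ + X₀ + 2, fun Y hY => ?_⟩
  have hYpos : 1 ≤ Y := by omega
  have hY1 : (1 : ℝ) ≤ Y := by exact_mod_cast hYpos
  have hY0 : (0 : ℝ) < Y := by linarith
  obtain ⟨X, hX⟩ : ∃ X, X = ⌈(Y : ℝ) ^ (1 / (k : ℝ))⌉₊ := ⟨_, rfl⟩
  have hXle : (Y : ℝ) ^ (1 / (k : ℝ)) ≤ X := by rw [hX]; exact Nat.le_ceil _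
  have hYk1 : (1 : ℝ) ≤ (Y : ℝ) ^ (1 / (k : ℝ)) := Real.one_le_rpow hY1 (by positivity)
  have hXlt : (X : ℝ) ≤ 2 * (Y : ℝ) ^ (1 / (k : ℝ)) := by
    have := Nat.ceil_lt_add_one (show 0 ≤ (Y : ℝ) ^ (1 / (k : ℝ)) by positivity)
    rw [← hX] at this
    linarith
  have hX1 : 1 ≤ X := by
    have : (1 : ℝ) ≤ X := hYk1.trans hXle
    exact_mod_cast this
  obtain ⟨S, hS⟩ : ∃ S, S = Nat.log 2 Y + 2 := ⟨_, rfl⟩
  have hS1 : 1 ≤ S := by omega
  have hYS : Y ≤ 2 ^ S := by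
    have h1 : Y < 2 ^ (Nat.log 2 Y + 1) := Nat.lt_pow_succ_log_self (by norm_num) _
    rw [hS]
    exact h1.le.trans (Nat.pow_le_pow_right (by norm_num) (by omega))
  obtain ⟨E, hE⟩ : ∃ E, E = C * S ^ κ + Rs := ⟨_, rfl⟩
  have hE1 : 1 ≤ E := by omega
  have hEle : E ≤ (C + Rs) * S ^ κ := by
    rw [hE, add_mul]
    exact Nat.add_le_add_left (Nat.le_mul_of_pos_right _ (Nat.pow_pos hS1)) _
  have hAE : A * E ^ M ≤ X := by
    have h1 : A * E ^ M ≤ A * (C + Rs) ^ M * (Nat.log 2 Y + 2) ^ (κ * M) := by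
      rw [← hS, pow_mul, mul_assoc, ← mul_pow]
      exact Nat.mul_le_mul_left _ (Nat.pow_le_pow_left hEle _)
    have h2 := hY₁ Y (by omega)
    have h3 : ((A * E ^ M : ℕ) : ℝ) ≤ X := by
      refine le_trans ?_ (h2.trans hXle)
      exact_mod_cast h1
    exact_mod_cast h3
  have hEX : E ≤ X := by
    refine le_trans ?_ hAE
    calc E ≤ E ^ M := Nat.le_self_pow (by omega) E
      _ ≤ A * E ^ M := Nat.le_mul_of_pos_left _ hA
  have hYX : Y ≤ X ^ k := by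
    have h1 : ((Y : ℝ) ^ (1 / (k : ℝ))) ^ k ≤ (X : ℝ) ^ k :=
      pow_le_pow_left₀ (by positivity) hXle k
    rw [← Real.rpow_natCast ((Y : ℝ) ^ (1 / (k : ℝ))) k, ← Real.rpow_mul hY0.le,
      one_div_mul_cancel hk0.ne', Real.rpow_one] at h1
    exact_mod_cast h1
  -- the finite set of triples of exponents
  set Box : Finset (Fin 3 → ℕ) := (Fintype.piFinset fun _ : Fin 3 => Finset.Icc 1 E).filter
    fun e => ∃ i j : Fin 3, i ≠ j ∧ Rs ≤ e i ∧ Rs ≤ e j with hBox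
  have hBoxc : Box.card ≤ E ^ 3 := by
    refine (Finset.card_filter_le _ _).trans ?_
    rw [Fintype.card_piFinset]
    simp
  set F : Finset (ℕ × ℕ × ℕ) := Box.biUnion fun e => (SolE_finite e Y).toFinset.image (val e)
    with hF
  have hFc : F.card ≤ X ^ 22 := by
    refine (Finset.card_biUnion_le_card_mul _ _ (X ^ 19) fun e he => ?_).trans ?_
    · refine Finset.card_image_le.trans ?_
      rw [← Set.ncard_eq_toFinset_card _ (SolE_finite e Y)]
      obtain ⟨he1, i, j, hij, hi, hj⟩ := Finset.mem_filter.1 he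
      rw [Fintype.mem_piFinset] at he1
      exact hcount X E Y hE1 hAE hYpos hYX e (fun i => (Finset.mem_Icc.1 (he1 i)).1)
        (fun i => (Finset.mem_Icc.1 (he1 i)).2) i j hij hi hj
    · calc Box.card * X ^ 19 ≤ X ^ 3 * X ^ 19 :=
            Nat.mul_le_mul_right _ (hBoxc.trans (Nat.pow_le_pow_left hEX 3))
        _ = X ^ 22 := by ring
  set X' : ℕ := 2 * Y ^ Rs with hX'
  have hX'1 : 1 ≤ X' := by rw [hX']; have := Nat.one_le_pow Rs Y hYpos; omega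
  have hX'R : (1 : ℝ) ≤ X' := by exact_mod_cast hX'1
  have hsub : Triples Y R ⊆ (F : Set (ℕ × ℕ × ℕ)) ∪
      Pool.Agent.W232.FC.Sol X' ((X' : ℝ) ^ δ) := by
    rintro v ⟨a, b, c, l, m, n, ha, hb, hc, haY, hbY, hcY, hab, hac, hbc, hl, hm, hn, hRlmn, heq, rfl⟩
    obtain ⟨k1, k2, k3⟩ := hexp S (by omega) a b c l m n ha hb hc (haY.trans hYS) (hbY.trans hYS)
      (hcY.trans hYS) hab hac hbc hl hm hn heq
    have hc2 : 2 ≤ c := by
      by_contra h
      have h1 : c = 1 := by omega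
      rw [h1, one_pow] at heq
      have h2 : 0 < a ^ l := Nat.pow_pos ha
      have h3 : 0 < b ^ m := Nat.pow_pos hb
      omega
    rcases classify (E := E) (Rs := Rs) ha hb hc haY hbY hcY hab hac hbc hl hm hn heq hRs (by omega)
      (fun h => (k1 h).trans (by omega)) (fun h => (k2 h).trans (by omega))
      ((k3 hc2).trans (by omega)) with ⟨e, he1, he2, he3, t, ht, hv⟩ | hval
    · left
      rw [hF, Finset.mem_coe, Finset.mem_biUnion]
      refine ⟨e, ?_, ?_⟩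
      · rw [hBox, Finset.mem_filter, Fintype.mem_piFinset]
        exact ⟨fun i => Finset.mem_Icc.2 ⟨he1 i, he2 i⟩, he3⟩
      · rw [Finset.mem_image]
        exact ⟨t, (Set.Finite.mem_toFinset _).2 ht, hv⟩
    · right
      refine ⟨heq, hval, a, b, c, l, m, n, ha, hb, hc, hl, hm, hn, rfl, ?_⟩
      have key : ∀ x r : ℕ, R ≤ r → 0 < x → x ^ r ≤ X' → (x : ℝ) ≤ (X' : ℝ) ^ δ := by
        intro x r hr hx hxr
        have hr0 : (0 : ℝ) < r := by
          have : 1 ≤ r := by omega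
          exact_mod_cast this
        have h1 : (x : ℝ) ^ (r : ℝ) ≤ X' := by
          rw [Real.rpow_natCast]; exact_mod_cast hxr
        have h2 : (x : ℝ) = ((x : ℝ) ^ (r : ℝ)) ^ (1 / (r : ℝ)) := by
          rw [← Real.rpow_mul (by positivity), mul_one_div_cancel hr0.ne', Real.rpow_one]
        rw [h2]
        calc ((x : ℝ) ^ (r : ℝ)) ^ (1 / (r : ℝ)) ≤ (X' : ℝ) ^ (1 / (r : ℝ)) :=
              Real.rpow_le_rpow (by positivity) h1 (by positivity)
          _ ≤ (X' : ℝ) ^ δ := by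
              apply Real.rpow_le_rpow_of_exponent_le hX'R
              rw [div_le_iff₀ hr0]
              have h3 : 1 / δ ≤ (r : ℝ) := by
                have h4 := Nat.le_ceil (1 / δ)
                have h5 : ((⌈1 / δ⌉₊ : ℕ) : ℝ) ≤ r := by
                  have : ⌈1 / δ⌉₊ ≤ r := by omega
                  exact_mod_cast this
                linarith
              rw [div_le_iff₀ hδ] at h3
              linarith
      have hval' : c ^ n ≤ X' := hval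
      rcases hRlmn with h | h | h
      · exact Or.inl (key a l h ha (by omega))
      · exact Or.inr (Or.inl (key b m h hb (by omega)))
      · exact Or.inr (Or.inr (key c n h hc hval'))
  have hfin : ((F : Set (ℕ × ℕ × ℕ)) ∪ Pool.Agent.W232.FC.Sol X' ((X' : ℝ) ^ δ)).Finite :=
    (Finset.finite_toSet F).union (Pool.Agent.W232.FC.Sol_finite _ _)
  refine ⟨hfin.subset hsub, ?_⟩
  have h1 : (Triples Y R).ncard ≤ F.card + (Pool.Agent.W232.FC.Sol X' ((X' : ℝ) ^ δ)).ncard := by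
    refine (Set.ncard_le_ncard hsub hfin).trans ((Set.ncard_union_le _ _).trans ?_)
    rw [Set.ncard_coe_finset]
  have h2 : ((Triples Y R).ncard : ℝ) ≤ (X : ℝ) ^ 22 + (X' : ℝ) ^ (ε / (2 * ((Rs : ℝ) + 1))) := by
    have h3 : X₀ ≤ X' := by
      have h4 : Y ≤ Y ^ Rs := Nat.le_self_pow (by omega) Y
      omega
    have h5 := hsparse X' h3
    have h6 : ((Triples Y R).ncard : ℝ) ≤ ((F.card + (Pool.Agent.W232.FC.Sol X'
        ((X' : ℝ) ^ δ)).ncard : ℕ) : ℝ) := by exact_mod_cast h1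
    have h7 : (F.card : ℝ) ≤ (X : ℝ) ^ 22 := by exact_mod_cast hFc
    push_cast at h6
    linarith
  have h8 := hY₂ Y (by omega)
  have hhalf : (Y : ℝ) ^ ε = (Y : ℝ) ^ (ε / 2) * (Y : ℝ) ^ (ε / 2) := by
    rw [← Real.rpow_add hY0]; ring_nf
  have hYe : (0 : ℝ) < (Y : ℝ) ^ (ε / 2) := by positivity
  have h9 : (X : ℝ) ^ 22 ≤ (Y : ℝ) ^ ε / 2 := by
    have h10 : (X : ℝ) ^ 22 ≤ 2 ^ 22 * (Y : ℝ) ^ (ε / 2) := by
      calc (X : ℝ) ^ 22 ≤ (2 * (Y : ℝ) ^ (1 / (k : ℝ))) ^ 22 :=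
            pow_le_pow_left₀ (by positivity) hXlt 22
        _ = 2 ^ 22 * ((Y : ℝ) ^ (1 / (k : ℝ))) ^ 22 := mul_pow _ _ _
        _ = 2 ^ 22 * (Y : ℝ) ^ (22 / (k : ℝ)) := by
            rw [← Real.rpow_natCast ((Y : ℝ) ^ (1 / (k : ℝ))) 22, ← Real.rpow_mul hY0.le]
            congr 2
            push_cast
            ring
        _ ≤ 2 ^ 22 * (Y : ℝ) ^ (ε / 2) := by
            apply mul_le_mul_of_nonneg_left _ (by positivity)
            exact Real.rpow_le_rpow_of_exponent_le hY1 hk2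
    rw [hhalf]
    nlinarith
  have h11 : (X' : ℝ) ^ (ε / (2 * ((Rs : ℝ) + 1))) ≤ (Y : ℝ) ^ ε / 2 := by
    have h12 : (X' : ℝ) ≤ (Y : ℝ) ^ ((Rs : ℝ) + 1) := by
      rw [Real.rpow_add_one hY0.ne', Real.rpow_natCast, hX']
      push_cast
      have h13 : (2 : ℝ) ≤ Y := by exact_mod_cast (show 2 ≤ Y by omega)
      have h14 : (0 : ℝ) < (Y : ℝ) ^ Rs := by positivity
      nlinarith
    calc (X' : ℝ) ^ (ε / (2 * ((Rs : ℝ) + 1))) ≤
          ((Y : ℝ) ^ ((Rs : ℝ) + 1)) ^ (ε / (2 * ((Rs : ℝ) + 1))) :=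
          Real.rpow_le_rpow (by positivity) h12 (by positivity)
      _ = (Y : ℝ) ^ (ε / 2) := by
          rw [← Real.rpow_mul hY0.le]
          congr 1
          field_simp
      _ ≤ (Y : ℝ) ^ ε / 2 := by
          rw [hhalf]
          nlinarith
  linarith

end Pool.Agent.Y902.FB
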