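import Mathlib
import Pool.Agent.Y902.FB.Exq

/-!
# The exponents are bounded by a power of the logarithm of the largest base: real form
-/

set_option autoImplicit false

namespace Pool.Agent.Y902.FB

theorem exp_bound_real : ∃ (C : ℝ) (κ : ℕ), 0 < C ∧ ∀ a b c m n k : ℕ, 0 < a → 0 < b → 0 < c →
    Nat.Coprime a b → Nat.Coprime a c → Nat.Coprime b c → 2 ≤ m → 2 ≤ n → 2 ≤ k →
    a ^ m + b ^ n = c ^ k →
    (2 ≤ a → (m : ℝ) ≤ C * Real.log ((max a (max b c) : ℕ) : ℝ) ^ κ) ∧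
    (2 ≤ b → (n : ℝ) ≤ C * Real.log ((max a (max b c) : ℕ) : ℝ) ^ κ) ∧
    (k : ℝ) ≤ C * Real.log ((max a (max b c) : ℕ) : ℝ) ^ κ := by
  obtain ⟨C, κ, h⟩ := exp_bound_FC
  refine ⟨(C + 1) * 5 ^ κ, κ, by positivity, ?_⟩
  intro a b c m n k ha hb hc hab hac hbc hm hn hk heq
  set H := max a (max b c) with hH
  have hc2 : 2 ≤ c := by
    by_contra h
    have h1 : c = 1 := by omega
    rw [h1, one_pow] at heq
    have h2 : 0 < a ^ m := Nat.pow_pos ha
    have h3 : 0 < b ^ n := Nat.pow_pos hb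
    omega
  have haH : a ≤ H := le_max_left _ _
  have hbH : b ≤ H := (le_max_left _ _).trans (le_max_right _ _)
  have hcH : c ≤ H := (le_max_right _ _).trans (le_max_right _ _)
  have hH2 : 2 ≤ H := hc2.trans hcH
  obtain ⟨S, hS⟩ : ∃ S, S = Nat.log 2 H + 2 := ⟨_, rfl⟩
  have hHS : H ≤ 2 ^ S := by
    have h1 : H < 2 ^ (Nat.log 2 H + 1) := Nat.lt_pow_succ_log_self (by norm_num) _
    rw [hS]
    exact h1.le.trans (Nat.pow_le_pow_right (by norm_num) (by omega))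
  obtain ⟨k1, k2, k3⟩ := h S (by omega) a b c m n k ha hb hc (haH.trans hHS) (hbH.trans hHS)
    (hcH.trans hHS) hab hac hbc hm hn hk heq
  have hlog : (S : ℝ) ≤ 5 * Real.log (H : ℝ) := by
    have g3 : (2 : ℝ) ^ (Nat.log 2 H) ≤ H := by
      exact_mod_cast Nat.pow_log_le_self 2 (by omega)
    have g4 := Real.log_le_log (by positivity) g3
    rw [Real.log_pow] at g4
    have hlog2 : (0.6931471803 : ℝ) < Real.log 2 := Real.log_two_gt_d9
    have g5 : Real.log 2 ≤ Real.log (H : ℝ) :=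
      Real.log_le_log (by norm_num) (by exact_mod_cast hH2)
    have hl : (0 : ℝ) ≤ (Nat.log 2 H : ℝ) := by positivity
    rw [hS]
    push_cast
    nlinarith
  have hlog0 : 0 ≤ Real.log (H : ℝ) := Real.log_nonneg (by exact_mod_cast (show 1 ≤ H by omega))
  have key : ∀ x : ℕ, x ≤ C * S ^ κ → (x : ℝ) ≤ ((C : ℝ) + 1) * 5 ^ κ * Real.log (H : ℝ) ^ κ := by
    intro x hx
    have h1 : (x : ℝ) ≤ (C : ℝ) * (S : ℝ) ^ κ := by exact_mod_cast hx
    have h2 : (S : ℝ) ^ κ ≤ (5 * Real.log (H : ℝ)) ^ κ := pow_le_pow_left₀ (by positivity) hlog κ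
    calc (x : ℝ) ≤ (C : ℝ) * (S : ℝ) ^ κ := h1
      _ ≤ ((C : ℝ) + 1) * (5 * Real.log (H : ℝ)) ^ κ := by
          apply mul_le_mul (by linarith) h2 (by positivity) (by positivity)
      _ = _ := by rw [mul_pow]; ring
  exact ⟨fun h => key m (k1 h), fun h => key n (k2 h), key k (k3 hc2)⟩

end Pool.Agent.Y902.FB
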