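import Mathlib
import Pool.Agent.Y902.FB.Main
import Pool.Agent.Y902.FB.ExR

/-!
# Counting the tuples (bases and exponents), and integer solutions with signs
-/

set_option autoImplicit false

namespace Pool.Agent.Y902.FB

/-- Solutions `(a, b, c, m, n, k)` with pairwise coprime bases in `[2, Y]`, exponents `≥ 2`, one
`≥ R`. -/
def Six (Y R : ℕ) : Set (ℕ × ℕ × ℕ × ℕ × ℕ × ℕ) :=
  {t | ∃ a b c m n k : ℕ, 2 ≤ a ∧ 2 ≤ b ∧ 2 ≤ c ∧ a ≤ Y ∧ b ≤ Y ∧ c ≤ Y ∧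
    Nat.Coprime a b ∧ Nat.Coprime a c ∧ Nat.Coprime b c ∧ 2 ≤ m ∧ 2 ≤ n ∧ 2 ≤ k ∧
    (R ≤ m ∨ R ≤ n ∨ R ≤ k) ∧ a ^ m + b ^ n = c ^ k ∧ t = (a, b, c, m, n, k)}

theorem six (ε : ℝ) (hε : 0 < ε) : ∃ R Y₀ : ℕ, ∀ Y : ℕ, Y₀ ≤ Y →
    (Six Y R).Finite ∧ ((Six Y R).ncard : ℝ) ≤ (Y : ℝ) ^ ε := by
  classical
  obtain ⟨R, Y₀, hmain⟩ := main (ε / 2) (by positivity)
  obtain ⟨C, κ, hexp⟩ := exp_bound_FC
  obtain ⟨Y₁, hY₁⟩ := ev_poly (C ^ 3) (κ * 3) (ε / 2) (by positivity)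
  refine ⟨R, Y₀ + Y₁ + 1, fun Y hY => ?_⟩
  obtain ⟨hfin, hcard⟩ := hmain Y (by omega)
  have hY0 : (0 : ℝ) < Y := by exact_mod_cast (show 0 < Y by omega)
  obtain ⟨S, hS⟩ : ∃ S, S = Nat.log 2 Y + 2 := ⟨_, rfl⟩
  have hYS : Y ≤ 2 ^ S := by
    have h1 : Y < 2 ^ (Nat.log 2 Y + 1) := Nat.lt_pow_succ_log_self (by norm_num) _
    rw [hS]
    exact h1.le.trans (Nat.pow_le_pow_right (by norm_num) (by omega))
  obtain ⟨E, hE⟩ : ∃ E, E = C * S ^ κ := ⟨_, rfl⟩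
  set B : Finset ℕ := Finset.Icc 1 E with hB
  set T : Finset ((ℕ × ℕ × ℕ) × (ℕ × ℕ × ℕ)) := hfin.toFinset ×ˢ (B ×ˢ (B ×ˢ B)) with hT
  set φ : ℕ × ℕ × ℕ × ℕ × ℕ × ℕ → (ℕ × ℕ × ℕ) × (ℕ × ℕ × ℕ) := fun t =>
    ((t.1 ^ t.2.2.2.1, t.2.1 ^ t.2.2.2.2.1, t.2.2.1 ^ t.2.2.2.2.2),
      (t.2.2.2.1, t.2.2.2.2.1, t.2.2.2.2.2)) with hφ
  have hmaps : ∀ t ∈ Six Y R, φ t ∈ (T : Set _) := by
    rintro t ⟨a, b, c, m, n, k, ha, hb, hc, haY, hbY, hcY, hab, hac, hbc, hm, hn, hk, hR, heq, rfl⟩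
    obtain ⟨k1, k2, k3⟩ := hexp S (by omega) a b c m n k (by omega) (by omega) (by omega)
      (haY.trans hYS) (hbY.trans hYS) (hcY.trans hYS) hab hac hbc hm hn hk heq
    rw [hT, Finset.mem_coe, Finset.mem_product, Finset.mem_product, Finset.mem_product, hB]
    refine ⟨?_, ?_, ?_, ?_⟩
    · rw [Set.Finite.mem_toFinset]
      exact ⟨a, b, c, m, n, k, by omega, by omega, by omega, haY, hbY, hcY, hab, hac, hbc, hm, hn,
        hk, hR, heq, rfl⟩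
    · exact Finset.mem_Icc.2 ⟨by simp only [hφ]; omega, (k1 ha).trans hE.ge⟩
    · exact Finset.mem_Icc.2 ⟨by simp only [hφ]; omega, (k2 hb).trans hE.ge⟩
    · exact Finset.mem_Icc.2 ⟨by simp only [hφ]; omega, (k3 hc).trans hE.ge⟩
  have hinj : Set.InjOn φ (Six Y R) := by
    rintro t ⟨a, b, c, m, n, k, ha, hb, hc, -, -, -, -, -, -, hm, hn, hk, -, -, rfl⟩
      t' ⟨a', b', c', m', n', k', ha', hb', hc', -, -, -, -, -, -, hm', hn', hk', -, -, rfl⟩ h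
    simp only [hφ, Prod.mk.injEq] at h
    obtain ⟨⟨h1, h2, h3⟩, h4, h5, h6⟩ := h
    subst h4 h5 h6
    have e1 := Nat.pow_left_injective (n := m) (by omega) h1
    have e2 := Nat.pow_left_injective (n := n) (by omega) h2
    have e3 := Nat.pow_left_injective (n := k) (by omega) h3
    rw [e1, e2, e3]
  have hfinS : (Six Y R).Finite := Set.Finite.of_injOn (fun t ht => hmaps t ht) hinj T.finite_toSet
  refine ⟨hfinS, ?_⟩
  have h1 : (Six Y R).ncard ≤ T.card := by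
    rw [← Set.ncard_coe_finset]
    exact Set.ncard_le_ncard_of_injOn φ hmaps hinj T.finite_toSet
  have h2 : T.card = (Triples Y R).ncard * (E * (E * E)) := by
    rw [hT, Finset.card_product, Finset.card_product, Finset.card_product, hB, Nat.card_Icc,
      Set.ncard_eq_toFinset_card _ hfin]
    simp
  have h3 : ((E * (E * E) : ℕ) : ℝ) ≤ (Y : ℝ) ^ (ε / 2) := by
    have h4 := hY₁ Y (by omega)
    refine le_trans (le_of_eq ?_) h4
    rw [hE, ← hS]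
    push_cast
    rw [pow_mul]
    ring
  calc ((Six Y R).ncard : ℝ) ≤ (T.card : ℝ) := by exact_mod_cast h1
    _ = ((Triples Y R).ncard : ℝ) * ((E * (E * E) : ℕ) : ℝ) := by rw [h2]; push_cast; ring
    _ ≤ (Y : ℝ) ^ (ε / 2) * (Y : ℝ) ^ (ε / 2) := by
        apply mul_le_mul hcard h3 (by positivity) (by positivity)
    _ = (Y : ℝ) ^ ε := by rw [← Real.rpow_add hY0]; congr 1; ring

/-- Integer solutions `(x, y, z, l, m, n)` of `x ^ l + y ^ m = z ^ n`, coprime, with bases of absolute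
value in `[2, Y]`, exponents `≥ 3`, one `≥ R`. -/
def SixInt (Y R : ℕ) : Set (ℤ × ℤ × ℤ × ℕ × ℕ × ℕ) :=
  {t | ∃ (x y z : ℤ) (l m n : ℕ), 2 ≤ |x| ∧ 2 ≤ |y| ∧ 2 ≤ |z| ∧ |x| ≤ Y ∧ |y| ≤ Y ∧ |z| ≤ Y ∧
    IsCoprime x y ∧ IsCoprime x z ∧ IsCoprime y z ∧ 2 ≤ l ∧ 2 ≤ m ∧ 2 ≤ n ∧
    (R ≤ l ∨ R ≤ m ∨ R ≤ n) ∧ x ^ l + y ^ m = z ^ n ∧ t = (x, y, z, l, m, n)}

/-- The permutations and signs. -/
def back (s : Fin 3 × Bool × Bool × Bool) (t : ℕ × ℕ × ℕ × ℕ × ℕ × ℕ) :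
    ℤ × ℤ × ℤ × ℕ × ℕ × ℕ :=
  let σ : Bool → ℤ := fun b => if b then 1 else -1
  let x := (t.1 : ℤ)
  let y := (t.2.1 : ℤ)
  let z := (t.2.2.1 : ℤ)
  let l := t.2.2.2.1
  let m := t.2.2.2.2.1
  let n := t.2.2.2.2.2
  if s.1 = 0 then (σ s.2.1 * x, σ s.2.2.1 * y, σ s.2.2.2 * z, l, m, n)
  else if s.1 = 1 then (σ s.2.1 * x, σ s.2.2.1 * z, σ s.2.2.2 * y, l, n, m)
  else (σ s.2.1 * z, σ s.2.2.1 * x, σ s.2.2.2 * y, n, l, m)

theorem sgn_cases (x : ℤ) : ∃ b : Bool, x = (if b then 1 else -1) * (x.natAbs : ℤ) := by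
  rcases le_total 0 x with h | h
  · exact ⟨true, by simp [abs_of_nonneg h]⟩
  · exact ⟨false, by simp [abs_of_nonpos h]⟩

theorem abs_three {u v w : ℤ} (h : u + v = w) :
    |u| + |v| = |w| ∨ |u| + |w| = |v| ∨ |v| + |w| = |u| := by
  rcases _root_.abs_cases u with ⟨h1, h1'⟩ | ⟨h1, h1'⟩ <;>
    rcases _root_.abs_cases v with ⟨h2, h2'⟩ | ⟨h2, h2'⟩ <;>
    rcases _root_.abs_cases w with ⟨h3, h3'⟩ | ⟨h3, h3'⟩ <;> rw [h1, h2, h3] <;> omega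

theorem sub_back (Y R : ℕ) : SixInt Y R ⊆ ⋃ s : Fin 3 × Bool × Bool × Bool, back s '' Six Y R := by
  rintro t ⟨x, y, z, l, m, n, hx, hy, hz, hxY, hyY, hzY, hxy, hxz, hyz, hl, hm, hn, hR, heq, rfl⟩
  obtain ⟨bx, hbx⟩ := sgn_cases x
  obtain ⟨byy, hby⟩ := sgn_cases y
  obtain ⟨bz, hbz⟩ := sgn_cases z
  rw [Int.abs_eq_natAbs] at hx hy hz hxY hyY hzY
  have hxy' : Nat.Coprime x.natAbs y.natAbs := Int.isCoprime_iff_gcd_eq_one.1 hxy
  have hxz' : Nat.Coprime x.natAbs z.natAbs := Int.isCoprime_iff_gcd_eq_one.1 hxz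
  have hyz' : Nat.Coprime y.natAbs z.natAbs := Int.isCoprime_iff_gcd_eq_one.1 hyz
  have h3 := abs_three heq
  rw [abs_pow, abs_pow, abs_pow, Int.abs_eq_natAbs, Int.abs_eq_natAbs, Int.abs_eq_natAbs] at h3
  rw [Set.mem_iUnion]
  rcases h3 with h | h | h
  · refine ⟨(0, bx, byy, bz), (x.natAbs, y.natAbs, z.natAbs, l, m, n), ?_, ?_⟩
    · exact ⟨_, _, _, _, _, _, by omega, by omega, by omega, by omega, by omega, by omega, hxy', hxz',
        hyz', hl, hm, hn, hR, by exact_mod_cast h, rfl⟩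
    · simp only [back, if_true]
      rw [← hbx, ← hby, ← hbz]
  · refine ⟨(1, bx, byy, bz), (x.natAbs, z.natAbs, y.natAbs, l, n, m), ?_, ?_⟩
    · exact ⟨_, _, _, _, _, _, by omega, by omega, by omega, by omega, by omega, by omega, hxz', hxy',
        hyz'.symm, hl, hn, hm, by tauto, by exact_mod_cast h, rfl⟩
    · simp only [back, one_ne_zero, if_false, if_true]
      rw [← hbx, ← hby, ← hbz]
  · refine ⟨(2, bx, byy, bz), (y.natAbs, z.natAbs, x.natAbs, m, n, l), ?_, ?_⟩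
    · exact ⟨_, _, _, _, _, _, by omega, by omega, by omega, by omega, by omega, by omega, hyz',
        hxy'.symm, hxz'.symm, hm, hn, hl, by tauto, by exact_mod_cast h, rfl⟩
    · simp only [back]
      rw [if_neg (by decide), if_neg (by decide), ← hbx, ← hby, ← hbz]

theorem six_int (ε : ℝ) (hε : 0 < ε) : ∃ R Y₀ : ℕ, ∀ Y : ℕ, Y₀ ≤ Y →
    (SixInt Y R).Finite ∧ ((SixInt Y R).ncard : ℝ) ≤ (Y : ℝ) ^ ε := by
  classical
  obtain ⟨R, Y₀, hmain⟩ := six (ε / 2) (by positivity)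
  obtain ⟨Y₁, hY₁⟩ := Pool.Agent.W232.FC.ev_const (24 : ℝ) (ε / 2) (by positivity)
  refine ⟨R, Y₀ + Y₁ + 1, fun Y hY => ?_⟩
  obtain ⟨hfin, hcard⟩ := hmain Y (by omega)
  have hY0 : (0 : ℝ) < Y := by exact_mod_cast (show 0 < Y by omega)
  have hU : (⋃ s : Fin 3 × Bool × Bool × Bool, back s '' Six Y R).Finite :=
    Set.finite_iUnion fun s => hfin.image _
  refine ⟨hU.subset (sub_back Y R), ?_⟩
  have h1 : (SixInt Y R).ncard ≤ 24 * (Six Y R).ncard := by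
    refine (Set.ncard_le_ncard (sub_back Y R) hU).trans ?_
    have h2 : (⋃ s : Fin 3 × Bool × Bool × Bool, back s '' Six Y R) ⊆
        ((Finset.univ : Finset (Fin 3 × Bool × Bool × Bool)).biUnion
          (fun s => hfin.toFinset.image (back s)) : Finset _) := by
      intro t ht
      rw [Set.mem_iUnion] at ht
      obtain ⟨s, u, hu, rfl⟩ := ht
      rw [Finset.mem_coe, Finset.mem_biUnion]
      exact ⟨s, Finset.mem_univ _, Finset.mem_image_of_mem _ ((Set.Finite.mem_toFinset _).2 hu)⟩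
    refine (Set.ncard_le_ncard h2 (Finset.finite_toSet _)).trans ?_
    rw [Set.ncard_coe_finset]
    refine (Finset.card_biUnion_le_card_mul _ _ (Six Y R).ncard fun s _ => ?_).trans ?_
    · refine Finset.card_image_le.trans ?_
      rw [← Set.ncard_eq_toFinset_card _ hfin]
    · simp
  calc ((SixInt Y R).ncard : ℝ) ≤ ((24 * (Six Y R).ncard : ℕ) : ℝ) := by exact_mod_cast h1
    _ = 24 * ((Six Y R).ncard : ℝ) := by push_cast; ring
    _ ≤ (Y : ℝ) ^ (ε / 2) * (Y : ℝ) ^ (ε / 2) := by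
        apply mul_le_mul (hY₁ Y (by omega)) hcard (by positivity) (by positivity)
    _ = (Y : ℝ) ^ ε := by rw [← Real.rpow_add hY0]; congr 1; ring

end Pool.Agent.Y902.FB
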