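import Mathlib
import Pool.Agent.Y902.FB.Six

/-!
# Counterexamples to the Beal conjecture, and primitive integer solutions
-/

set_option autoImplicit false

namespace Pool.Agent.Y902.FB

theorem int_pairwise {x y z : ℤ} {l m n : ℕ} (hl : 1 ≤ l) (hm : 1 ≤ m) (hn : 1 ≤ n)
    (h : x ^ l + y ^ m = z ^ n) (hg : Int.gcd (Int.gcd x y) z = 1) :
    IsCoprime x y ∧ IsCoprime x z ∧ IsCoprime y z := by
  have key : ∀ p : ℕ, p.Prime → ¬ ((p : ℤ) ∣ x ∧ (p : ℤ) ∣ y ∧ (p : ℤ) ∣ z) := by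
    rintro p hp ⟨h1, h2, h3⟩
    have h4 : (p : ℤ) ∣ Int.gcd x y := Int.dvd_coe_gcd h1 h2
    have h5 : (p : ℤ) ∣ Int.gcd (Int.gcd x y) z := Int.dvd_coe_gcd h4 h3
    rw [hg] at h5
    have h6 : p ∣ 1 := by exact_mod_cast h5
    exact hp.one_lt.ne' (Nat.dvd_one.1 h6)
  have hcop : ∀ u v : ℤ, (∀ p : ℕ, p.Prime → (p : ℤ) ∣ u → (p : ℤ) ∣ v → False) → IsCoprime u v := by
    intro u v huv
    rw [Int.isCoprime_iff_gcd_eq_one]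
    by_contra hne
    obtain ⟨p, hp, hpd⟩ := Nat.exists_prime_and_dvd hne
    have h1 : (p : ℤ) ∣ Int.gcd u v := by exact_mod_cast hpd
    exact huv p hp (h1.trans (Int.gcd_dvd_left _ _)) (h1.trans (Int.gcd_dvd_right _ _))
  refine ⟨hcop x y fun p hp h1 h2 => ?_, hcop x z fun p hp h1 h2 => ?_, hcop y z fun p hp h1 h2 => ?_⟩
  all_goals have hpi : Prime (p : ℤ) := Nat.prime_iff_prime_int.1 hp
  · refine key p hp ⟨h1, h2, hpi.dvd_of_dvd_pow (n := n) ?_⟩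
    rw [← h]
    exact dvd_add (dvd_pow h1 (by omega)) (dvd_pow h2 (by omega))
  · refine key p hp ⟨h1, hpi.dvd_of_dvd_pow (n := m) ?_, h2⟩
    have e : y ^ m = z ^ n - x ^ l := by linarith
    rw [e]
    exact dvd_sub (dvd_pow h2 (by omega)) (dvd_pow h1 (by omega))
  · refine key p hp ⟨hpi.dvd_of_dvd_pow (n := l) ?_, h1, h2⟩
    have e : x ^ l = z ^ n - y ^ m := by linarith
    rw [e]
    exact dvd_sub (dvd_pow h2 (by omega)) (dvd_pow h1 (by omega))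

theorem nat_pairwise {A B C x y z : ℕ} (hx : 1 ≤ x) (hy : 1 ≤ y) (hz : 1 ≤ z)
    (h : A ^ x + B ^ y = C ^ z) (hg : Nat.gcd A (Nat.gcd B C) = 1) :
    Nat.Coprime A B ∧ Nat.Coprime A C ∧ Nat.Coprime B C := by
  have hg' : Int.gcd (Int.gcd (A : ℤ) (B : ℤ)) (C : ℤ) = 1 := by
    rw [Int.gcd_natCast_natCast, Int.gcd_natCast_natCast, Nat.gcd_assoc]
    exact hg
  obtain ⟨h1, h2, h3⟩ := int_pairwise hx hy hz (by exact_mod_cast h) hg'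
  exact ⟨Nat.isCoprime_iff_coprime.1 h1, Nat.isCoprime_iff_coprime.1 h2,
    Nat.isCoprime_iff_coprime.1 h3⟩

/-- The counterexamples `(A, B, C, x, y, z)` to the Beal conjecture with `A, B ≥ 2`, bases at most
`Y`, and at least one exponent at least `R`. -/
def BealSet (Y R : ℕ) : Set (ℕ × ℕ × ℕ × ℕ × ℕ × ℕ) :=
  {t | ∃ A B C x y z : ℕ, 2 ≤ A ∧ 2 ≤ B ∧ 0 < C ∧ A ≤ Y ∧ B ≤ Y ∧ C ≤ Y ∧ 3 ≤ x ∧ 3 ≤ y ∧ 3 ≤ z ∧
    (R ≤ x ∨ R ≤ y ∨ R ≤ z) ∧ A ^ x + B ^ y = C ^ z ∧ Nat.gcd A (Nat.gcd B C) = 1 ∧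
    t = (A, B, C, x, y, z)}

theorem beal_exp : ∃ (D : ℝ) (κ : ℕ), 0 < D ∧ ∀ A B C x y z : ℕ, 0 < A → 0 < B → 0 < C →
    3 ≤ x → 3 ≤ y → 3 ≤ z → A ^ x + B ^ y = C ^ z → Nat.gcd A (Nat.gcd B C) = 1 →
    (2 ≤ A → (x : ℝ) ≤ D * Real.log ((max A (max B C) : ℕ) : ℝ) ^ κ) ∧
    (2 ≤ B → (y : ℝ) ≤ D * Real.log ((max A (max B C) : ℕ) : ℝ) ^ κ) ∧
    (z : ℝ) ≤ D * Real.log ((max A (max B C) : ℕ) : ℝ) ^ κ := by
  obtain ⟨D, κ, hD, h⟩ := exp_bound_real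
  refine ⟨D, κ, hD, fun A B C x y z hA hB hC hx hy hz heq hg => ?_⟩
  obtain ⟨h1, h2, h3⟩ := nat_pairwise (by omega) (by omega) (by omega) heq hg
  exact h A B C x y z hA hB hC h1 h2 h3 (by omega) (by omega) (by omega) heq

theorem beal_count (ε : ℝ) (hε : 0 < ε) : ∃ R Y₀ : ℕ, ∀ Y : ℕ, Y₀ ≤ Y →
    (BealSet Y R).Finite ∧ ((BealSet Y R).ncard : ℝ) ≤ (Y : ℝ) ^ ε := by
  obtain ⟨R, Y₀, h⟩ := six ε hε
  refine ⟨R, Y₀, fun Y hY => ?_⟩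
  obtain ⟨hfin, hcard⟩ := h Y hY
  have hsub : BealSet Y R ⊆ Six Y R := by
    rintro t ⟨A, B, C, x, y, z, hA, hB, hC, hAY, hBY, hCY, hx, hy, hz, hR, heq, hg, rfl⟩
    obtain ⟨h1, h2, h3⟩ := nat_pairwise (by omega) (by omega) (by omega) heq hg
    have hC2 : 2 ≤ C := by
      by_contra hc
      have h1 : C = 1 := by omega
      rw [h1, one_pow] at heq
      have h2 : 0 < A ^ x := Nat.pow_pos (by omega)
      have h3 : 0 < B ^ y := Nat.pow_pos (by omega)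
      omega
    exact ⟨A, B, C, x, y, z, hA, hB, hC2, hAY, hBY, hCY, h1, h2, h3, by omega, by omega, by omega,
      hR, heq, rfl⟩
  refine ⟨hfin.subset hsub, ?_⟩
  refine le_trans ?_ hcard
  exact_mod_cast Set.ncard_le_ncard hsub hfin

/-- Primitive solutions `(x, y, z, l, m, n)` of `x ^ l + y ^ m = z ^ n` in integers, all exponents at
least `3`, the bases of absolute value in `[2, Y]`, at least one exponent at least `R`. -/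
def PrimSet (Y R : ℕ) : Set (ℤ × ℤ × ℤ × ℕ × ℕ × ℕ) :=
  {t | ∃ (x y z : ℤ) (l m n : ℕ), 2 ≤ |x| ∧ 2 ≤ |y| ∧ 2 ≤ |z| ∧ |x| ≤ Y ∧ |y| ≤ Y ∧ |z| ≤ Y ∧
    3 ≤ l ∧ 3 ≤ m ∧ 3 ≤ n ∧ (R ≤ l ∨ R ≤ m ∨ R ≤ n) ∧ x ^ l + y ^ m = z ^ n ∧
    Int.gcd (Int.gcd x y) z = 1 ∧ t = (x, y, z, l, m, n)}

theorem prim_count (ε : ℝ) (hε : 0 < ε) : ∃ R Y₀ : ℕ, ∀ Y : ℕ, Y₀ ≤ Y →
    (PrimSet Y R).Finite ∧ ((PrimSet Y R).ncard : ℝ) ≤ (Y : ℝ) ^ ε := by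
  obtain ⟨R, Y₀, h⟩ := six_int ε hε
  refine ⟨R, Y₀, fun Y hY => ?_⟩
  obtain ⟨hfin, hcard⟩ := h Y hY
  have hsub : PrimSet Y R ⊆ SixInt Y R := by
    rintro t ⟨A, B, C, x, y, z, hA, hB, hC, hAY, hBY, hCY, hx, hy, hz, hR, heq, hg, rfl⟩
    obtain ⟨h1, h2, h3⟩ := int_pairwise (by omega) (by omega) (by omega) heq hg
    exact ⟨A, B, C, x, y, z, hA, hB, hC, hAY, hBY, hCY, h1, h2, h3, by omega, by omega, by omega,
      hR, heq, rfl⟩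
  refine ⟨hfin.subset hsub, ?_⟩
  refine le_trans ?_ hcard
  exact_mod_cast Set.ncard_le_ncard hsub hfin

/-- The exponent bound for integer solutions with signs. -/
theorem prim_exp : ∃ (D : ℝ) (κ : ℕ), 0 < D ∧ ∀ (x y z : ℤ) (l m n : ℕ), x ≠ 0 → y ≠ 0 → z ≠ 0 →
    2 ≤ l → 2 ≤ m → 2 ≤ n → x ^ l + y ^ m = z ^ n → Int.gcd (Int.gcd x y) z = 1 →
    (2 ≤ |x| → (l : ℝ) ≤ D * Real.log ((max |x| (max |y| |z|) : ℤ) : ℝ) ^ κ) ∧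
    (2 ≤ |y| → (m : ℝ) ≤ D * Real.log ((max |x| (max |y| |z|) : ℤ) : ℝ) ^ κ) ∧
    (2 ≤ |z| → (n : ℝ) ≤ D * Real.log ((max |x| (max |y| |z|) : ℤ) : ℝ) ^ κ) := by
  obtain ⟨D, κ, hD, h⟩ := exp_bound_real
  refine ⟨D, κ, hD, fun x y z l m n hx hy hz hl hm hn heq hg => ?_⟩
  obtain ⟨h1, h2, h3⟩ := int_pairwise (by omega) (by omega) (by omega) heq hg
  have hxy' : Nat.Coprime x.natAbs y.natAbs := Int.isCoprime_iff_gcd_eq_one.1 h1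
  have hxz' : Nat.Coprime x.natAbs z.natAbs := Int.isCoprime_iff_gcd_eq_one.1 h2
  have hyz' : Nat.Coprime y.natAbs z.natAbs := Int.isCoprime_iff_gcd_eq_one.1 h3
  have g3 := abs_three heq
  rw [abs_pow, abs_pow, abs_pow, Int.abs_eq_natAbs, Int.abs_eq_natAbs, Int.abs_eq_natAbs] at g3
  rw [Int.abs_eq_natAbs, Int.abs_eq_natAbs, Int.abs_eq_natAbs]
  have px : 0 < x.natAbs := by omega
  have py : 0 < y.natAbs := by omega
  have pz : 0 < z.natAbs := by omega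
  obtain ⟨a, ha⟩ : ∃ a, a = x.natAbs := ⟨_, rfl⟩
  obtain ⟨b, hb⟩ : ∃ b, b = y.natAbs := ⟨_, rfl⟩
  obtain ⟨c, hc⟩ : ∃ c, c = z.natAbs := ⟨_, rfl⟩
  rw [← ha] at px hxy' hxz' g3 ⊢
  rw [← hb] at py hxy' hyz' g3 ⊢
  rw [← hc] at pz hxz' hyz' g3 ⊢
  have e1 : ((max (a : ℤ) (max (b : ℤ) (c : ℤ)) : ℤ) : ℝ) = ((max a (max b c) : ℕ) : ℝ) := by
    push_cast; rfl
  rw [e1]
  rcases g3 with g | g | g
  · obtain ⟨k1, k2, k3⟩ := h a b c l m n px py pz hxy' hxz' hyz' hl hm hn (by exact_mod_cast g)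
    exact ⟨fun t => k1 (by omega), fun t => k2 (by omega), fun t => k3⟩
  · obtain ⟨k1, k2, k3⟩ := h a c b l n m px pz py hxz' hxy' hyz'.symm hl hn hm (by exact_mod_cast g)
    rw [max_comm c b] at k1 k2 k3
    exact ⟨fun t => k1 (by omega), fun t => k3, fun t => k2 (by omega)⟩
  · obtain ⟨k1, k2, k3⟩ := h b c a m n l py pz px hyz' hxy'.symm hxz'.symm hm hn hl
      (by exact_mod_cast g)
    have e2 : max b (max c a) = max a (max b c) := by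
      rw [max_comm c a, max_left_comm]
    rw [e2] at k1 k2 k3
    exact ⟨fun t => k3, fun t => k1 (by omega), fun t => k2 (by omega)⟩

end Pool.Agent.Y902.FB
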